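import Pool.Agent.Helper74.TY.XList
import Pool.Agent.Helper55.TY.Root

/-!
MP_8ee768_co, project TH-Y': stage X, from the two lists (links of 11 and of 10) to `XDead c`.

The list of the point 10 is the list of the point 11 for the code with 10 and 11 exchanged (`sw10 c`).
A lane `e1` of 11 and a lane `e2` of 10 (in its exchanged frame) of the same cover agree in the upper
120 bits; `rootA c e1 e2` is the root made of the three links.
-/

set_option autoImplicit false

namespace Pool.Agent.Helper74.TY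

open Finset
open Pool.Agent.Helper63.SIMD
open Pool.Agent.Helper89.CV (OddCover ofMask)
open Pool.Agent.Helper97.CV
open Pool.Agent.Helper4.CV
open Pool.Agent.Helper79.CV
open Pool.Agent.Helper33.CV
open Pool.Agent.Helper91.TY
open Pool.Agent.Helper55.TY
open Pool.Agent.Helper82.TY (below)

/-- exchange of the points 10 and 11 on a root code -/
def sw10 (c : ℕ) : ℕ :=
  dswap2 120 c (Nat.land (Nat.xor (Nat.shiftRight c 120) c)
    2187250724783011924372502227117621363707664873572006394270801423852602494216640057589933313674444800)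

theorem sw10_eq (c : ℕ) : sw10 c = app [(120, (2 ^ 120 - 1) * 2 ^ 210)] c := by
  have h : (2 ^ 120 - 1) * 2 ^ 210 =
      2187250724783011924372502227117621363707664873572006394270801423852602494216640057589933313674444800 := by
    norm_num
  rw [h]
  rfl

theorem chk_sw10 : chkTb 12 4 10 [(120, (2 ^ 120 - 1) * 2 ^ 210)] = true := by decide +kernel

theorem enc_sw10 (D : Finset (Finset (Fin 13))) :
    enc 12 4 (mapF (swp 10) D) = sw10 (enc 12 4 D) := by
  rw [sw10_eq]
  exact enc_swp (by norm_num) chk_sw10 D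

theorem swp_ten : swp 10 = Equiv.swap (10 : Fin 13) 11 := by decide

theorem sw10_lt {c : ℕ} (hc : c < 2 ^ 495) : sw10 c < 2 ^ 495 := by
  have h := enc_sw10 (fam 12 4 c)
  rw [enc_fam (by norm_num) hc] at h
  rw [← h]
  exact enc_lt 12 4 _

theorem fam_sw10 {c : ℕ} (hc : c < 2 ^ 495) :
    mapF (swp 10) (fam 12 4 c) = fam 12 4 (sw10 c) := by
  have h := enc_sw10 (fam 12 4 c)
  rw [enc_fam (by norm_num) hc] at h
  rw [← h, fam_enc (by norm_num)]
  intro s hs
  rw [mem_mapF'] at hs
  have h1 := sub_of_mem_fam (by norm_num) hs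
  refine ⟨mk_lt_iff.2 fun a ha => ?_, ?_⟩
  · have h2 : swp 10 (swp 10 a) = a := by
      rw [swp_ten]
      exact congrFun (congrArg DFunLike.coe (Equiv.swap_mul_self (10 : Fin 13) 11)) a
    have h3 : (swp 10).symm a ∈ mapS (swp 10).symm s := mem_mapS.2 ha
    have h4 := mk_lt_iff.1 h1.1 _ h3
    rw [swp_symm, swp_val (by norm_num)] at h4
    split_ifs at h4 with h5 h6 <;> omega
  · have h2 := h1.2
    rwa [card_mapS] at h2

/-- the exchange of 10 and 11 keeps the frame -/
theorem XVec.swap {B : Finset (Finset (Fin 13))} (h : XVec B 12 Y8) :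
    XVec (mapF (swp 10) B) 12 Y8 := by
  have h1 := h.map (swp 10)
  have h2 : swp 10 12 = 12 := by decide
  have h3 : mapS (swp 10) Y8 = Y8 := by decide
  rwa [h2, h3] at h1

theorem link_swap_twelve (B : Finset (Finset (Fin 13))) :
    link (mapF (swp 10) B) 12 = mapF (swp 10) (link B 12) := by
  have h2 : swp 10 12 = 12 := by decide
  conv_lhs => rw [← h2]
  exact link_mapF _ _ _

theorem link_swap_eleven (B : Finset (Finset (Fin 13))) :
    link (mapF (swp 10) B) 11 = mapF (swp 10) (link B 10) := by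
  have h2 : swp 10 10 = 11 := by decide
  conv_lhs => rw [← h2]
  exact link_mapF _ _ _

/-- codes of sets of points below 10 are not changed -/
theorem enc_swp_ten (k : ℕ) (F : Finset (Finset (Fin 13))) :
    enc 10 k (mapF (swp 10) F) = enc 10 k F := by
  refine Pool.Agent.Helper82.TY.enc_congr (by norm_num) fun s hs => ?_
  rw [mem_mapF']
  have h : mapS (swp 10).symm s = s := by
    refine mapS_eq_self fun a ha => ?_
    have h2 := mk_lt_iff.1 hs.1 a ha
    rw [swp_symm]
    exact swp_fix (by omega) (by omega)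
  rw [h]

/-- lane of 10 in its exchanged frame: lower part -/
theorem lane_low (B : Finset (Finset (Fin 13))) :
    enc 11 4 (link (mapF (swp 10) B) 11) % 2 ^ 210 = enc 10 4 (link B 10) := by
  rw [link_swap_eleven]
  have h := enc_mod 10 3 (mapF (swp 10) (link B 10))
  have h1 : Nat.choose 10 4 = 210 := by decide
  rw [h1] at h
  rw [h, enc_swp_ten]

/-- lane of 10 in its exchanged frame: the upper part is the upper part of the lane of 11 -/
theorem lane_high (B : Finset (Finset (Fin 13))) :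
    enc 11 4 (link (mapF (swp 10) B) 11) >>> 210 = enc 11 4 (link B 11) >>> 210 := by
  have h1 : Nat.choose 10 4 = 210 := by decide
  have h2 := enc_shift 10 3 (link (mapF (swp 10) B) 11)
  have h3 := enc_shift 10 3 (link B 11)
  have e : ((10 : Fin 13) : ℕ) = 10 := rfl
  rw [e, h1] at h2 h3
  rw [h2, h3, link_swap_eleven]
  have h4 : swp 10 11 = 10 := by decide
  have h5 : link (mapF (swp 10) (link B 10)) 10 = mapF (swp 10) (link (link B 10) 11) := by
    conv_lhs => rw [← h4]
    exact link_mapF _ _ _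
  rw [h5, enc_swp_ten, link_comm]

/-- the root made of the three links -/
def rootA (c e1 e2 : ℕ) : ℕ :=
  Nat.lor (Nat.lor (Nat.shiftLeft c 792) (Nat.shiftLeft e1 462))
    (Nat.shiftLeft (Nat.mod e2 (2 ^ 210)) 252)

/-- the blocks which meet `{10, 11, 12}` -/
def rootM : ℕ := (2 ^ 1035 - 1) <<< 252

theorem rootM_eq : rootM = 2 ^ 1287 - 2 ^ 252 := by decide +kernel

theorem fits_rootA (B : Finset (Finset (Fin 13))) {c e1 e2 : ℕ} (hc : enc 12 4 (link B 12) = c)
    (h1 : enc 11 4 (link B 11) = e1) (h2 : e2 % 2 ^ 210 = enc 10 4 (link B 10)) :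
    Fits B (rootA c e1 e2) rootM := by
  have c1 : Nat.choose 12 5 = 792 := by decide
  have c2 : Nat.choose 11 5 = 462 := by decide
  have c3 : Nat.choose 10 5 = 252 := by decide
  have s1 := enc_split 12 4 B
  have s2 := enc_split 11 4 B
  have s3 := enc_split 10 4 B
  have v1 : ((12 : Fin 13) : ℕ) = 12 := rfl
  have v2 : ((11 : Fin 13) : ℕ) = 11 := rfl
  have v3 : ((10 : Fin 13) : ℕ) = 10 := rfl
  rw [v1, c1] at s1
  rw [v2, c2] at s2
  rw [v3, c3] at s3
  have l1 := enc_lt 12 5 B
  have l2 := enc_lt 11 5 B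
  have l3 := enc_lt 10 5 B
  have l4 := enc_lt 12 4 (link B 12)
  rw [c1] at l1
  rw [c2] at l2
  rw [c3] at l3
  have c4 : Nat.choose 12 4 = 495 := by decide
  rw [c4] at l4
  unfold Fits
  refine Nat.eq_of_testBit_eq fun i => ?_
  have hA : rootA c e1 e2 = (c <<< 792 ||| e1 <<< 462) ||| (e2 % 2 ^ 210) <<< 252 := rfl
  have hM : rootM = (2 ^ 1035 - 1) <<< 252 := rfl
  rw [hA, hM, Nat.testBit_and, Nat.testBit_shiftLeft, Nat.testBit_two_pow_sub_one,
    Nat.testBit_or, Nat.testBit_or, Nat.testBit_shiftLeft, Nat.testBit_shiftLeft,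
    Nat.testBit_shiftLeft, h2, ← hc, ← h1]
  have e13 : enc (12 + 1) (4 + 1) B = enc 13 5 B := rfl
  have e12 : enc (11 + 1) (4 + 1) B = enc 12 5 B := rfl
  have e11 : enc (10 + 1) (4 + 1) B = enc 11 5 B := rfl
  rw [e13] at s1
  rw [e12] at s2
  rw [e11] at s3
  have a12 : enc 12 (4 + 1) B = enc 12 5 B := rfl
  have a11 : enc 11 (4 + 1) B = enc 11 5 B := rfl
  have a10 : enc 10 (4 + 1) B = enc 10 5 B := rfl
  rw [a12, Nat.add_comm] at s1
  rw [a11, Nat.add_comm] at s2
  rw [a10, Nat.add_comm] at s3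
  have l5 := enc_lt 11 4 (link B 11)
  have l6 := enc_lt 10 4 (link B 10)
  have c5 : Nat.choose 11 4 = 330 := by decide
  have c6 : Nat.choose 10 4 = 210 := by decide
  rw [c5] at l5
  rw [c6] at l6
  rw [s1, Nat.testBit_two_pow_mul_add _ l1]
  by_cases i1 : i < 792
  · rw [if_pos i1, s2, Nat.testBit_two_pow_mul_add _ l2]
    have n1 : ¬ 792 ≤ i := by omega
    rw [decide_eq_false n1, Bool.false_and, Bool.false_or]
    by_cases i2 : i < 462
    · rw [if_pos i2, s3, Nat.testBit_two_pow_mul_add _ l3]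
      have n2 : ¬ 462 ≤ i := by omega
      rw [decide_eq_false n2, Bool.false_and, Bool.false_or]
      by_cases i3 : i < 252
      · have n3 : ¬ 252 ≤ i := by omega
        rw [decide_eq_false n3, Bool.false_and, Bool.false_and, Bool.and_false]
      · have n3 : 252 ≤ i := by omega
        have n4 : i - 252 < 1035 := by omega
        rw [if_neg i3, decide_eq_true n3, decide_eq_true n4, Bool.true_and, Bool.and_true,
          Bool.true_and]
    · have n2 : 462 ≤ i := by omega
      have n3 : 252 ≤ i := by omega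
      have n4 : i - 252 < 1035 := by omega
      rw [if_neg i2, decide_eq_true n2, decide_eq_true n3, decide_eq_true n4, Bool.true_and,
        Bool.true_and, Bool.true_and, Bool.and_true]
      have t1 : (enc 10 4 (link B 10)).testBit (i - 252) = false :=
        Nat.testBit_eq_false_of_lt (lt_of_lt_of_le l6 (Nat.pow_le_pow_right (by norm_num) (by omega)))
      rw [t1, Bool.or_false]
  · have n1 : 792 ≤ i := by omega
    have n2 : 462 ≤ i := by omega
    have n3 : 252 ≤ i := by omega
    rw [if_neg i1, decide_eq_true n1, decide_eq_true n2, decide_eq_true n3, Bool.true_and,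
      Bool.true_and, Bool.true_and, Bool.true_and]
    have t1 : (enc 10 4 (link B 10)).testBit (i - 252) = false :=
      Nat.testBit_eq_false_of_lt (lt_of_lt_of_le l6 (Nat.pow_le_pow_right (by norm_num) (by omega)))
    have t2 : (enc 11 4 (link B 11)).testBit (i - 462) = false :=
      Nat.testBit_eq_false_of_lt (lt_of_lt_of_le l5 (Nat.pow_le_pow_right (by norm_num) (by omega)))
    rw [t1, t2, Bool.or_false, Bool.or_false]
    by_cases i4 : i - 252 < 1035
    · rw [decide_eq_true i4, Bool.and_true]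
    · rw [decide_eq_false i4, Bool.and_false]
      refine (Nat.testBit_eq_false_of_lt (lt_of_lt_of_le l4
        (Nat.pow_le_pow_right (by norm_num) (by omega)))).symm

/-- a joiner is sound: it proves `RootDead` for all the pairs that agree -/
def JSound (W c : ℕ) (J : List (ℕ × ℕ) → List (ℕ × ℕ) → Bool) : Prop :=
  ∀ L1 L2 : List (ℕ × ℕ), J L1 L2 = true → ∀ p ∈ L1, ∀ i < p.1, ∀ q ∈ L2, ∀ j < q.1,
    fld W p.2 i < 2 ^ 330 → fld W q.2 j < 2 ^ 330 → fld W p.2 i >>> 210 = fld W q.2 j >>> 210 →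
    RootDead (fun B => XVec B 12 Y8) (rootA c (fld W p.2 i) (fld W q.2 j)) rootM

/-- one type of the table with its words and groups -/
structure XT where
  /-- the code of the type -/
  T : ℕ
  /-- the automorphisms -/
  ws : List (ℕ × ℕ)
  /-- the groups -/
  gr : List (ℕ × ℕ × ℕ)

/-- the check of one root code -/
noncomputable def xCode (W : ℕ) (xf : ℕ → ℕ → ℕ → ℕ → ℕ)
    (J : List (ℕ × ℕ) → List (ℕ × ℕ) → Bool) (t1 t2 : XT) (c lv1 v1 lv2 v2 : ℕ) : Bool :=
  xList W xf t1.gr t1.T t1.ws c lv1 v1 fun L1 =>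
    frc (sw10 c) fun c' => xList W xf t2.gr t2.T t2.ws c' lv2 v2 fun L2 => J L1 L2

/-- **one root code is dead** -/
theorem xCode_sound {W : ℕ} (hW : 330 < W) {ok : ℕ → Prop} {xf : ℕ → ℕ → ℕ → ℕ → ℕ}
    (hx : XFSound W ok xf) {t1 t2 : XT} (h1 : XTab W ok t1.T t1.ws t1.gr) (l1 : t1.T < 2 ^ 165)
    (h2 : XTab W ok t2.T t2.ws t2.gr) (l2 : t2.T < 2 ^ 165) {c : ℕ} (hc : c < 2 ^ 495)
    {J : List (ℕ × ℕ) → List (ℕ × ℕ) → Bool} (hJ : JSound W c J) {lv1 v1 lv2 v2 : ℕ}
    (h : xCode W xf J t1 t2 c lv1 v1 lv2 v2 = true) : XDead c := by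
  intro B hX hl
  unfold xCode at h
  obtain ⟨L1, g1, g2⟩ := xList_sound hW h1 l1 hx hc h
  rw [frc_eq] at g1
  obtain ⟨L2, g3, g4⟩ := xList_sound hW h2 l2 hx (sw10_lt hc) g1
  obtain ⟨p, hp, i, hi, e1⟩ := g2 B hX hl
  have hX' := hX.swap
  have hl' : link (mapF (swp 10) B) 12 = fam 12 4 (sw10 c) := by
    rw [link_swap_twelve, hl, fam_sw10 hc]
  obtain ⟨q, hq, j, hj, e2⟩ := g4 _ hX' hl'
  have b1 : fld W p.2 i < 2 ^ 330 := by
    rw [e1]
    exact enc_lt 11 4 _
  have b2 : fld W q.2 j < 2 ^ 330 := by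
    rw [e2]
    exact enc_lt 11 4 _
  have hd := hJ L1 L2 g3 p hp i hi q hq j hj b1 b2 (by rw [e1, e2, lane_high])
  refine hd B hX (fits_rootA B ?_ e1.symm ?_)
  · rw [hl, enc_fam (by norm_num) hc]
  · rw [e2, lane_low]

end Pool.Agent.Helper74.TY
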