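import Pool.Agent.Helper74.TY.XRoot
import Pool.Agent.Helper33.CV.Perm

/-!
MP_8ee768_co, project TH-Y': driver of stage X, part 2. Kernel check of `XNorm`: for every root
representative and every 4-set a permutation into the frame `Y = {8, 9, 10, 11}` (mask 3840).
-/

set_option autoImplicit false

namespace Pool.Agent.Helper74.TY

open Finset
open Pool.Agent.Helper89.CV (OddCover ofMask)
open Pool.Agent.Helper97.CV Pool.Agent.Helper4.CV Pool.Agent.Helper79.CV Pool.Agent.Helper33.CV

/-- one permutation (list of values), for the root code `r` and the 4-set with mask `m` -/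
def xn1 (r : ℕ) (codes : List ℕ) (m : ℕ) (l : List ℕ) : Bool :=
  okPerm l && Nat.beq (l.getD 12 0) 12 && Nat.beq (pmM l m) 3840 &&
    codes.any (fun c => Nat.beq (relab 12 4 l r) c)

/-- all 4-sets of a list of masks -/
def xnL (r : ℕ) (codes : List ℕ) : List ℕ → List (List ℕ) → Bool
  | [], _ => true
  | _ :: _, [] => false
  | m :: ms, l :: ls => xn1 r codes m l && xnL r codes ms ls

theorem ofMask_3840 : ofMask 3840 = Y8 := by decide

theorem xn1_sound {r m : ℕ} {codes : List ℕ} {l : List ℕ} (h : xn1 r codes m l = true)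
    {Y : Finset (Fin 13)} (hY : mk Y = m) : ∃ σ : Equiv.Perm (Fin 13), σ 12 = 12 ∧
    mapS σ Y = Y8 ∧ ∃ c ∈ codes, mapF σ (fam 12 4 r) = fam 12 4 c := by
  unfold xn1 at h
  simp only [Bool.and_eq_true, Nat.beq_eq, List.any_eq_true] at h
  obtain ⟨⟨⟨h1, h2⟩, h3⟩, c, hc, h4⟩ := h
  obtain ⟨σ, rfl⟩ := exists_perm h1
  have h12 : σ 12 = 12 := by
    unfold valL at h2
    rw [List.getD_eq_getElem?_getD, List.getElem?_ofFn, dif_pos (by norm_num)] at h2
    exact Fin.ext h2
  have hK : Keeps 12 σ := by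
    intro a ha
    by_contra h5
    have h6 : σ a = 12 := by
      apply Fin.ext
      have := (σ a).isLt
      have e : (12 : Fin 13).val = 12 := rfl
      omega
    rw [← h12] at h6
    have h7 := σ.injective h6
    rw [h7] at ha
    exact absurd ha (by decide)
  refine ⟨σ, h12, ?_, c, hc, ?_⟩
  · rw [← ofMask_mk (mapS σ Y), mk_mapS, hY, h3, ofMask_3840]
  · rw [← h4, fam_relab (by norm_num) hK]

theorem xnL_sound {r : ℕ} {codes : List ℕ} {ms : List ℕ} {ls : List (List ℕ)}
    (h : xnL r codes ms ls = true) {Y : Finset (Fin 13)} (hY : mk Y ∈ ms) :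
    ∃ σ : Equiv.Perm (Fin 13), σ 12 = 12 ∧
    mapS σ Y = Y8 ∧ ∃ c ∈ codes, mapF σ (fam 12 4 r) = fam 12 4 c := by
  induction ms generalizing ls with
  | nil => exact absurd hY List.not_mem_nil
  | cons m ms ih =>
    cases ls with
    | nil => exact absurd h Bool.false_ne_true
    | cons l ls =>
      unfold xnL at h
      rw [Bool.and_eq_true] at h
      rcases List.mem_cons.1 hY with h1 | h1
      · exact xn1_sound h.1 h1
      · exact ih h.2 h1

/-- one root representative -/
theorem xnorm_one {r : ℕ} {codes : List ℕ} {ls : List (List ℕ)}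
    (h : xnL r codes (L 12 4) ls = true) : XNorm [r] codes := by
  intro r' hr' Y hY h12
  rw [List.mem_singleton] at hr'
  rw [hr']
  refine xnL_sound h ?_
  refine Sub.mem_L (by norm_num) ⟨mk_lt_iff.2 fun a ha => ?_, hY⟩
  have h1 : a ≠ 12 := fun e => h12 (e ▸ ha)
  have h2 := a.isLt
  have h3 : a.val ≠ 12 := fun e => h1 (Fin.ext e)
  omega

theorem XNorm.append {r1 r2 c1 c2 : List ℕ} (h1 : XNorm r1 c1) (h2 : XNorm r2 c2) :
    XNorm (r1 ++ r2) (c1 ++ c2) := by
  intro r hr Y hY h12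
  rcases List.mem_append.1 hr with h | h
  · obtain ⟨σ, a, b, c, hc, d⟩ := h1 r h Y hY h12
    exact ⟨σ, a, b, c, List.mem_append_left _ hc, d⟩
  · obtain ⟨σ, a, b, c, hc, d⟩ := h2 r h Y hY h12
    exact ⟨σ, a, b, c, List.mem_append_right _ hc, d⟩

theorem XNorm.mono {r1 c1 c2 : List ℕ} (h : XNorm r1 c1) (hc : ∀ c ∈ c1, c ∈ c2) :
    XNorm r1 c2 := by
  intro r hr Y hY h12
  obtain ⟨σ, a, b, c, h1, d⟩ := h r hr Y hY h12
  exact ⟨σ, a, b, c, hc c h1, d⟩

end Pool.Agent.Helper74.TY
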