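import Pool.Agent.Helper63.SIMD.Pack

/-!
MP_8ee768_co, project TH-Y': extraction of the alive lanes of a packed list.

`ext W c X κ n Z k a` appends the lanes of `X` (low `c` bits, `c < W`) at the set bits of `Z`
(bits `W * i`) to the packed list `(k, a)`, lowest bit first, and passes the result to `κ`.
No index is computed: the lane under the bit `b` is `(X land b * (2 ^ c - 1)) mod (2 ^ W - 1)`.
-/

set_option autoImplicit false

namespace Pool.Agent.Helper74.TY

open Pool.Agent.Helper63.SIMD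

/-- evaluation of an argument in the kernel -/
def frc (v : ℕ) (f : ℕ → Bool) : Bool := @Nat.rec (fun _ => Bool) (f 0) (fun n _ => f (Nat.succ n)) v

theorem frc_eq (v : ℕ) (f : ℕ → Bool) : frc v f = f v := by cases v <;> rfl

/-- a lane of `X` under the bit `b` -/
def laneAt (c1 m1 X b : ℕ) : ℕ := Nat.mod (Nat.land X (Nat.mul b c1)) m1

/-- the extraction -/
def ext (W c1 m1 X : ℕ) (κ : ℕ → ℕ → Bool) (n : ℕ) : ℕ → ℕ → ℕ → Bool :=
  @Nat.rec (fun _ => ℕ → ℕ → ℕ → Bool) (fun _ _ _ => false)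
    (fun _ ih Z k a => cond (Nat.beq Z 0) (κ k a)
      (frc (Nat.land Z (Nat.sub Z 1)) fun Z' =>
        frc (Nat.lor a (Nat.shiftLeft (laneAt c1 m1 X (Nat.xor Z Z')) (Nat.mul W k))) fun a' =>
          ih Z' (Nat.succ k) a')) n

theorem ext_zero (W c1 m1 X : ℕ) (κ : ℕ → ℕ → Bool) (Z k a : ℕ) :
    ext W c1 m1 X κ 0 Z k a = false := rfl

theorem ext_succ (W c1 m1 X : ℕ) (κ : ℕ → ℕ → Bool) (n Z k a : ℕ) :
    ext W c1 m1 X κ (n + 1) Z k a = cond (Nat.beq Z 0) (κ k a)
      (ext W c1 m1 X κ n (Z &&& (Z - 1)) (k + 1)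
        (a ||| (laneAt c1 m1 X (Z ^^^ (Z &&& (Z - 1)))) <<< (W * k))) := by
  show cond (Nat.beq Z 0) (κ k a) (frc _ fun Z' => frc _ fun a' => _) = _
  rw [frc_eq, frc_eq]
  rfl

/-- the lowest bit -/
theorem lowbit {Z : ℕ} (h : Z ≠ 0) : ∃ t, Z.testBit t = true ∧ Z ^^^ (Z &&& (Z - 1)) = 2 ^ t ∧
    ∀ j, Z.testBit j = true → j ≠ t → (Z &&& (Z - 1)).testBit j = true := by
  obtain ⟨t, m, hZ⟩ : ∃ t m, Z = 2 ^ t * (2 * m + 1) := by
    obtain ⟨t, m, hm, h1⟩ := Nat.exists_eq_two_pow_mul_odd h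
    obtain ⟨m', rfl⟩ := hm
    exact ⟨t, m', h1⟩
  have hpos : 0 < 2 ^ t := Nat.two_pow_pos t
  have e1 : Z = 2 ^ (t + 1) * m + 2 ^ t := by rw [hZ]; ring
  have e2 : Z - 1 = 2 ^ (t + 1) * m + (2 ^ t - 1) := by omega
  have b1 : 2 ^ t < 2 ^ (t + 1) := Nat.pow_lt_pow_right (by norm_num) (by omega)
  have b2 : 2 ^ t - 1 < 2 ^ (t + 1) := by omega
  have hZt : ∀ j, Z.testBit j = if j < t + 1 then decide (t = j) else m.testBit (j - (t + 1)) := by
    intro j
    rw [e1, Nat.testBit_two_pow_mul_add _ b1, Nat.testBit_two_pow]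
  have hZ1 : ∀ j, (Z - 1).testBit j =
      if j < t + 1 then decide (j < t) else m.testBit (j - (t + 1)) := by
    intro j
    rw [e2, Nat.testBit_two_pow_mul_add _ b2, Nat.testBit_two_pow_sub_one]
  refine ⟨t, ?_, ?_, ?_⟩
  · rw [hZt, if_pos (by omega)]
    simp
  · refine Nat.eq_of_testBit_eq fun j => ?_
    rw [Nat.testBit_xor, Nat.testBit_and, Nat.testBit_two_pow, hZt, hZ1]
    by_cases hj : j < t + 1
    · simp only [hj, if_true]
      by_cases h1 : t = j
      · subst h1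
        simp
      · simp [h1]
    · simp only [hj, if_false]
      have h1 : ¬ t = j := by omega
      simp [h1]
  · intro j hj hne
    rw [Nat.testBit_and, hj, Bool.true_and, hZ1]
    rw [hZt] at hj
    by_cases h1 : j < t + 1
    · rw [if_pos h1] at hj ⊢
      exact absurd (of_decide_eq_true hj).symm hne
    · rw [if_neg h1] at hj ⊢
      exact hj

/-- the lane at the bit `W * i` -/
theorem laneAt_eq {W c : ℕ} (hc : c < W) (X i : ℕ) :
    laneAt (2 ^ c - 1) (2 ^ W - 1) X (2 ^ (W * i)) = fld W X i % 2 ^ c := by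
  have h1 : X &&& (2 ^ (W * i) * (2 ^ c - 1)) = (fld W X i % 2 ^ c) * 2 ^ (W * i) := by
    refine Nat.eq_of_testBit_eq fun j => ?_
    rw [Nat.testBit_and, Nat.mul_comm (2 ^ (W * i)), Nat.testBit_mul_two_pow,
      Nat.testBit_mul_two_pow, Nat.testBit_two_pow_sub_one, Nat.testBit_mod_two_pow]
    by_cases hj : W * i ≤ j
    · have e : fld W X i = X / 2 ^ (W * i) % 2 ^ W := rfl
      rw [e, Nat.testBit_mod_two_pow, Nat.testBit_div_two_pow]
      have e2 : j - W * i + W * i = j := by omega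
      rw [e2]
      by_cases h2 : j - W * i < c
      · have h3 : j - W * i < W := by omega
        simp [hj, h2, h3]
      · simp [h2]
    · simp [hj]
  have h2 : fld W X i % 2 ^ c < 2 ^ W - 1 := by
    have h3 := Nat.mod_lt (fld W X i) (Nat.two_pow_pos c)
    have h4 : 2 ^ (c + 1) ≤ 2 ^ W := Nat.pow_le_pow_right (by norm_num) hc
    rw [pow_succ] at h4
    have h5 := Nat.two_pow_pos c
    omega
  have h3 : 2 ^ (W * i) % (2 ^ W - 1) = 1 % (2 ^ W - 1) := by
    rw [pow_mul]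
    have h4 : 2 ^ W % (2 ^ W - 1) = 1 % (2 ^ W - 1) := by
      obtain ⟨m, hm⟩ : ∃ m, 2 ^ W = m + 1 := ⟨2 ^ W - 1, by
        have := Nat.two_pow_pos W
        omega⟩
      rw [hm, Nat.add_sub_cancel, Nat.add_mod_left]
    rw [Nat.pow_mod, h4, ← Nat.pow_mod, one_pow]
  show (X &&& (2 ^ (W * i) * (2 ^ c - 1))) % (2 ^ W - 1) = _
  rw [h1, Nat.mul_mod, h3, ← Nat.mul_mod, mul_one, Nat.mod_eq_of_lt h2]

theorem laneAt_lt {c1 m1 X b : ℕ} (h : 0 < m1) : laneAt c1 m1 X b < m1 := Nat.mod_lt _ h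

theorem fld_append {W k a v : ℕ} (ha : a < 2 ^ (W * k)) (hv : v < 2 ^ W) :
    (a ||| v <<< (W * k)) < 2 ^ (W * (k + 1)) ∧ fld W (a ||| v <<< (W * k)) k = v ∧
      ∀ i < k, fld W (a ||| v <<< (W * k)) i = fld W a i := by
  have e : a ||| v <<< (W * k) = 2 ^ (W * k) * v + a := by
    rw [Nat.lor_comm, Nat.shiftLeft_eq, Nat.mul_comm v, ← Nat.two_pow_add_eq_or_of_lt ha]
  rw [e]
  refine ⟨?_, ?_, ?_⟩
  · rw [Nat.mul_add, mul_one, pow_add]
    calc 2 ^ (W * k) * v + a < 2 ^ (W * k) * v + 2 ^ (W * k) := by omega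
      _ = 2 ^ (W * k) * (v + 1) := by ring
      _ ≤ 2 ^ (W * k) * 2 ^ W := Nat.mul_le_mul_left _ hv
  · unfold fld
    rw [Nat.mul_add_div (Nat.two_pow_pos _), Nat.div_eq_of_lt ha, Nat.add_zero,
      Nat.mod_eq_of_lt hv]
  · intro i hi
    refine Nat.eq_of_testBit_eq fun j => ?_
    unfold fld
    rw [Nat.testBit_mod_two_pow, Nat.testBit_mod_two_pow, Nat.testBit_div_two_pow,
      Nat.testBit_div_two_pow]
    by_cases hj : j < W
    · have h1 : j + W * i < W * k := by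
        have h2 : W * (i + 1) ≤ W * k := Nat.mul_le_mul_left _ hi
        rw [Nat.mul_add, mul_one] at h2
        omega
      rw [Nat.testBit_two_pow_mul_add _ ha, if_pos h1]
    · simp [hj]

/-- **soundness of the extraction**: every lane under a set bit of `Z` is in the result -/
theorem ext_sound {W c : ℕ} (hc : c < W) {X : ℕ} {κ : ℕ → ℕ → Bool} :
    ∀ {n Z k a : ℕ}, a < 2 ^ (W * k) → ext W (2 ^ c - 1) (2 ^ W - 1) X κ n Z k a = true →
      ∃ k' a', a' < 2 ^ (W * k') ∧ κ k' a' = true ∧ k ≤ k' ∧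
        (∀ i < k, fld W a' i = fld W a i) ∧
        ∀ i, Z.testBit (W * i) = true → ∃ j < k', fld W a' j = fld W X i % 2 ^ c := by
  intro n
  induction n with
  | zero =>
    intro Z k a _ h
    rw [ext_zero] at h
    exact Bool.noConfusion h
  | succ n ih =>
    intro Z k a ha h
    rw [ext_succ] at h
    by_cases hZ : Z = 0
    · subst hZ
      refine ⟨k, a, ha, h, le_rfl, fun _ _ => rfl, fun i hi => ?_⟩
      rw [Nat.zero_testBit] at hi
      exact Bool.noConfusion hi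
    · have hb : Nat.beq Z 0 = false := by
        rw [← Bool.not_eq_true]
        intro h1
        exact hZ (Nat.eq_of_beq_eq_true h1)
      rw [hb, cond_false] at h
      obtain ⟨t, h1, h2, h3⟩ := lowbit hZ
      rw [h2] at h
      have hm : 0 < 2 ^ W - 1 := by
        have h4 : 2 ^ 1 ≤ 2 ^ W := Nat.pow_le_pow_right (by norm_num) (by omega)
        omega
      have hl : laneAt (2 ^ c - 1) (2 ^ W - 1) X (2 ^ t) < 2 ^ W :=
        lt_of_lt_of_le (laneAt_lt hm) (Nat.sub_le _ _)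
      obtain ⟨h4, h5, h6⟩ := fld_append (W := W) ha hl
      obtain ⟨k', a', g1, g2, g3, g4, g5⟩ := ih h4 h
      refine ⟨k', a', g1, g2, by omega, fun i hi => ?_, fun i hi => ?_⟩
      · rw [g4 i (by omega), h6 i hi]
      · by_cases hit : W * i = t
        · refine ⟨k, by omega, ?_⟩
          rw [g4 k (by omega), h5, ← hit, laneAt_eq hc]
        · exact g5 i (h3 _ hi hit)

end Pool.Agent.Helper74.TY
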