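import Pool.Agent.Helper74.TY.RuleX
import Pool.Agent.Helper79.CV.Linkage

/-!
MP_8ee768_co, project TH-Y': driver of stage X, part 1. The situation `XVec` is invariant under
relabelling; it is moved to the frame root 12, `Y = {8, 9, 10, 11}`, link of 12 in a list of codes.
-/

set_option autoImplicit false

namespace Pool.Agent.Helper74.TY

open Finset
open Pool.Agent.Helper89.CV (OddCover)
open Pool.Agent.Helper97.CV Pool.Agent.Helper4.CV Pool.Agent.Helper79.CV

theorem mapS_inter (σ : Equiv.Perm (Fin 13)) (s t : Finset (Fin 13)) :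
    mapS σ (s ∩ t) = mapS σ s ∩ mapS σ t := by
  unfold mapS
  exact Finset.map_inter _ _

theorem aa_mapF (σ : Equiv.Perm (Fin 13)) (B : Finset (Finset (Fin 13))) (K : Finset (Fin 13))
    (i : ℕ) : aa (mapF σ B) (mapS σ K) i = aa B K i := by
  unfold aa
  refine sum_bij' (fun q _ => mapS σ.symm q) (fun q _ => mapS σ q) ?_ ?_ ?_ ?_ ?_
  · intro q hq
    rw [mem_filter, mem_quads] at hq ⊢
    refine ⟨by rw [card_mapS]; exact hq.1, ?_⟩
    rw [← hq.2, ← card_mapS σ (mapS σ.symm q ∩ K), mapS_inter, mapS_mapS_symm]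
  · intro q hq
    rw [mem_filter, mem_quads] at hq ⊢
    refine ⟨by rw [card_mapS]; exact hq.1, ?_⟩
    rw [← mapS_inter, card_mapS]
    exact hq.2
  · intro q _
    exact mapS_mapS_symm σ q
  · intro q _
    exact mapS_symm_mapS σ q
  · intro q _
    have h := ex_mapF σ B (mapS σ.symm q)
    rw [mapS_mapS_symm] at h
    exact h

theorem mm_mapF' {B : Finset (Finset (Fin 13))} (hB : OddCover B) (σ : Equiv.Perm (Fin 13))
    {u v : Fin 13} (huv : u ≠ v) : mm (mapF σ B) u v = mm B (σ.symm u) (σ.symm v) := by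
  have h := mm_mapF hB σ (σ.symm.injective.ne huv)
  rwa [Equiv.apply_symm_apply, Equiv.apply_symm_apply] at h

theorem MM_mapF' {B : Finset (Finset (Fin 13))} (hB : OddCover B) (σ : Equiv.Perm (Fin 13))
    (u : Fin 13) : MM (mapF σ B) u = MM B (σ.symm u) := by
  have h := MM_mapF hB σ (σ.symm u)
  rwa [Equiv.apply_symm_apply] at h

theorem XVec.map {B : Finset (Finset (Fin 13))} {x : Fin 13} {Y : Finset (Fin 13)}
    (h : XVec B x Y) (σ : Equiv.Perm (Fin 13)) : XVec (mapF σ B) (σ x) (mapS σ Y) := by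
  have hB := h.odd
  refine ⟨h.best.map σ, ?_, ?_, ?_, ?_, ?_, ?_, ?_⟩
  · intro u v huv hu hv
    rw [MM_mapF' hB] at hu hv
    rw [mm_mapF' hB σ huv]
    exact h.ind _ _ (σ.symm.injective.ne huv) hu hv
  · rw [card_mapS, h.card]
  · rw [mem_mapS]
    exact h.notMem
  · rw [MM_mapF hB]
    exact h.zero
  · intro y hy
    rw [mem_mapS'] at hy
    rw [MM_mapF' hB]
    exact h.six _ hy
  · intro u hu hu'
    rw [MM_mapF' hB]
    refine h.eight _ ?_ ?_
    · rintro rfl
      exact hu (Equiv.apply_symm_apply _ _).symm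
    · intro hu2
      exact hu' (mem_mapS'.2 hu2)
  · rw [← mapS_insert, aa_mapF, aa_mapF, aa_mapF]
    exact h.slack

/-- the frame of the four points with excess 6 -/
def Y8 : Finset (Fin 13) := {8, 9, 10, 11}

/-- the cover in the frame of stage X with root link `fam 12 4 c` -/
def XDead (c : ℕ) : Prop :=
  ∀ B : Finset (Finset (Fin 13)), XVec B 12 Y8 → link B 12 = fam 12 4 c → False

/-- every pair (root representative, 4-set) can be moved to a code of the list -/
def XNorm (reps codes : List ℕ) : Prop :=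
  ∀ r ∈ reps, ∀ Y : Finset (Fin 13), Y.card = 4 → (12 : Fin 13) ∉ Y →
    ∃ σ : Equiv.Perm (Fin 13), σ 12 = 12 ∧ mapS σ Y = Y8 ∧
      ∃ c ∈ codes, mapF σ (fam 12 4 r) = fam 12 4 c

/-- DRIVER OF STAGE X, part 1 -/
theorem stX_of_codes {reps codes : List ℕ} (hR : RootOK 0 (fun _ => True) reps)
    (hn : XNorm reps codes) (hd : ∀ c ∈ codes, XDead c) : StX := by
  intro B hB hI x z w v t hxz hxw hxv hxt hzw hzv hzt hwv hwt hvt hx hz hw hv ht h8 hs
  have h1 : XVec B x {z, w, v, t} := by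
    refine ⟨hB, hI, ?_, ?_, hx, ?_, ?_, hs⟩
    · rw [card_insert_of_notMem, card_insert_of_notMem, card_pair hvt]
      · simp [hwv, hwt]
      · simp [hzw, hzv, hzt]
    · simp [hxz, hxw, hxv, hxt]
    · intro y hy
      simp only [mem_insert, mem_singleton] at hy
      rcases hy with rfl | rfl | rfl | rfl <;> assumption
    · intro u hu huY
      simp only [mem_insert, mem_singleton, not_or] at huY
      exact h8 u hu huY.1 huY.2.1 huY.2.2.1 huY.2.2.2
  obtain ⟨σ, hσ, r, hr, hlink⟩ := root_wlog hB.odd (P := fun _ => True) (fun _ _ _ => trivial) hR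
    (le_of_eq hx) trivial
  have h2 := h1.map σ
  rw [hσ] at h2
  obtain ⟨τ, hτ, hτY, c, hc, hτc⟩ := hn r hr _ h2.card h2.notMem
  have h3 := h2.map τ
  rw [hτ, hτY] at h3
  refine hd c hc _ h3 ?_
  rw [← hτc, ← hlink]
  conv_lhs => rw [← hτ]
  exact link_mapF τ _ _

end Pool.Agent.Helper74.TY
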