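import Pool.Agent.Helper4.CV.Stages

/-!
MP_8ee768_co, project TH-Y': helper62's rule (8) for the vector `(0; 6^4 | 8^8)` of stage X.
For every heavy point `h`: `sum_(y in Y) mm y h = 3`, `mm y h <= 2`, `sum_(h' heavy) mm h h' = 5`,
and the slack of `Y + h` is 2.
-/

set_option autoImplicit false

namespace Pool.Agent.Helper74.TY

open Finset
open Pool.Agent.Helper89.CV (OddCover)
open Pool.Agent.Helper97.CV Pool.Agent.Helper4.CV

/-- slack identity of a set with 4 or 5 points (total 88):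
`2 (a_0 + a_3 + 3 a_4) + 2 S_K = 50 + 3 ww` -/
theorem slack_four_five {B : Finset (Finset (Fin 13))} (hB : OddCover B)
    (h88 : ∑ z, MM B z = 88) {K : Finset (Fin 13)} (hK : K.card = 4 ∨ K.card = 5) :
    2 * (aa B K 0 + aa B K 3 + 3 * aa B K 4) + 2 * ∑ z ∈ K, MM B z = 50 + 3 * ww B K K := by
  have h0 := aa_zero hB K
  have h1 := aa_one hB K
  have h2 := aa_two hB K
  rcases hK with hK | hK <;> rw [hK] at h1 h2 <;> omega

/-- inside a set without edges plus one point -/
theorem ww_insert {B : Finset (Finset (Fin 13))} {Y : Finset (Fin 13)} {h : Fin 13}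
    (hh : h ∉ Y) (h0 : ∀ y ∈ Y, ∀ y' ∈ Y, y ≠ y' → mm B y y' = 0) :
    ww B (insert h Y) (insert h Y) = 2 * ∑ y ∈ Y, mm B y h := by
  unfold ww
  rw [sum_insert hh, erase_insert hh]
  have h1 : ∀ y ∈ Y, ∑ z ∈ (insert h Y).erase y, mm B y z = mm B y h := by
    intro y hy
    have hne : h ≠ y := fun e => hh (e ▸ hy)
    rw [erase_insert_of_ne hne, sum_insert fun e => hh (mem_of_mem_erase e)]
    have h2 : ∑ z ∈ Y.erase y, mm B y z = 0 := sum_eq_zero fun z hz =>
      h0 y hy z (mem_of_mem_erase hz) (ne_of_mem_erase hz).symm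
    rw [h2, add_zero]
  rw [sum_congr rfl h1, two_mul]
  congr 1
  exact sum_congr rfl fun y _ => mm_comm B h y

/-- the situation of stage X -/
structure XVec (B : Finset (Finset (Fin 13))) (x : Fin 13) (Y : Finset (Fin 13)) : Prop where
  best : Pool.Agent.Helper82.TY.Best B
  ind : Ind B
  card : Y.card = 4
  notMem : x ∉ Y
  zero : MM B x = 0
  six : ∀ y ∈ Y, MM B y = 6
  eight : ∀ h, h ≠ x → h ∉ Y → MM B h = 8
  slack : aa B (insert x Y) 0 + aa B (insert x Y) 3 + 3 * aa B (insert x Y) 4 = 1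

namespace XVec

variable {B : Finset (Finset (Fin 13))} {x : Fin 13} {Y : Finset (Fin 13)}

theorem odd (h : XVec B x Y) : OddCover B := h.best.odd

/-- the heavy points -/
theorem card_heavy (h : XVec B x Y) : ((insert x Y)ᶜ : Finset (Fin 13)).card = 8 := by
  rw [card_compl, Fintype.card_fin, card_insert_of_notMem h.notMem, h.card]

theorem sum88 (h : XVec B x Y) : ∑ z, MM B z = 88 := by
  rw [← sum_add_sum_compl (insert x Y), sum_insert h.notMem, h.zero, sum_congr rfl h.six,
    sum_const, h.card]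
  have h1 : ∀ z ∈ ((insert x Y)ᶜ : Finset (Fin 13)), MM B z = 8 := by
    intro z hz
    rw [mem_compl, mem_insert, not_or] at hz
    exact h.eight z hz.1 hz.2
  rw [sum_congr rfl h1, sum_const, h.card_heavy]
  norm_num

theorem mm_zero (h : XVec B x Y) {v : Fin 13} (hv : v ≠ x) : mm B x v = 0 := by
  have h1 := h.zero
  unfold MM at h1
  exact (sum_eq_zero_iff.1 h1) v (by rw [mem_compl, mem_singleton]; exact hv)

theorem mm_six (h : XVec B x Y) {y y' : Fin 13} (hy : y ∈ Y) (hy' : y' ∈ Y) (hne : y ≠ y') :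
    mm B y y' = 0 :=
  h.ind y y' hne (by rw [h.six y hy]) (by rw [h.six y' hy'])

/-- row of a point of `Y` -/
theorem row_six (h : XVec B x Y) {y : Fin 13} (hy : y ∈ Y) :
    ∑ z ∈ (insert x Y)ᶜ, mm B y z = 6 := by
  have h1 := h.six y hy
  unfold MM at h1
  rw [← h1]
  refine sum_subset ?_ ?_
  · intro z hz
    rw [mem_compl, mem_insert, not_or] at hz
    rw [mem_compl, mem_singleton]
    rintro rfl
    exact hz.2 hy
  · intro z hz hz'
    rw [mem_compl, mem_singleton] at hz
    rw [mem_compl, not_not, mem_insert] at hz'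
    rcases hz' with rfl | hz'
    · rw [mm_comm]
      exact h.mm_zero (fun e => h.notMem (e ▸ hy))
    · exact h.mm_six hy hz' (fun e => hz e.symm)

theorem sum_heavy (h : XVec B x Y) : ∑ z ∈ (insert x Y)ᶜ, ∑ y ∈ Y, mm B y z = 24 := by
  rw [sum_comm, sum_congr rfl fun y hy => h.row_six hy, sum_const, h.card]
  norm_num

theorem slack_heavy (h : XVec B x Y) {z : Fin 13} (hz : z ≠ x) (hzY : z ∉ Y) :
    aa B (insert z Y) 0 + aa B (insert z Y) 3 + 3 * aa B (insert z Y) 4 + 7 =
      3 * ∑ y ∈ Y, mm B y z := by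
  have h1 := slack_four_five h.odd h.sum88 (K := insert z Y)
    (Or.inr (by rw [card_insert_of_notMem hzY, h.card]))
  rw [ww_insert hzY fun y hy y' hy' hne => h.mm_six hy hy' hne, sum_insert hzY,
    h.eight z hz hzY, sum_congr rfl h.six, sum_const, h.card] at h1
  simp only [smul_eq_mul] at h1
  omega

/-- (F2) column sums -/
theorem col (h : XVec B x Y) {z : Fin 13} (hz : z ≠ x) (hzY : z ∉ Y) :
    ∑ y ∈ Y, mm B y z = 3 := by
  have hge : ∀ v ∈ ((insert x Y)ᶜ : Finset (Fin 13)), 3 ≤ ∑ y ∈ Y, mm B y v := by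
    intro v hv
    rw [mem_compl, mem_insert, not_or] at hv
    have h1 := h.slack_heavy hv.1 hv.2
    omega
  have hmem : z ∈ ((insert x Y)ᶜ : Finset (Fin 13)) := by
    rw [mem_compl, mem_insert, not_or]
    exact ⟨hz, hzY⟩
  have h2 := h.sum_heavy
  rw [← add_sum_erase _ _ hmem] at h2
  have h3 : ((((insert x Y)ᶜ : Finset (Fin 13)).erase z).card) • 3 ≤
      ∑ v ∈ ((insert x Y)ᶜ : Finset (Fin 13)).erase z, ∑ y ∈ Y, mm B y v :=
    card_nsmul_le_sum _ _ _ fun v hv => hge v (mem_of_mem_erase hv)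
  rw [card_erase_of_mem hmem, h.card_heavy, smul_eq_mul] at h3
  have h4 := hge z hmem
  omega

/-- (F5) slack of `Y + z` -/
theorem slack_two (h : XVec B x Y) {z : Fin 13} (hz : z ≠ x) (hzY : z ∉ Y) :
    aa B (insert z Y) 0 + aa B (insert z Y) 3 + 3 * aa B (insert z Y) 4 = 2 := by
  have h1 := h.slack_heavy hz hzY
  rw [h.col hz hzY] at h1
  omega

/-- (F4) rows inside the heavy points -/
theorem row_heavy (h : XVec B x Y) {z : Fin 13} (hz : z ≠ x) (hzY : z ∉ Y) :
    ∑ v ∈ ((insert x Y)ᶜ : Finset (Fin 13)).erase z, mm B z v = 5 := by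
  have h1 := h.eight z hz hzY
  unfold MM at h1
  have h2 : ({z} : Finset (Fin 13))ᶜ = insert x Y ∪ ((insert x Y)ᶜ : Finset (Fin 13)).erase z := by
    ext v
    rw [mem_compl, mem_singleton, mem_union, mem_erase, mem_compl, mem_insert]
    constructor
    · intro hv
      by_cases h3 : v = x ∨ v ∈ Y
      · exact Or.inl h3
      · exact Or.inr ⟨hv, h3⟩
    · rintro (h3 | h3)
      · rintro rfl
        rcases h3 with h3 | h3
        · exact hz h3
        · exact hzY h3
      · exact h3.1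
  have h4 : Disjoint (insert x Y) (((insert x Y)ᶜ : Finset (Fin 13)).erase z) := by
    rw [disjoint_left]
    intro v hv hv'
    exact (mem_compl.1 (mem_of_mem_erase hv')) hv
  rw [h2, sum_union h4, sum_insert h.notMem] at h1
  have h5 : mm B z x = 0 := by
    rw [mm_comm]
    exact h.mm_zero hz
  have h6 : ∑ v ∈ Y, mm B z v = 3 := by
    rw [← h.col hz hzY]
    exact sum_congr rfl fun v _ => mm_comm B z v
  rw [h5, h6] at h1
  omega

/-- (F3) edges between `Y` and the heavy points -/
theorem mm_le_two (h : XVec B x Y) {y z : Fin 13} (hy : y ∈ Y) (hz : z ≠ x) (hzY : z ∉ Y) :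
    mm B y z ≤ 2 := by
  have hzE : z ∉ Y.erase y := fun e => hzY (mem_of_mem_erase e)
  have hc : (Y.erase y).card = 3 := by rw [card_erase_of_mem hy, h.card]
  have h1 := slack_four_five h.odd h.sum88 (K := insert z (Y.erase y))
    (Or.inl (by rw [card_insert_of_notMem hzE, hc]))
  rw [ww_insert hzE fun a ha b hb hne => h.mm_six (mem_of_mem_erase ha) (mem_of_mem_erase hb) hne,
    sum_insert hzE, h.eight z hz hzY,
    sum_congr rfl fun a ha => h.six a (mem_of_mem_erase ha), sum_const, hc] at h1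
  simp only [smul_eq_mul] at h1
  have h2 := h.col hz hzY
  rw [← add_sum_erase _ _ hy] at h2
  omega

end XVec

end Pool.Agent.Helper74.TY
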