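import Pool.Agent.Helper97.CV.Count

/-!
MP_8ee768_co, project TH-Y': the blocks through a triple, counted through the quads that contain
a point of a set `L` and through the other quads.
-/

set_option autoImplicit false

namespace Pool.Agent.Helper74.TY

open Finset Pool.Agent.Helper89.CV Pool.Agent.Helper97.CV

/-- the quads `v + t` with `v` in `S`, counted through the blocks -/
theorem sum_cnt_insert (B : Finset (Finset (Fin 13))) (t S : Finset (Fin 13)) :
    ∑ v ∈ S, cnt B (insert v t) = ∑ b ∈ B.filter (fun b => t ⊆ b), (b ∩ S).card := by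
  have h1 : ∀ v ∈ S, cnt B (insert v t) =
      ∑ b ∈ B.filter (fun b => t ⊆ b), if v ∈ b then 1 else 0 := by
    intro v _
    unfold cnt
    rw [card_eq_sum_ones, ← sum_filter, filter_filter]
    refine sum_congr ?_ fun _ _ => rfl
    ext b
    simp only [mem_filter, insert_subset_iff]
    tauto
  rw [sum_congr rfl h1, sum_comm]
  refine sum_congr rfl fun b _ => ?_
  rw [← sum_filter, ← card_eq_sum_ones]
  congr 1
  ext v
  simp only [mem_filter, mem_inter]
  tauto

/-- THE TRIPLE IDENTITY. `t` a triple, `L` a set of points outside `t`: the number of blocks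
through `t` with two further points in `L` minus the number of those with no point in `L` is
determined by the bad quads through `t`. For `L` with five points:
`#T + a_0 = #HB + a_1` at `t`. -/
theorem triple_identity {B : Finset (Finset (Fin 13))} (hB : OddCover B)
    {t L : Finset (Fin 13)} (ht : t.card = 3) (hd : Disjoint t L) :
    (B.filter fun b => t ⊆ b ∧ (b ∩ L).card = 2).card + ∑ g ∈ (t ∪ L)ᶜ, ex B (insert g t) + 5 =
      (B.filter fun b => t ⊆ b ∧ (b ∩ L).card = 0).card + ∑ u ∈ L, ex B (insert u t) +
        L.card := by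
  have h1 := sum_cnt_insert B t L
  have h2 := sum_cnt_insert B t (t ∪ L)ᶜ
  have hu : ∀ u ∈ L, cnt B (insert u t) = 1 + 2 * ex B (insert u t) := by
    intro u hu
    refine cnt_quad hB ?_
    rw [card_insert_of_notMem (disjoint_right.1 hd hu), ht]
  have hg : ∀ g ∈ (t ∪ L)ᶜ, cnt B (insert g t) = 1 + 2 * ex B (insert g t) := by
    intro g hg
    refine cnt_quad hB ?_
    rw [mem_compl, mem_union, not_or] at hg
    rw [card_insert_of_notMem hg.1, ht]
  rw [sum_congr rfl hu, sum_add_distrib, ← mul_sum, sum_const, smul_eq_mul, mul_one] at h1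
  rw [sum_congr rfl hg, sum_add_distrib, ← mul_sum, sum_const, smul_eq_mul, mul_one] at h2
  have hc : ((t ∪ L)ᶜ).card + L.card = 10 := by
    have h3 := card_compl13 (rfl : (t ∪ L).card = (t ∪ L).card)
    have h4 := card_union_of_disjoint hd
    have h5 : (t ∪ L).card ≤ 13 := by
      have := card_le_univ (t ∪ L)
      rwa [Fintype.card_fin] at this
    omega
  -- the blocks through `t` split by the number of points in `L`
  have h6 : ∑ b ∈ B.filter (fun b => t ⊆ b), (b ∩ L).card + 2 *
      (B.filter fun b => t ⊆ b ∧ (b ∩ L).card = 0).card =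
      ∑ b ∈ B.filter (fun b => t ⊆ b), (b ∩ (t ∪ L)ᶜ).card + 2 *
      (B.filter fun b => t ⊆ b ∧ (b ∩ L).card = 2).card := by
    have h7 : ∀ p : Finset (Fin 13) → Prop, ∀ _ : DecidablePred p,
        (B.filter fun b => t ⊆ b ∧ p b).card =
        ∑ b ∈ B.filter (fun b => t ⊆ b), if p b then 1 else 0 := by
      intro p _
      rw [card_eq_sum_ones, ← sum_filter, filter_filter]
    rw [h7 (fun b => (b ∩ L).card = 0), h7 (fun b => (b ∩ L).card = 2), mul_sum, mul_sum,
      ← sum_add_distrib, ← sum_add_distrib]
    refine sum_congr rfl fun b hb => ?_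
    rw [mem_filter] at hb
    have h8 : (b ∩ L).card + (b ∩ (t ∪ L)ᶜ).card = 2 := by
      have h9 : b ∩ L ∪ b ∩ (t ∪ L)ᶜ = b \ t := by
        ext v
        simp only [mem_union, mem_inter, mem_compl, mem_sdiff]
        have := fun h : v ∈ L => disjoint_right.1 hd h
        tauto
      have h10 : Disjoint (b ∩ L) (b ∩ (t ∪ L)ᶜ) := by
        rw [disjoint_left]
        intro v hv hv'
        simp only [mem_inter, mem_compl, mem_union] at hv hv'
        tauto
      rw [← card_union_of_disjoint h10, h9, card_sdiff_of_subset hb.2, hB.1 b hb.1, ht]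
    split_ifs <;> omega
  omega

end Pool.Agent.Helper74.TY
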