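import Pool.Agent.Helper74.TY.XFlag

/-!
MP_8ee768_co, project TH-Y': stage X, certificates against `RX` and the check of the classes.
-/

set_option autoImplicit false
set_option maxRecDepth 100000

namespace Pool.Agent.Helper74.TY

open Finset
open Pool.Agent.Helper89.CV (OddCover ofMask)
open Pool.Agent.Helper97.CV
open Pool.Agent.Helper79.CV
open Pool.Agent.Helper33.CV
open Pool.Agent.Helper63.SIMD
open Pool.Agent.Helper91.TY
open Pool.Agent.Helper16.TY
open Pool.Agent.Helper82.TY (pop popR popc force supM force_eq popR_eq_pop cnt_eq_pop below bits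
  testBit_bits card_eq_pop)

/-! ## ranks of quads -/

/-- `b (b - 1) / 2` -/
def k2 (b : ℕ) : ℕ := Nat.land (Nat.shiftRight 0x372d241c150f0a0603010000 (Nat.mul 8 b)) 255
/-- `c (c - 1) (c - 2) / 6` -/
def k3 (c : ℕ) : ℕ := Nat.land (Nat.shiftRight 0xa578543823140a0401000000 (Nat.mul 8 c)) 255
/-- `d (d - 1) (d - 2) (d - 3) / 24` -/
def k4 (d : ℕ) : ℕ :=
  Nat.land (Nat.shiftRight 0x14a0d207e04602300f005001000000000000 (Nat.mul 12 d)) 4095

/-- rank of the quad `a < b < c < d` -/
def r4 (a b c d : ℕ) : ℕ := Nat.add (k4 d) (Nat.add (k3 c) (Nat.add (k2 b) a))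

/-- all ranks are right -/
def chkR4 : Bool := (List.range 12).all fun d => (List.range d).all fun c =>
  (List.range c).all fun b => (List.range b).all fun a =>
    decide ((L 12 4)[r4 a b c d]? = some (2 ^ a ||| (2 ^ b ||| (2 ^ c ||| 2 ^ d))))

theorem chkR4_ok : chkR4 = true := by decide +kernel

theorem mk_four (a b c d : Fin 13) : Pool.Agent.Helper79.CV.mk {a, b, c, d} =
    2 ^ a.val ||| (2 ^ b.val ||| (2 ^ c.val ||| 2 ^ d.val)) := by
  refine Nat.eq_of_testBit_eq fun i => ?_
  rw [Nat.testBit_or, Nat.testBit_or, Nat.testBit_or, Nat.testBit_two_pow, Nat.testBit_two_pow,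
    Nat.testBit_two_pow, Nat.testBit_two_pow]
  by_cases hi : i < 13
  · have h := testBit_mk {a, b, c, d} ⟨i, hi⟩
    simp only at h
    rw [h, Bool.eq_iff_iff]
    simp only [mem_insert, mem_singleton, decide_eq_true_eq, Bool.or_eq_true, Fin.ext_iff]
    constructor
    · rintro (h | h | h | h)
      · exact Or.inl h.symm
      · exact Or.inr (Or.inl h.symm)
      · exact Or.inr (Or.inr (Or.inl h.symm))
      · exact Or.inr (Or.inr (Or.inr h.symm))
    · rintro (h | h | h | h)
      · exact Or.inl h.symm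
      · exact Or.inr (Or.inl h.symm)
      · exact Or.inr (Or.inr (Or.inl h.symm))
      · exact Or.inr (Or.inr (Or.inr h.symm))
  · have ha := a.isLt
    have hb := b.isLt
    have hc := c.isLt
    have hd := d.isLt
    rw [testBit_mk_ge _ (by omega), decide_eq_false (show ¬ a.val = i by omega),
      decide_eq_false (show ¬ b.val = i by omega), decide_eq_false (show ¬ c.val = i by omega),
      decide_eq_false (show ¬ d.val = i by omega)]
    rfl

/-- the bit of a quad -/
theorem bit_r4 {D : Finset (Finset (Fin 13))} {a b c d : Fin 13} (hab : a < b) (hbc : b < c)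
    (hcd : c < d) (hd : d.val < 12) :
    (enc 12 4 D).testBit (r4 a b c d) = decide (({a, b, c, d} : Finset (Fin 13)) ∈ D) := by
  have h := chkR4_ok
  unfold chkR4 at h
  have h1 := List.all_eq_true.1 h d.val (List.mem_range.2 hd)
  have h2 := List.all_eq_true.1 h1 c.val (List.mem_range.2 hcd)
  have h3 := List.all_eq_true.1 h2 b.val (List.mem_range.2 hbc)
  have h4 := List.all_eq_true.1 h3 a.val (List.mem_range.2 hab)
  rw [decide_eq_true_eq] at h4
  obtain ⟨h5, h6⟩ := List.getElem?_eq_some_iff.1 h4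
  rw [testBit_enc _ h5, h6, ← mk_four, ofMask_mk]

/-! ## certificates -/

/-- number of true values -/
def cnt5 (a b c d e : Bool) : ℕ := a.toNat + (b.toNat + (c.toNat + (d.toNat + e.toNat)))

theorem three_of_cnt5 {D : Finset (Finset (Fin 13))} {a b c d e : Fin 13} (hab : a < b)
    (hbc : b < c) (hcd : c < d) (hde : d < e) {V : Finset (Fin 13)} (hV : V = {a, b, c, d, e})
    (h : 3 ≤ cnt5 (decide (V.erase a ∈ D)) (decide (V.erase b ∈ D)) (decide (V.erase c ∈ D))
      (decide (V.erase d ∈ D)) (decide (V.erase e ∈ D))) :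
    3 ≤ (D ∩ V.powersetCard 4).card ∧ V.card = 5 := by
  have ha' : a ∉ ({b, c, d, e} : Finset (Fin 13)) := by
    simp only [mem_insert, mem_singleton, Fin.ext_iff]
    omega
  have hb' : b ∉ ({c, d, e} : Finset (Fin 13)) := by
    simp only [mem_insert, mem_singleton, Fin.ext_iff]
    omega
  have hc' : c ∉ ({d, e} : Finset (Fin 13)) := by
    simp only [mem_insert, mem_singleton, Fin.ext_iff]
    omega
  have hd' : d ∉ ({e} : Finset (Fin 13)) := by
    simp only [mem_singleton, Fin.ext_iff]
    omega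
  have h5 : V.card = 5 := by
    rw [hV, card_insert_of_notMem ha', card_insert_of_notMem hb', card_insert_of_notMem hc',
      card_insert_of_notMem hd', card_singleton]
  refine ⟨?_, h5⟩
  have hS : (V.filter fun x => V.erase x ∈ D).card = cnt5 (decide (V.erase a ∈ D))
      (decide (V.erase b ∈ D)) (decide (V.erase c ∈ D)) (decide (V.erase d ∈ D))
      (decide (V.erase e ∈ D)) := by
    rw [card_filter]
    have h6 : ∀ f : Fin 13 → ℕ, ∑ x ∈ V, f x = f a + (f b + (f c + (f d + f e))) := by
      intro f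
      rw [hV, sum_insert ha', sum_insert hb', sum_insert hc', sum_insert hd', sum_singleton]
    rw [h6]
    unfold cnt5
    have h7 : ∀ x, (if V.erase x ∈ D then 1 else 0) = (decide (V.erase x ∈ D)).toNat := by
      intro x
      by_cases hx : V.erase x ∈ D
      · rw [if_pos hx, decide_eq_true hx]
        rfl
      · rw [if_neg hx, decide_eq_false hx]
        rfl
    rw [h7, h7, h7, h7, h7]
  have hI : ((V.filter fun x => V.erase x ∈ D).image fun x => V.erase x) ⊆
      D ∩ V.powersetCard 4 := by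
    intro s hs
    rw [mem_image] at hs
    obtain ⟨x, hx, rfl⟩ := hs
    rw [mem_filter] at hx
    rw [mem_inter, mem_powersetCard, card_erase_of_mem hx.1, h5]
    exact ⟨hx.2, erase_subset _ _, rfl⟩
  have hJ : ((V.filter fun x => V.erase x ∈ D).image fun x => V.erase x).card =
      (V.filter fun x => V.erase x ∈ D).card := by
    refine card_image_of_injOn ?_
    intro x hx y hy hxy
    exact erase_injOn V (mem_of_mem_filter _ (mem_coe.1 hx)) (mem_of_mem_filter _ (mem_coe.1 hy)) hxy
  calc 3 ≤ _ := h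
    _ = _ := hS.symm
    _ = _ := hJ.symm
    _ ≤ _ := card_le_card hI

/-- the certificate `c` (point and five points, four bits each) violates `RX` for the code `R` -/
def badR (R c : ℕ) : Bool :=
  force (Nat.land (Nat.shiftRight c 4) 15) fun a => force (Nat.land (Nat.shiftRight c 8) 15) fun b =>
  force (Nat.land (Nat.shiftRight c 12) 15) fun x => force (Nat.land (Nat.shiftRight c 16) 15) fun d =>
  force (Nat.land (Nat.shiftRight c 20) 15) fun e =>
    Nat.blt a b && (Nat.blt b x && (Nat.blt x d && (Nat.blt d e && (Nat.blt e 12 &&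
      badT (Nat.land c 15) a b x d e (Nat.testBit R (r4 b x d e)) (Nat.testBit R (r4 a x d e))
        (Nat.testBit R (r4 a b d e)) (Nat.testBit R (r4 a b x e)) (Nat.testBit R (r4 a b x d))))))
where
  badT (p a b x d e : ℕ) (ta tb tx td te : Bool) : Bool :=
    Nat.ble 3 (cnt5 ta tb tx td te) && !(Nat.beq p a && ta || Nat.beq p b && tb ||
      Nat.beq p x && tx || Nat.beq p d && td || Nat.beq p e && te)

theorem not_rx_of_badR {D : Finset (Finset (Fin 13))} {c : ℕ}
    (h : badR (enc 12 4 D) c = true) {p : Fin 13} (hp : p.val = Nat.land c 15) : ¬ RX D p := by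
  unfold badR at h
  rw [force_eq, force_eq, force_eq, force_eq, force_eq, Bool.and_eq_true, Bool.and_eq_true,
    Bool.and_eq_true, Bool.and_eq_true, Bool.and_eq_true, Nat.blt_eq, Nat.blt_eq, Nat.blt_eq,
    Nat.blt_eq, Nat.blt_eq] at h
  set a' := Nat.land (Nat.shiftRight c 4) 15
  set b' := Nat.land (Nat.shiftRight c 8) 15
  set x' := Nat.land (Nat.shiftRight c 12) 15
  set d' := Nat.land (Nat.shiftRight c 16) 15
  set e' := Nat.land (Nat.shiftRight c 20) 15
  obtain ⟨hab, hbx, hxd, hde, he, h⟩ := h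
  obtain ⟨a, ha⟩ : ∃ a : Fin 13, a.val = a' := ⟨⟨a', by omega⟩, rfl⟩
  obtain ⟨b, hb⟩ : ∃ b : Fin 13, b.val = b' := ⟨⟨b', by omega⟩, rfl⟩
  obtain ⟨x, hx⟩ : ∃ x : Fin 13, x.val = x' := ⟨⟨x', by omega⟩, rfl⟩
  obtain ⟨d, hd⟩ : ∃ d : Fin 13, d.val = d' := ⟨⟨d', by omega⟩, rfl⟩
  obtain ⟨e, hee⟩ : ∃ e : Fin 13, e.val = e' := ⟨⟨e', by omega⟩, rfl⟩
  rw [← ha, ← hb] at hab
  rw [← hb, ← hx] at hbx
  rw [← hx, ← hd] at hxd
  rw [← hd, ← hee] at hde
  rw [← hee] at he
  have hab' : a < b := hab
  have hbx' : b < x := hbx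
  have hxd' : x < d := hxd
  have hde' : d < e := hde
  rw [← ha, ← hb, ← hx, ← hd, ← hee, bit_r4 hbx' hxd' hde' he,
    bit_r4 (lt_trans hab' hbx') hxd' hde' he, bit_r4 hab' (lt_trans hbx' hxd') hde' he,
    bit_r4 hab' hbx' (lt_trans hxd' hde') he, bit_r4 hab' hbx' hxd' (lt_trans hde he)] at h
  obtain ⟨V, hV⟩ : ∃ V : Finset (Fin 13), V = {a, b, x, d, e} := ⟨_, rfl⟩
  have ea : ({b, x, d, e} : Finset (Fin 13)) = V.erase a := by
    rw [hV]
    ext y
    simp only [mem_erase, mem_insert, mem_singleton, Fin.ext_iff, ne_eq]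
    omega
  have eb : ({a, x, d, e} : Finset (Fin 13)) = V.erase b := by
    rw [hV]
    ext y
    simp only [mem_erase, mem_insert, mem_singleton, Fin.ext_iff, ne_eq]
    omega
  have ex : ({a, b, d, e} : Finset (Fin 13)) = V.erase x := by
    rw [hV]
    ext y
    simp only [mem_erase, mem_insert, mem_singleton, Fin.ext_iff, ne_eq]
    omega
  have ed : ({a, b, x, e} : Finset (Fin 13)) = V.erase d := by
    rw [hV]
    ext y
    simp only [mem_erase, mem_insert, mem_singleton, Fin.ext_iff, ne_eq]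
    omega
  have ee : ({a, b, x, d} : Finset (Fin 13)) = V.erase e := by
    rw [hV]
    ext y
    simp only [mem_erase, mem_insert, mem_singleton, Fin.ext_iff, ne_eq]
    omega
  rw [ea, eb, ex, ed, ee] at h
  unfold badR.badT at h
  rw [Bool.and_eq_true, Nat.ble_eq] at h
  obtain ⟨h3, h4⟩ := h
  obtain ⟨h5, h6⟩ := three_of_cnt5 hab' hbx' hxd' hde' hV h3
  intro hR
  obtain ⟨h7, h8⟩ := hR V (by
    intro y hy
    rw [hV] at hy
    simp only [mem_insert, mem_singleton] at hy
    rw [Pool.Agent.Helper79.CV.mem_below]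
    rcases hy with rfl | rfl | rfl | rfl | rfl
    · exact lt_trans hab (lt_trans hbx (lt_trans hxd (lt_trans hde he)))
    · exact lt_trans hbx (lt_trans hxd (lt_trans hde he))
    · exact lt_trans hxd (lt_trans hde he)
    · exact lt_trans hde he
    · exact he) h6 h5
  rw [Bool.not_eq_true', Bool.or_eq_false_iff, Bool.or_eq_false_iff, Bool.or_eq_false_iff,
    Bool.or_eq_false_iff] at h4
  obtain ⟨⟨⟨⟨g1, g2⟩, g3⟩, g4⟩, g5⟩ := h4
  rw [← hp] at g1 g2 g3 g4 g5
  rw [hV] at h7
  simp only [mem_insert, mem_singleton] at h7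
  have hbeq : ∀ n : ℕ, Nat.beq n n = true := fun n => Nat.beq_refl n
  rcases h7 with rfl | rfl | rfl | rfl | rfl
  · rw [hbeq, decide_eq_true h8] at g1
    exact Bool.noConfusion g1
  · rw [hbeq, decide_eq_true h8] at g2
    exact Bool.noConfusion g2
  · rw [hbeq, decide_eq_true h8] at g3
    exact Bool.noConfusion g3
  · rw [hbeq, decide_eq_true h8] at g4
    exact Bool.noConfusion g4
  · rw [hbeq, decide_eq_true h8] at g5
    exact Bool.noConfusion g5

/-! ## classes -/

/-- the twelve points -/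
def pts12 : List ℕ := [0, 1, 2, 3, 4, 5, 6, 7, 8, 9, 10, 11]

/-- the check of the class `j` with records `rs` and certificates `vs` -/
noncomputable def clsX (rs vs : List ℕ) (j : ℕ) : Bool :=
  force (Tab.tv j) fun v => force (Nat.mod v (2 ^ 495)) fun R =>
    cond (Nat.beq (popR R) 60)
      (pts12.all fun p => cond (Nat.testBit v (Nat.add 495 p))
        (rs.any (fun r => Nat.beq (xP r) p) ||
          vs.any (fun c => Nat.beq (Nat.land c 15) p && badR R c)) true) true

theorem clsX_sound {rs vs : List ℕ} {j : ℕ} (h : clsX rs vs j = true)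
    (hc : (fam 12 4 (Tab.rp j)).card = 60) {p : Fin 13} (hp : p ≠ 12)
    (hz : (link (fam 12 4 (Tab.rp j)) p).card = 19) (hR : RX (fam 12 4 (Tab.rp j)) p) :
    ∃ r ∈ rs, xP r = p.val := by
  obtain ⟨d1, d2⟩ := tv_eq j
  unfold clsX at h
  rw [force_eq, force_eq] at h
  have e1 : Nat.mod (Tab.tv j) (2 ^ 495) = Tab.rp j := rfl
  rw [e1] at h
  have e2 : popR (Tab.rp j) = 60 := by
    rw [popR_eq_pop, ← hc, card_eq_pop (n := 12) (k := 4) (by norm_num)
      (fun s hs => sub_of_mem_fam (by norm_num) hs), enc_fam (by norm_num) (by exact d1)]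
  have e3 : Nat.beq (popR (Tab.rp j)) 60 = true := by
    rw [e2]
    rfl
  rw [e3, cond_true, List.all_eq_true] at h
  have hp' : p.val < 12 := by
    have h1 : p.val ≠ 12 := fun h1 => hp (Fin.ext h1)
    have := p.isLt
    omega
  have h1 := h p.val (by
    unfold pts12
    simp only [List.mem_cons, List.not_mem_nil, or_false]
    omega)
  have e4 : Nat.testBit (Tab.tv j) (Nat.add 495 p.val) = true := by
    show (Tab.tv j).testBit (495 + p.val) = true
    rw [d2, testBit_code_zs _ hp', decide_eq_true_eq]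
    exact hz
  rw [e4, cond_true, Bool.or_eq_true, List.any_eq_true, List.any_eq_true] at h1
  rcases h1 with ⟨r, hr, h2⟩ | ⟨c, -, h2⟩
  · exact ⟨r, hr, Nat.eq_of_beq_eq_true h2⟩
  · exfalso
    rw [Bool.and_eq_true, Nat.beq_eq] at h2
    have h3 : enc 12 4 (fam 12 4 (Tab.rp j)) = Tab.rp j := enc_fam (by norm_num) (by exact d1)
    rw [← h3] at h2
    rw [h3] at h2
    refine not_rx_of_badR (D := fam 12 4 (Tab.rp j)) (c := c) ?_ h2.1.symm hR
    rw [h3]
    exact h2.2

/-- the check of consecutive classes -/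
noncomputable def clsL (cs : List (List ℕ × List ℕ)) : ℕ → Bool :=
  List.rec (motive := fun _ => ℕ → Bool) (fun _ => true)
    (fun x _ ih j => force j fun j' => clsX x.1 x.2 j' && ih (Nat.succ j')) cs

/-- the records of consecutive classes -/
noncomputable def recsX (cs : List (List ℕ × List ℕ)) : ℕ → List (ℕ × ℕ) :=
  List.rec (motive := fun _ => ℕ → List (ℕ × ℕ)) (fun _ => [])
    (fun x _ ih j => force j fun j' => x.1.map (fun r => (j', r)) ++ ih (Nat.succ j')) cs

/-- the check of a chunk of classes -/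
noncomputable def chunkX (tA tB : GT) (N j : ℕ) (cs : List (List ℕ × List ℕ)) : Bool :=
  clsL cs j && recX tA tB N (recsX cs j)

/-- the classes `lo <= j < hi` are done -/
def ClsR (tA tB : GT) (lo hi : ℕ) : Prop :=
  ∀ j, lo ≤ j → j < hi → FlagOK tA tB (fam 12 4 (Tab.rp j))

theorem clsR_trans {tA tB : GT} {a b c : ℕ} (h1 : ClsR tA tB a b) (h2 : ClsR tA tB b c) :
    ClsR tA tB a c := fun j ha hc => by
  by_cases hb : j < b
  · exact h1 j ha hb
  · exact h2 j (by omega) hc

theorem clsL_get {cs : List (List ℕ × List ℕ)} {j : ℕ} (h : clsL cs j = true) :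
    ∀ k (hk : k < cs.length), clsX (cs[k]).1 (cs[k]).2 (j + k) = true ∧
      ∀ r ∈ (cs[k]).1, (j + k, r) ∈ recsX cs j := by
  induction cs generalizing j with
  | nil => exact fun k hk => absurd hk (by simp)
  | cons x cs ih =>
    have h' : (force j fun j' => clsX x.1 x.2 j' && clsL cs (Nat.succ j')) = true := h
    rw [force_eq, Bool.and_eq_true] at h'
    have e : recsX (x :: cs) j = x.1.map (fun r => (j, r)) ++ recsX cs (Nat.succ j) := by
      have e1 : recsX (x :: cs) j =
        force j fun j' => x.1.map (fun r => (j', r)) ++ recsX cs (Nat.succ j') := rfl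
      rw [e1, force_eq]
    intro k hk
    cases k with
    | zero =>
      refine ⟨h'.1, fun r hr => ?_⟩
      rw [e]
      exact List.mem_append_left _ (List.mem_map.2 ⟨r, hr, rfl⟩)
    | succ k =>
      have hk' : k < cs.length := by
        rw [List.length_cons] at hk
        omega
      obtain ⟨h1, h2⟩ := ih h'.2 k hk'
      have e2 : Nat.succ j + k = j + (k + 1) := by omega
      rw [e2] at h1 h2
      refine ⟨h1, fun r hr => ?_⟩
      rw [e]
      exact List.mem_append_right _ (h2 r hr)

/-- **soundness of a chunk** -/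
theorem chunkX_sound {tA tB : GT} (hA : tA.All GOK) (hB : tB.All GOK) {N lo hi : ℕ}
    {cs : List (List ℕ × List ℕ)} (hl : cs.length = hi - lo) (h : chunkX tA tB N lo cs = true) :
    ClsR tA tB lo hi := by
  unfold chunkX at h
  rw [Bool.and_eq_true] at h
  intro j h1 h2 hc p hp hz hR
  obtain ⟨k, rfl⟩ : ∃ k, j = lo + k := ⟨j - lo, by omega⟩
  obtain ⟨h3, h4⟩ := clsL_get h.1 k (by omega)
  obtain ⟨r, hr, h5⟩ := clsX_sound h3 hc hp hz hR
  obtain ⟨q, hq, ψ, h6, h7, h8⟩ := recX_sound hA hB h.2 _ (h4 r hr)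
  have hqp : q = p := Fin.ext (by rw [hq, ← h5])
  subst hqp
  exact ⟨ψ, h6, h7, h8⟩

end Pool.Agent.Helper74.TY
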