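import Pool.Agent.Helper74.TY.XWord
import Pool.Agent.Helper67.TY.Root

/-!
MP_8ee768_co, project TH-Y': the isomorphisms between the two near Steiner systems `repA`, `repB`
(search in the kernel): `isoAA`, `isoBB` (every automorphism is a word of the list), `isoAB`,
`isoBA` (none).
-/

set_option autoImplicit false
set_option maxRecDepth 100000

namespace Pool.Agent.Helper74.TY

open Finset
open Pool.Agent.Helper89.CV (OddCover ofMask)
open Pool.Agent.Helper97.CV
open Pool.Agent.Helper79.CV
open Pool.Agent.Helper91.TY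
open Pool.Agent.Helper67.TY (repA repB)

/-- membership of a triple as a bit indexed by its mask -/
def IsTM (T M : ℕ) : Prop :=
  ∀ s : Finset (Fin 13), Sub 11 3 s → (M.testBit (mk s) = true ↔ s ∈ fam 11 3 T)

/-- check of the mask form -/
def tmChk (T M : ℕ) : Bool :=
  (List.range 165).all fun i => Nat.testBit M ((L 11 3).getD i 0) == Nat.testBit T i

theorem isTM_of_chk {T M : ℕ} (h : tmChk T M = true) : IsTM T M := by
  intro s hs
  have h1 := rk_lt (by norm_num) hs
  have h2 : rk 11 3 s < 165 := by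
    rw [length_L] at h1
    exact h1
  unfold tmChk at h
  rw [List.all_eq_true] at h
  have h3 := h _ (List.mem_range.2 h2)
  rw [beq_iff_eq] at h3
  have h4 : (L 11 3).getD (rk 11 3 s) 0 = mk s := by
    rw [List.getD_eq_getElem _ _ h1]
    exact getElem_rk (by norm_num) hs
  rw [h4] at h3
  rw [h3, mem_fam_iff (by norm_num)]
  exact ⟨fun h5 => ⟨hs, h5⟩, fun h5 => h5.2⟩

/-- the triples `{x, y, ·}` with the earlier points -/
def inn (MA MB m m' : ℕ) (l : List ℕ) : ℕ → Bool :=
  @List.rec ℕ (fun _ => ℕ → Bool) (fun _ => true)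
    (fun y _ ih n => cond (Nat.testBit MA (Nat.add m (Nat.pow 2 (Nat.sub n 1))) ==
      Nat.testBit MB (Nat.add m' (Nat.pow 2 y))) (ih (Nat.sub n 1)) false) l

/-- all the triples with largest point `k` -/
def prs (MA MB k v : ℕ) (l : List ℕ) : ℕ → Bool :=
  @List.rec ℕ (fun _ => ℕ → Bool) (fun _ => true)
    (fun x l ih n => cond (inn MA MB (Nat.add (Nat.pow 2 k) (Nat.pow 2 (Nat.sub n 1)))
      (Nat.add (Nat.pow 2 v) (Nat.pow 2 x)) l (Nat.sub n 1)) (ih (Nat.sub n 1)) false) l

/-- the value is in the list -/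
def isIn (v : ℕ) (l : List ℕ) : Bool := @List.rec ℕ (fun _ => Bool) false
  (fun x _ ih => cond (Nat.beq x v) true ih) l

/-- the search -/
def dfs (MA MB : ℕ) (leaf : List ℕ → Bool) (f : ℕ) : ℕ → List ℕ → Bool :=
  @Nat.rec (fun _ => ℕ → List ℕ → Bool) (fun _ l => leaf l)
    (fun _ ih k l => (List.range 11).all fun v =>
      cond (isIn v l) true (cond (prs MA MB k v l k) (ih (Nat.succ k) (v :: l)) true)) f

/-- images of `n-1, .., 0` -/
def imgs (ρ : ℕ → ℕ) : ℕ → List ℕ
  | 0 => []
  | n + 1 => ρ n :: imgs ρ n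

/-- the maps which respect the triples -/
def Resp (MA MB : ℕ) (ρ : ℕ → ℕ) : Prop :=
  (∀ a < 11, ρ a < 11) ∧ (∀ a < 11, ∀ b < 11, a ≠ b → ρ a ≠ ρ b) ∧
    ∀ a b c, a < b → b < c → c < 11 →
      Nat.testBit MA (2 ^ c + 2 ^ b + 2 ^ a) = Nat.testBit MB (2 ^ ρ c + 2 ^ ρ b + 2 ^ ρ a)

theorem inn_imgs {MA MB : ℕ} {ρ : ℕ → ℕ} (h : Resp MA MB ρ) {b c : ℕ} (hbc : b < c) (hc : c < 11)
    {n : ℕ} (hn : n ≤ b) : inn MA MB (2 ^ c + 2 ^ b) (2 ^ ρ c + 2 ^ ρ b) (imgs ρ n) n = true := by
  induction n with
  | zero => rfl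
  | succ n ih =>
    have e : inn MA MB (2 ^ c + 2 ^ b) (2 ^ ρ c + 2 ^ ρ b) (imgs ρ (n + 1)) (n + 1) =
      cond (Nat.testBit MA (2 ^ c + 2 ^ b + 2 ^ n) == Nat.testBit MB (2 ^ ρ c + 2 ^ ρ b + 2 ^ ρ n))
        (inn MA MB (2 ^ c + 2 ^ b) (2 ^ ρ c + 2 ^ ρ b) (imgs ρ n) n) false := rfl
    rw [e, h.2.2 n b c (by omega) hbc hc, beq_self_eq_true, cond_true, ih (by omega)]

theorem prs_imgs {MA MB : ℕ} {ρ : ℕ → ℕ} (h : Resp MA MB ρ) {c : ℕ} (hc : c < 11)
    {n : ℕ} (hn : n ≤ c) : prs MA MB c (ρ c) (imgs ρ n) n = true := by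
  induction n with
  | zero => rfl
  | succ n ih =>
    have e : prs MA MB c (ρ c) (imgs ρ (n + 1)) (n + 1) =
      cond (inn MA MB (2 ^ c + 2 ^ n) (2 ^ ρ c + 2 ^ ρ n) (imgs ρ n) n)
        (prs MA MB c (ρ c) (imgs ρ n) n) false := rfl
    rw [e, inn_imgs h (by omega) hc le_rfl, cond_true, ih (by omega)]

theorem mem_of_isIn {v : ℕ} {l : List ℕ} (h : isIn v l = true) : v ∈ l := by
  induction l with
  | nil => exact Bool.noConfusion h
  | cons x l ih =>
    have h' : cond (Nat.beq x v) true (isIn v l) = true := h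
    by_cases hx : Nat.beq x v = true
    · rw [← Nat.eq_of_beq_eq_true hx]
      exact List.mem_cons_self
    · rw [Bool.not_eq_true] at hx
      rw [hx, cond_false] at h'
      exact List.mem_cons_of_mem _ (ih h')

theorem mem_imgs {ρ : ℕ → ℕ} {n v : ℕ} : v ∈ imgs ρ n ↔ ∃ a < n, ρ a = v := by
  induction n with
  | zero => simp [imgs]
  | succ n ih =>
    show v ∈ ρ n :: imgs ρ n ↔ _
    rw [List.mem_cons, ih]
    constructor
    · rintro (h | ⟨a, h1, h2⟩)
      · exact ⟨n, by omega, h.symm⟩
      · exact ⟨a, by omega, h2⟩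
    · rintro ⟨a, h1, h2⟩
      by_cases h3 : a = n
      · subst h3
        exact Or.inl h2.symm
      · exact Or.inr ⟨a, by omega, h2⟩

theorem dfs_sound {MA MB : ℕ} {leaf : List ℕ → Bool} {ρ : ℕ → ℕ} (hρ : Resp MA MB ρ) {f k : ℕ}
    (hk : k + f = 11) (h : dfs MA MB leaf f k (imgs ρ k) = true) : leaf (imgs ρ 11) = true := by
  induction f generalizing k with
  | zero =>
    have h1 : k = 11 := by omega
    subst h1
    exact h
  | succ f ih =>
    have h' : ((List.range 11).all fun v =>
      cond (isIn v (imgs ρ k)) true (cond (prs MA MB k v (imgs ρ k) k)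
        (dfs MA MB leaf f (Nat.succ k) (v :: imgs ρ k)) true)) = true := h
    rw [List.all_eq_true] at h'
    have hk11 : k < 11 := by omega
    have h2 := h' (ρ k) (List.mem_range.2 (hρ.1 k hk11))
    have h3 : isIn (ρ k) (imgs ρ k) = false := by
      rw [← Bool.not_eq_true]
      intro h4
      obtain ⟨a, h5, h6⟩ := mem_imgs.1 (mem_of_isIn h4)
      exact hρ.2.1 a (by omega) k hk11 (by omega) h6
    rw [h3, cond_false, prs_imgs hρ hk11 le_rfl, cond_true] at h2
    exact ih (k := k + 1) (by omega) h2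

/-- an isomorphism respects the triples -/
theorem resp_of_iso {T T' M M' : ℕ} (hM : IsTM T M) (hM' : IsTM T' M') {ρ : Equiv.Perm (Fin 13)}
    (h11 : ρ 11 = 11) (h12 : ρ 12 = 12) (h : mapF ρ (fam 11 3 T) = fam 11 3 T') :
    Resp M M' (fun a => (ρ (Fin.ofNat 13 a)).val) := by
  have hv : ∀ a < 11, ((Fin.ofNat 13 a : Fin 13) : ℕ) = a := fun a ha => by
    show a % 13 = a
    omega
  have hlt : ∀ x : Fin 13, x.val < 11 → (ρ x).val < 11 := by
    intro x hx
    have h1 : ρ x ≠ 11 := fun e => by
      have h2 : x = 11 := ρ.injective (e.trans h11.symm)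
      rw [h2] at hx
      exact absurd hx (by decide)
    have h2 : ρ x ≠ 12 := fun e => by
      have h2 : x = 12 := ρ.injective (e.trans h12.symm)
      rw [h2] at hx
      exact absurd hx (by decide)
    have h3 : (ρ x).val ≠ 11 := fun e => h1 (Fin.ext e)
    have h4 : (ρ x).val ≠ 12 := fun e => h2 (Fin.ext e)
    omega
  refine ⟨fun a ha => hlt _ (by rw [hv a ha]; exact ha), fun a ha b hb hab e => ?_, ?_⟩
  · have h1 := congrArg Fin.val (ρ.injective (Fin.ext e))
    rw [hv a ha, hv b hb] at h1
    exact hab h1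
  · intro a b c hab hbc hc
    set x : Fin 13 := Fin.ofNat 13 a with hx
    set y : Fin 13 := Fin.ofNat 13 b with hy
    set z : Fin 13 := Fin.ofNat 13 c with hz
    have ex : x.val = a := hv a (by omega)
    have ey : y.val = b := hv b (by omega)
    have ez : z.val = c := hv c hc
    have hxy : x ≠ y := fun e => by rw [e] at ex; omega
    have hxz : x ≠ z := fun e => by rw [e] at ex; omega
    have hyz : y ≠ z := fun e => by rw [e] at ey; omega
    have key : ∀ p q r : Fin 13, p ≠ q → p ≠ r → q ≠ r →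
        mk ({r, q, p} : Finset (Fin 13)) = 2 ^ r.val + 2 ^ q.val + 2 ^ p.val := by
      decide +kernel
    have sub : ∀ p q r : Fin 13, p ≠ q → p ≠ r → q ≠ r → p.val < 11 → q.val < 11 → r.val < 11 →
        Sub 11 3 ({r, q, p} : Finset (Fin 13)) := by
      intro p q r h1 h2 h3 h4 h5 h6
      refine ⟨mk_lt_iff.2 fun u hu => ?_, ?_⟩
      · simp only [mem_insert, mem_singleton] at hu
        rcases hu with rfl | rfl | rfl <;> assumption
      · rw [card_insert_of_notMem, card_pair (Ne.symm h1)]
        simp [Ne.symm h2, Ne.symm h3]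
    have s1 := sub x y z hxy hxz hyz (by omega) (by omega) (by omega)
    have s2 := sub (ρ x) (ρ y) (ρ z) (ρ.injective.ne hxy) (ρ.injective.ne hxz)
      (ρ.injective.ne hyz) (hlt x (by omega)) (hlt y (by omega)) (hlt z (by omega))
    have k1 := key x y z hxy hxz hyz
    have k2 := key (ρ x) (ρ y) (ρ z) (ρ.injective.ne hxy) (ρ.injective.ne hxz) (ρ.injective.ne hyz)
    have h1 := hM _ s1
    have h2 := hM' _ s2
    rw [k1, ex, ey, ez] at h1
    rw [k2] at h2
    have h3 : ({ρ z, ρ y, ρ x} : Finset (Fin 13)) ∈ fam 11 3 T' ↔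
        ({z, y, x} : Finset (Fin 13)) ∈ fam 11 3 T := by
      rw [← h]
      have h4 : ({ρ z, ρ y, ρ x} : Finset (Fin 13)) = mapS ρ {z, y, x} := by
        rw [mapS_insert, mapS_insert, mapS_singleton]
      rw [h4, mem_mapF]
    rw [Bool.eq_iff_iff]
    rw [h1, ← h3, ← h2]

/-- the value of a word at a point -/
def pv : List ℕ → ℕ → ℕ
  | [], b => b
  | a :: w, b => pv w (bif Nat.beq b a then Nat.succ a else bif Nat.beq b (Nat.succ a) then a else b)

theorem pv_eq {w : List ℕ} (hw : ∀ a ∈ w, a < 10) (b : Fin 13) : pv w b.val = (wp w b).val := by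
  induction w generalizing b with
  | nil => rfl
  | cons a w ih =>
    have ha := hw a List.mem_cons_self
    show pv w _ = (wp w (swp a b)).val
    rw [← ih (fun c hc => hw c (List.mem_cons_of_mem _ hc)), swp_val (by omega)]
    congr 1
    by_cases h1 : b.val = a
    · have h2 : Nat.beq b.val a = true := by rw [Nat.beq_eq]; exact h1
      rw [h2, cond_true, if_pos h1]
    · have h2 : Nat.beq b.val a = false := by
        rw [← Bool.not_eq_true, Nat.beq_eq]
        exact h1
      rw [h2, cond_false, if_neg h1]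
      by_cases h3 : b.val = a + 1
      · have h4 : Nat.beq b.val (Nat.succ a) = true := by rw [Nat.beq_eq]; exact h3
        rw [h4, cond_true, if_pos h3]
      · have h4 : Nat.beq b.val (Nat.succ a) = false := by
          rw [← Bool.not_eq_true, Nat.beq_eq]
          exact h3
        rw [h4, cond_false, if_neg h3]

/-- the images form the word of a member of the list -/
def leafW (ws : List (ℕ × ℕ)) (l : List ℕ) : Bool :=
  ws.any fun w => okW 10 w.1 w.2 && (l == imgs (pv (digs w.2 w.1)) 11)

/-- completeness of the list of the isomorphisms -/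
def IsoW (T T' : ℕ) (ws : List (ℕ × ℕ)) : Prop :=
  ∀ ρ : Equiv.Perm (Fin 13), ρ 11 = 11 → ρ 12 = 12 → mapF ρ (fam 11 3 T) = fam 11 3 T' →
    ∃ w ∈ ws, (∀ a ∈ digs w.2 w.1, a < 10) ∧ ρ = wp (digs w.2 w.1)

theorem imgs_inj {f g : ℕ → ℕ} {n : ℕ} (h : imgs f n = imgs g n) : ∀ a < n, f a = g a := by
  induction n with
  | zero => intro a ha; omega
  | succ n ih =>
    have h' : f n :: imgs f n = g n :: imgs g n := h
    rw [List.cons.injEq] at h'
    intro a ha
    by_cases h1 : a = n
    · rw [h1]
      exact h'.1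
    · exact ih h'.2 a (by omega)

theorem isoW_of_dfs {T T' M M' : ℕ} {ws : List (ℕ × ℕ)} (hM : tmChk T M = true)
    (hM' : tmChk T' M' = true) (h : dfs M M' (leafW ws) 11 0 [] = true) : IsoW T T' ws := by
  intro ρ h11 h12 hρ
  have h1 := dfs_sound (resp_of_iso (isTM_of_chk hM) (isTM_of_chk hM') h11 h12 hρ) (f := 11)
    (k := 0) (by norm_num) h
  unfold leafW at h1
  rw [List.any_eq_true] at h1
  obtain ⟨w, hw, h2⟩ := h1
  rw [Bool.and_eq_true, beq_iff_eq] at h2
  have h3 := okW_iff h2.1
  refine ⟨w, hw, h3, ?_⟩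
  have h4 := imgs_inj h2.2
  have hw' : ∀ a ∈ digs w.2 w.1, a + 1 < 11 := fun a ha => by have := h3 a ha; omega
  refine Equiv.ext fun b => ?_
  by_cases hb : b.val < 11
  · have h5 := h4 b.val hb
    have h6 : (Fin.ofNat 13 b.val : Fin 13) = b := by
      apply Fin.ext
      show b.val % 13 = b.val
      omega
    rw [h6, pv_eq h3] at h5
    exact Fin.ext h5
  · have h7 : b = 11 ∨ b = 12 := by
      have h8 : b.val = 11 ∨ b.val = 12 := by omega
      rcases h8 with h8 | h8
      · exact Or.inl (Fin.ext h8)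
      · exact Or.inr (Fin.ext h8)
    rcases h7 with rfl | rfl
    · rw [h11]
      exact (wp_fix hw' le_rfl).symm
    · rw [h12]
      exact (wp_fix hw' (by decide)).symm

/-- the triples of `repA` -/
def tmA : ℕ := 0x16000000000000000000000000000000000000000000000000000000000000010000000000000000000000000100000000000000000001000000000000000000000000000000000000000000000000000000000000000000000000000000010000000000000000000000000000000001000000000100000000000000000000000000000000000000000000000000000010000000000000000400000002000000000000000000000002000000000004000000000000000010000100004000200800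

/-- the triples of `repB` -/
def tmB : ℕ := 0x16000000000000000000000000000000000000000000000000000000000001000000000000000000000000000000000100000000010000000000000000000000000000000000000000000000000000000000000000000000000000000100000000000000000000000000000000000100000000000000000100000000000000000000000000000000000000000000000002000000000000000400000000000010000000000000000010000000040000000000000000000200000010020004000080

theorem tmA_ok : tmChk repA tmA = true := by decide +kernel

theorem tmB_ok : tmChk repB tmB = true := by decide +kernel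

/-- the six automorphisms of `repA` -/
def wsA : List (ℕ × ℕ) :=
  [(0, 0), (4, 38449), (4, 38720), (6, 484401), (6, 6517776), (10, 425360507664)]

/-- the twelve automorphisms of `repB` -/
def wsB : List (ℕ × ℕ) :=
  [(0, 0), (14, 14729291113129283), (6, 3765297), (12, 58563578258737), (4, 38464),
   (16, 3761987165940503600), (6, 6489921), (14, 18951415754487377), (6, 7750416),
   (14, 23703633412903952), (8, 1620534032), (14, 19495875545289744)]

theorem isoAA : IsoW repA repA wsA := isoW_of_dfs tmA_ok tmA_ok (by decide +kernel)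

theorem isoBB : IsoW repB repB wsB := isoW_of_dfs tmB_ok tmB_ok (by decide +kernel)

theorem isoAB : IsoW repA repB [] := isoW_of_dfs tmA_ok tmB_ok (by decide +kernel)

theorem isoBA : IsoW repB repA [] := isoW_of_dfs tmB_ok tmA_ok (by decide +kernel)

end Pool.Agent.Helper74.TY
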