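import Pool.Agent.Helper74.TY.XPiece
import Pool.Agent.Helper74.TY.XPair

/-!
MP_8ee768_co, project TH-Y': stage X, the list builder, final form.

* `RX D p`: the second point form of the minimal cover (`Best.p_eq_three`) for a link `D` and the
  apex `p`; it is a hypothesis of the completeness statements of the tables.
* `XSel`: completeness of the lists of chunks belonging to a type and a mask of lights.
* `xLst`: root code `c`, word `v` into the frame of the type; result one packed list `(K, A)`.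
-/

set_option autoImplicit false

namespace Pool.Agent.Helper74.TY

open Finset
open Pool.Agent.Helper63.SIMD
open Pool.Agent.Helper89.CV (OddCover ofMask)
open Pool.Agent.Helper97.CV
open Pool.Agent.Helper4.CV
open Pool.Agent.Helper79.CV
open Pool.Agent.Helper33.CV
open Pool.Agent.Helper91.TY
open Pool.Agent.Helper55.TY
open Pool.Agent.Helper82.TY (below)

/-- a 5-set with three quads of `D` contains `p`, and without `p` it belongs to `D` -/
def RX (D : Finset (Finset (Fin 13))) (p : Fin 13) : Prop :=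
  ∀ V : Finset (Fin 13), V ⊆ below 12 → V.card = 5 → 3 ≤ (D ∩ V.powersetCard 4).card →
    p ∈ V ∧ V.erase p ∈ D

theorem mapF_inter (σ : Equiv.Perm (Fin 13)) (D E : Finset (Finset (Fin 13))) :
    mapF σ (D ∩ E) = mapF σ D ∩ mapF σ E := by
  ext s
  rw [mem_mapF', mem_inter, mem_inter, mem_mapF', mem_mapF']

theorem mapF_powersetCard (σ : Equiv.Perm (Fin 13)) (V : Finset (Fin 13)) (k : ℕ) :
    mapF σ (V.powersetCard k) = (mapS σ V).powersetCard k := by
  ext s
  rw [mem_mapF', mem_powersetCard, mem_powersetCard, card_mapS]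
  constructor
  · rintro ⟨h1, h2⟩
    refine ⟨?_, h2⟩
    rw [← mapS_mapS_symm σ s]
    exact mapS_subset.2 h1
  · rintro ⟨h1, h2⟩
    refine ⟨?_, h2⟩
    rw [← mapS_symm_mapS σ V]
    exact mapS_subset.2 h1

/-- `RX` is invariant under relabelling with 12 fixed -/
theorem RX.map {D : Finset (Finset (Fin 13))} {p : Fin 13} (h : RX D p)
    {σ : Equiv.Perm (Fin 13)} (hσ : σ 12 = 12) : RX (mapF σ D) (σ p) := by
  intro V hV hc h3
  have e12 : σ.symm 12 = 12 := by rw [Equiv.symm_apply_eq, hσ]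
  have h1 : mapS σ.symm V ⊆ below 12 := by
    intro a ha
    rw [mem_mapS', Equiv.symm_symm] at ha
    have h2 := hV ha
    rw [below_twelve, mem_erase] at h2 ⊢
    exact ⟨fun h4 => h2.1 (by rw [h4, hσ]), mem_univ _⟩
  have h2 : (D ∩ (mapS σ.symm V).powersetCard 4).card =
      (mapF σ D ∩ V.powersetCard 4).card := by
    rw [← card_mapF σ, mapF_inter, mapF_powersetCard, mapS_mapS_symm]
  obtain ⟨h4, h5⟩ := h _ h1 (by rw [card_mapS, hc]) (by rw [h2]; exact h3)
  refine ⟨?_, ?_⟩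
  · rw [← mapS_mapS_symm σ V, mem_mapS]
    exact h4
  · rw [mem_mapF', mapS_erase, Equiv.symm_apply_apply]
    exact h5

/-- the link of a point of `Y` in the frame of the tables -/
theorem rx_swap {B : Finset (Finset (Fin 13))} {Y : Finset (Fin 13)} (h : XVec B 12 Y)
    (hY : (11 : Fin 13) ∈ Y) : RX (mapF (Equiv.swap 11 12) (link B 11)) 11 := by
  intro V hV hc h3
  set τ : Equiv.Perm (Fin 13) := Equiv.swap 11 12 with hτ
  have hs : τ.symm = τ := Equiv.symm_swap _ _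
  have hτ11 : τ 11 = 12 := Equiv.swap_apply_left _ _
  have hτ12 : τ 12 = 11 := Equiv.swap_apply_right _ _
  have h11 : (11 : Fin 13) ∉ mapS τ V := by
    rw [mem_mapS', hs, hτ11]
    intro h12
    have := hV h12
    rw [mem_below] at this
    exact absurd this (by decide)
  have h2 : (link B 11 ∩ (mapS τ V).powersetCard 4).card =
      (mapF τ (link B 11) ∩ V.powersetCard 4).card := by
    rw [← card_mapF τ, mapF_inter, mapF_powersetCard]
    have h5 : mapS τ (mapS τ V) = V := by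
      conv_lhs => rw [← hs]
      exact mapS_symm_mapS τ V
    rw [h5]
  obtain ⟨u, hu, hul, hM⟩ := h.best.p_eq_three (x := 11) (U := mapS τ V)
    (by rw [card_mapS, hc]) h11 (by rw [h2]; exact h3)
  rw [h.six 11 hY] at hM
  have h1 : u = 12 := by
    by_contra hne
    by_cases huY : u ∈ Y
    · have := h.six u huY
      omega
    · have := h.eight u hne huY
      omega
  subst h1
  refine ⟨?_, ?_⟩
  · have h5 : τ 11 ∈ mapS τ V := by rw [hτ11]; exact hu
    exact mem_mapS.1 h5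
  · rw [mem_mapF', mapS_erase, hs, hτ11]
    exact hul

/-- well formed chunks -/
def WF (W : ℕ) (L : List (ℕ × ℕ)) : Prop := ∀ g ∈ L, g.2 < 2 ^ (W * g.1)

/-- the words of automorphisms with the chunks whose zero masks contain the image of the lights:
complete for the type `T` and the lights `P` -/
def XSel (W : ℕ) (ok : ℕ → Prop) (T P : ℕ) (pl : List ((ℕ × ℕ) × ℕ × List (ℕ × ℕ))) : Prop :=
  (∀ e ∈ pl, WF W e.2.2) ∧
  ∀ D : Finset (Finset (Fin 13)), OddFam 3 (below 12) D → link D 11 = fam 11 3 T → D.card = 60 →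
    RX D 11 → (∀ p : Fin 13, P.testBit p.val = true → (link D p).card = 19) →
    ∃ e ∈ pl, mapF (wp (digs e.1.2 e.1.1)) (fam 11 3 T) = fam 11 3 T ∧ ∃ g ∈ e.2.2, ∃ i < g.1,
      enc 11 4 (mapF (wp (digs e.1.2 e.1.1)) D) = fld W g.2 i % 2 ^ 330 ∧ ok (fld W g.2 i)

/-! ## the kernel functions -/

/-- test and extraction on the chunks; neighbouring chunks are merged up to `lim` lanes -/
def lstF (W c1 m1 S mS lim : ℕ) (xf : ℕ → ℕ → ℕ → ℕ → ℕ) (D P : ℕ) (κ : ℕ → ℕ → Bool)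
    (L : List (ℕ × ℕ)) : ℕ → ℕ → ℕ → ℕ → ℕ → Bool :=
  @List.rec (ℕ × ℕ) (fun _ => ℕ → ℕ → ℕ → ℕ → ℕ → Bool)
    (fun u N X K A => frs u (xf D P N X) fun Z =>
      extP W c1 m1 S mS u κ (Nat.succ N) Z X K A)
    (fun q _ ih u N X K A => cond (Nat.ble (Nat.add N q.1) lim)
      (ih u (Nat.add N q.1) (Nat.lor X (Nat.shiftLeft q.2 (Nat.mul W N))) K A)
      (frs u (xf D P N X) fun Z =>
        extP W c1 m1 S mS u (fun K' A' => ih (Nat.succ u) q.1 q.2 K' A') (Nat.succ N) Z X K A)) L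

theorem lstF_sound {W c s lim : ℕ} (hc : c < W) {xf : ℕ → ℕ → ℕ → ℕ → ℕ} {D P : ℕ}
    {κ : ℕ → ℕ → Bool} {L : List (ℕ × ℕ)} (hL : WF W L) :
    ∀ {u N X K A : ℕ}, X < 2 ^ (W * N) → A < 2 ^ (W * K) →
      lstF W (2 ^ c - 1) (2 ^ W - 1) (W * s) (2 ^ (W * s) - 1) lim xf D P κ L u N X K A = true →
      ∃ K' A', A' < 2 ^ (W * K') ∧ κ K' A' = true ∧ K ≤ K' ∧
        (∀ i < K, fld W A' i = fld W A i) ∧
        ∀ x : ℕ, (∃ i < N, fld W X i = x) ∨ (∃ g ∈ L, ∃ i < g.1, fld W g.2 i = x) →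
          (∀ N' X' i, i < N' → fld W X' i = x → (xf D P N' X').testBit (W * i) = true) →
          ∃ j < K', fld W A' j = x % 2 ^ c := by
  induction L with
  | nil =>
    intro u N X K A hX hA h
    have h' : frs u (xf D P N X) (fun Z =>
      extP W (2 ^ c - 1) (2 ^ W - 1) (W * s) (2 ^ (W * s) - 1) u κ (Nat.succ N) Z X K A) = true := h
    rw [frs_eq] at h'
    obtain ⟨K', A', g1, g2, g3, g4, g5⟩ := extP_sound hc hA h'
    refine ⟨K', A', g1, g2, g3, g4, fun x hx hal => ?_⟩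
    rcases hx with ⟨i, hi, rfl⟩ | ⟨g, hg, -⟩
    · exact g5 i (hal N X i hi rfl)
    · exact absurd hg List.not_mem_nil
  | cons q L ih =>
    intro u N X K A hX hA h
    have hL' : WF W L := fun g hg => hL g (List.mem_cons_of_mem _ hg)
    have hq : q.2 < 2 ^ (W * q.1) := hL q List.mem_cons_self
    have h' : cond (Nat.ble (Nat.add N q.1) lim)
      (lstF W (2 ^ c - 1) (2 ^ W - 1) (W * s) (2 ^ (W * s) - 1) lim xf D P κ L u (Nat.add N q.1)
        (Nat.lor X (Nat.shiftLeft q.2 (Nat.mul W N))) K A)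
      (frs u (xf D P N X) fun Z =>
        extP W (2 ^ c - 1) (2 ^ W - 1) (W * s) (2 ^ (W * s) - 1) u (fun K' A' =>
          lstF W (2 ^ c - 1) (2 ^ W - 1) (W * s) (2 ^ (W * s) - 1) lim xf D P κ L (Nat.succ u) q.1
            q.2 K' A') (Nat.succ N) Z X K A) = true := h
    by_cases hb : Nat.ble (Nat.add N q.1) lim = true
    · rw [hb, cond_true] at h'
      obtain ⟨a1, a2, a3⟩ := fld_append' (W := W) hX hq
      obtain ⟨K', A', g1, g2, g3, g4, g5⟩ := ih hL' (N := N + q.1)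
        (X := X ||| q.2 <<< (W * N)) a1 hA h'
      refine ⟨K', A', g1, g2, g3, g4, fun x hx hal => g5 x ?_ hal⟩
      rcases hx with ⟨i, hi, rfl⟩ | ⟨g, hg, i, hi, rfl⟩
      · exact Or.inl ⟨i, by omega, a2 i hi⟩
      · rcases List.mem_cons.1 hg with rfl | hg
        · exact Or.inl ⟨N + i, by omega, a3 i⟩
        · exact Or.inr ⟨g, hg, i, hi, rfl⟩
    · rw [Bool.not_eq_true] at hb
      rw [hb, cond_false, frs_eq] at h'
      obtain ⟨K1, A1, f1, f2, f3, f4, f5⟩ := extP_sound hc hA h'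
      obtain ⟨K', A', g1, g2, g3, g4, g5⟩ := ih hL' hq f1 f2
      refine ⟨K', A', g1, g2, by omega, fun i hi => by rw [g4 i (by omega), f4 i hi],
        fun x hx hal => ?_⟩
      rcases hx with ⟨i, hi, rfl⟩ | ⟨g, hg, i, hi, rfl⟩
      · obtain ⟨j, hj, hj'⟩ := f5 i (hal N X i hi rfl)
        exact ⟨j, by omega, by rw [g4 j hj, hj']⟩
      · rcases List.mem_cons.1 hg with rfl | hg
        · exact g5 _ (Or.inl ⟨i, hi, rfl⟩) hal
        · exact g5 _ (Or.inr ⟨g, hg, i, hi, rfl⟩) hal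

/-- the automorphisms -/
noncomputable def selF (W c1 m1 S mS lim : ℕ) (xf : ℕ → ℕ → ℕ → ℕ → ℕ) (T E P : ℕ)
    (κ : ℕ → ℕ → Bool) (pl : List ((ℕ × ℕ) × ℕ × List (ℕ × ℕ))) : ℕ → ℕ → ℕ → Bool :=
  @List.rec ((ℕ × ℕ) × ℕ × List (ℕ × ℕ)) (fun _ => ℕ → ℕ → ℕ → Bool) (fun _ K A => κ K A)
    (fun e _ ih u K A => cond (okW 10 e.1.1 e.1.2)
      (cond (Nat.beq (ptK e.1.1 e.1.2 P) e.2.1)
        (frs u (Nat.add (run4 e.1.1 e.1.2 1 E) (Nat.shiftLeft T 330)) fun D1 =>
          lstF W c1 m1 S mS lim xf D1 e.2.1 (fun K1 A1 =>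
            frs A1 (Nat.lor A (Nat.shiftLeft (Nat.mod (run4R e.1.1 e.1.2 (rep W K1) A1)
              (Nat.pow 2 (Nat.mul W K1))) (Nat.mul W K)))
              fun A' => frs A1 (Nat.add K K1) fun K' => ih (Nat.add u 64) K' A') e.2.2 u 0 0 0 0)
        false) false) pl

theorem fld_mod_pow {W K A i : ℕ} (hi : i < K) : fld W (A % 2 ^ (W * K)) i = fld W A i := by
  refine Nat.eq_of_testBit_eq fun b => ?_
  unfold fld
  rw [Nat.testBit_mod_two_pow, Nat.testBit_mod_two_pow, Nat.testBit_div_two_pow,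
    Nat.testBit_div_two_pow, Nat.testBit_mod_two_pow]
  by_cases hb : b < W
  · have h6 : b + W * i < W * K := by
      have h7 : W * (i + 1) ≤ W * K := Nat.mul_le_mul_left _ hi
      rw [Nat.mul_add, mul_one] at h7
      omega
    rw [decide_eq_true h6, Bool.true_and]
  · simp [hb]

theorem selF_sound {W s lim : ℕ} (hW : 330 < W) {xf : ℕ → ℕ → ℕ → ℕ → ℕ} {T E P : ℕ}
    {κ : ℕ → ℕ → Bool} {pl : List ((ℕ × ℕ) × ℕ × List (ℕ × ℕ))} (hpl : ∀ e ∈ pl, WF W e.2.2) :
    ∀ {u K A : ℕ}, A < 2 ^ (W * K) →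
      selF W (2 ^ 330 - 1) (2 ^ W - 1) (W * s) (2 ^ (W * s) - 1) lim xf T E P κ pl u K A = true →
      ∃ K' A', κ K' A' = true ∧ K ≤ K' ∧ (∀ i < K, fld W A' i = fld W A i) ∧
        ∀ e ∈ pl, (∀ a ∈ digs e.1.2 e.1.1, a < 10) ∧ ∀ g ∈ e.2.2, ∀ i < g.1,
          (∀ N' X' i', i' < N' → fld W X' i' = fld W g.2 i →
            (xf (run4 e.1.1 e.1.2 1 E + T <<< 330) (ptK e.1.1 e.1.2 P) N' X').testBit (W * i') =
              true) →
          ∃ j < K', fld W A' j =
            runW tab4 (digs e.1.2 e.1.1).reverse (fld W g.2 i % 2 ^ 330) := by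
  induction pl with
  | nil =>
    intro u K A hA h
    exact ⟨K, A, h, le_rfl, fun _ _ => rfl, fun e he => absurd he List.not_mem_nil⟩
  | cons e pl ih =>
    intro u K A hA h
    have hpl' : ∀ e ∈ pl, WF W e.2.2 := fun g hg => hpl g (List.mem_cons_of_mem _ hg)
    have h' : cond (okW 10 e.1.1 e.1.2)
      (cond (Nat.beq (ptK e.1.1 e.1.2 P) e.2.1)
        (frs u (Nat.add (run4 e.1.1 e.1.2 1 E) (Nat.shiftLeft T 330)) fun D1 =>
          lstF W (2 ^ 330 - 1) (2 ^ W - 1) (W * s) (2 ^ (W * s) - 1) lim xf D1 e.2.1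
            (fun K1 A1 =>
            frs A1 (Nat.lor A (Nat.shiftLeft (Nat.mod (run4R e.1.1 e.1.2 (rep W K1) A1)
              (Nat.pow 2 (Nat.mul W K1))) (Nat.mul W K)))
              fun A' => frs A1 (Nat.add K K1) fun K' =>
                selF W (2 ^ 330 - 1) (2 ^ W - 1) (W * s) (2 ^ (W * s) - 1) lim xf T E P κ pl
                  (Nat.add u 64) K' A') e.2.2 u 0 0 0 0) false) false = true := h
    by_cases hk : okW 10 e.1.1 e.1.2 = true
    swap
    · rw [Bool.not_eq_true] at hk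
      rw [hk, cond_false] at h'
      exact Bool.noConfusion h'
    have hw := okW_iff hk
    rw [hk, cond_true] at h'
    by_cases hp : Nat.beq (ptK e.1.1 e.1.2 P) e.2.1 = true
    swap
    · rw [Bool.not_eq_true] at hp
      rw [hp, cond_false] at h'
      exact Bool.noConfusion h'
    have hPe : ptK e.1.1 e.1.2 P = e.2.1 := Nat.eq_of_beq_eq_true hp
    rw [hp, cond_true, frs_eq, ← hPe] at h'
    have h0 : (0 : ℕ) < 2 ^ (W * 0) := by
      rw [Nat.mul_zero, pow_zero]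
      exact Nat.one_pos
    obtain ⟨K1, A1, f1, f2, -, -, f5⟩ := lstF_sound hW (hpl e List.mem_cons_self) h0 h0 h'
    rw [frs_eq, frs_eq] at f2
    have hlt : run4R e.1.1 e.1.2 (rep W K1) A1 % 2 ^ (W * K1) < 2 ^ (W * K1) :=
      Nat.mod_lt _ (Nat.two_pow_pos _)
    obtain ⟨a1, a2, a3⟩ := fld_append' (W := W) hA hlt
    obtain ⟨K', A', g1, g2, g3, g4⟩ := ih hpl' (K := K + K1)
      (A := A ||| (run4R e.1.1 e.1.2 (rep W K1) A1 % 2 ^ (W * K1)) <<< (W * K)) a1 f2
    refine ⟨K', A', g1, by omega, fun i hi => by rw [g3 i (by omega), a2 i hi], fun e' he' => ?_⟩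
    rcases List.mem_cons.1 he' with rfl | he'
    · refine ⟨hw, fun g hg i hi hal => ?_⟩
      obtain ⟨j, hj, hj'⟩ := f5 _ (Or.inr ⟨g, hg, i, hi, rfl⟩) hal
      refine ⟨K + j, by omega, ?_⟩
      rw [g3 _ (by omega), a3, fld_mod_pow hj, fld_run4R (by omega) hw _ hj, hj']
    · exact g4 e' he'

/-- the list of the candidates for the link of 11: one packed list -/
noncomputable def xLst (W lim : ℕ) (xf : ℕ → ℕ → ℕ → ℕ → ℕ) (T P : ℕ)
    (pl : List ((ℕ × ℕ) × ℕ × List (ℕ × ℕ))) (u c lv v : ℕ) (κ : ℕ → ℕ → Bool) : Bool :=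
  cond (okW 10 lv v)
    (cond (Nat.beq (run3 lv v 1 (Nat.shiftRight c 330)) T)
      (cond (Nat.beq (ptK lv v 1792) P)
        (frs u (run4 lv v 1 (Nat.mod c (2 ^ 330))) fun E =>
          selF W (2 ^ 330 - 1) (2 ^ W - 1) (W * 64) (2 ^ (W * 64) - 1) lim xf T E P
            (fun K A => frs A (run4R lv v (rep W K) A) fun A' => κ K A') pl (Nat.succ u) 0 0)
        false) false) false

/-- the packed list contains the link of 11 of every cover with the root code `c` -/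
def LRes (W c K A : ℕ) : Prop :=
  ∀ B : Finset (Finset (Fin 13)), XVec B 12 Y8 → link B 12 = fam 12 4 c →
    ∃ j < K, fld W A j = enc 11 4 (link B 11)

/-- **soundness of the list** -/
theorem xLst_sound {W lim : ℕ} (hW : 330 < W) {ok : ℕ → Prop} {xf : ℕ → ℕ → ℕ → ℕ → ℕ}
    {T P : ℕ} {pl : List ((ℕ × ℕ) × ℕ × List (ℕ × ℕ))} (hT : XSel W ok T P pl) (hTlt : T < 2 ^ 165)
    (hx : XFSound W ok xf) {u c lv v : ℕ} (hc : c < 2 ^ 495) {κ : ℕ → ℕ → Bool}
    (h : xLst W lim xf T P pl u c lv v κ = true) : ∃ K A, κ K A = true ∧ LRes W c K A := by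
  unfold xLst at h
  by_cases hk : okW 10 lv v = true
  swap
  · rw [Bool.not_eq_true] at hk
    rw [hk, cond_false] at h
    exact Bool.noConfusion h
  have hv := okW_iff hk
  rw [hk, cond_true] at h
  by_cases hb : Nat.beq (run3 lv v 1 (Nat.shiftRight c 330)) T = true
  swap
  · rw [Bool.not_eq_true] at hb
    rw [hb, cond_false] at h
    exact Bool.noConfusion h
  rw [hb, cond_true] at h
  by_cases hb2 : Nat.beq (ptK lv v 1792) P = true
  swap
  · rw [Bool.not_eq_true] at hb2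
    rw [hb2, cond_false] at h
    exact Bool.noConfusion h
  rw [hb2, cond_true, frs_eq] at h
  have hrT : run3 lv v 1 (c >>> 330) = T := Nat.eq_of_beq_eq_true hb
  have hPP : ptK lv v 1792 = P := Nat.eq_of_beq_eq_true hb2
  obtain ⟨K, A, h1, -, -, h3⟩ := selF_sound hW hT.1 (by
    rw [Nat.mul_zero, pow_zero]
    exact Nat.one_pos) h
  rw [frs_eq] at h1
  refine ⟨K, _, h1, fun B hX hl => ?_⟩
  obtain ⟨σ, hσ⟩ : ∃ σ, σ = wp (digs v lv) := ⟨_, rfl⟩
  have hv' : ∀ a ∈ digs v lv, a + 1 < 11 := fun a ha => by have := hv a ha; omega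
  have hσ11 : σ 11 = 11 := by rw [hσ]; exact wp_fix hv' le_rfl
  have hσ12 : σ 12 = 12 := by rw [hσ]; exact wp_fix hv' (by decide)
  have hB := hX.odd
  have hencc : enc 12 4 (link B 12) = c := by
    rw [hl, enc_fam (by norm_num)]
    exact hc
  have hE : Nat.mod c (2 ^ 330) = enc 11 4 (link B 12) := by
    rw [← hencc]
    exact enc_mod 11 3 (link B 12)
  have hS : c >>> 330 = enc 11 3 (link (link B 12) 11) := by
    rw [← hencc]
    exact enc_shift 11 3 (link B 12)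
  have hX1 := hX.map σ
  rw [hσ12] at hX1
  have hB1 := hX1.odd
  have hl1 : link (mapF σ B) 12 = mapF σ (link B 12) := by
    conv_lhs => rw [← hσ12]
    exact link_mapF σ _ _
  have hl11 : link (mapF σ B) 11 = mapF σ (link B 11) := by
    conv_lhs => rw [← hσ11]
    exact link_mapF σ _ _
  have hll : link (link (mapF σ B) 12) 11 = fam 11 3 T := by
    rw [← Pool.Agent.Helper67.TY.enc_pair hB1 hTlt, hl1]
    have h5 : link (mapF σ (link B 12)) 11 = mapF σ (link (link B 12) 11) := by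
      conv_lhs => rw [← hσ11]
      exact link_mapF σ _ _
    rw [h5, ← hrT, hS, run3_eq hv, hσ]
  have h11m : (11 : Fin 13) ∈ mapS σ Y8 := by
    rw [← hσ11, mem_mapS]
    decide
  have hM1 : MM (mapF σ B) 11 = 6 := hX1.six 11 h11m
  obtain ⟨d1, d2, d3⟩ := swap_frame hB1 hll hM1
  -- the lights
  have hPm : P = mk ((mapS σ Y8).erase 11) := by
    rw [← hPP, ← mk_Y8, ptK_eq (fun a ha => by have := hv a ha; omega), ← hσ, mapS_erase, hσ11]
  have hz : ∀ p : Fin 13, P.testBit p.val = true →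
      (link (mapF (Equiv.swap 11 12) (link (mapF σ B) 11)) p).card = 19 := by
    intro p hp
    rw [hPm, testBit_mk, decide_eq_true_eq] at hp
    have hp12 : p ≠ 12 := by
      rintro rfl
      exact hX1.notMem (mem_of_mem_erase hp)
    have hp11 : p ≠ 11 := ne_of_mem_erase hp
    have h7 : Equiv.swap (11 : Fin 13) 12 p = p := Equiv.swap_apply_of_ne_of_ne hp11 hp12
    conv_lhs => rw [← h7]
    rw [link_mapF, card_mapF, Pool.Agent.Helper67.TY.card_link_link hB1 hp11.symm,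
      hX1.mm_six h11m (mem_of_mem_erase hp) hp11.symm]
  obtain ⟨e, he, hwT, g, hg, i, hi, e1, e2⟩ := hT.2 _ d1 d2 d3 (rx_swap hX1 h11m) hz
  obtain ⟨hw10, hpp⟩ := h3 e he
  obtain ⟨α, hα⟩ : ∃ α, α = wp (digs e.1.2 e.1.1) := ⟨_, rfl⟩
  rw [← hα] at hwT e1
  have hw' : ∀ a ∈ digs e.1.2 e.1.1, a + 1 < 11 := fun a ha => by have := hw10 a ha; omega
  have hα11 : α 11 = 11 := by rw [hα]; exact wp_fix hw' le_rfl
  have hα12 : α 12 = 12 := by rw [hα]; exact wp_fix hw' (by decide)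
  have hX2 := hX1.map α
  rw [hα12] at hX2
  have hB2 := hX2.odd
  have hl2 : link (mapF α (mapF σ B)) 12 = mapF α (mapF σ (link B 12)) := by
    rw [← hl1]
    conv_lhs => rw [← hα12]
    exact link_mapF α _ _
  have hl21 : link (mapF α (mapF σ B)) 11 = mapF α (mapF σ (link B 11)) := by
    rw [← hl11]
    conv_lhs => rw [← hα11]
    exact link_mapF α _ _
  have hll2 : link (link (mapF α (mapF σ B)) 12) 11 = fam 11 3 T := by
    rw [← hwT, ← hll]
    have h5 : link (mapF α (mapF σ B)) 12 = mapF α (link (mapF σ B) 12) := by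
      conv_lhs => rw [← hα12]
      exact link_mapF α _ _
    rw [h5]
    conv_lhs => rw [← hα11]
    exact link_mapF α _ _
  -- the image of the table entry
  have hDα : mapF α (mapF (Equiv.swap 11 12) (link (mapF σ B) 11)) =
      mapF (Equiv.swap 11 12) (link (mapF α (mapF σ B)) 11) := by
    rw [hl21, ← hl11, ← mapF_mul, ← mapF_mul, swap_comm_of_fix hα11 hα12]
  rw [hDα, enc_swap] at e1
  have h11 : (11 : Fin 13) ∈ mapS α (mapS σ Y8) := by
    rw [← hα11, mem_mapS]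
    exact h11m
  have hP1 : ptK e.1.1 e.1.2 P = mk ((mapS α (mapS σ Y8)).erase 11) := by
    rw [hPm, ptK_eq (fun a ha => by have := hw10 a ha; omega), ← hα, mapS_erase, hα11]
  -- the root code
  have hD1 : run4 e.1.1 e.1.2 1 (run4 lv v 1 (Nat.mod c (2 ^ 330))) + T <<< 330 =
      enc 12 4 (link (mapF α (mapF σ B)) 12) := by
    have h5 : enc 12 4 (link (mapF α (mapF σ B)) 12) =
        enc 11 4 (link (mapF α (mapF σ B)) 12) +
          2 ^ 330 * enc 11 3 (link (link (mapF α (mapF σ B)) 12) 11) :=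
      enc_split 11 3 _
    rw [h5, hll2, enc_fam (by norm_num) (by exact hTlt), hE, run4_eq hv, run4_eq hw10, hl2, hσ,
      hα, Nat.shiftLeft_eq, Nat.mul_comm]
  have hsub2 : ∀ s ∈ link (mapF α (mapF σ B)) 12, Sub 12 4 s := by
    intro s hs
    have h5 := (Pool.Agent.Helper67.TY.oddFam_twelve hB2).1 s hs
    refine ⟨mk_lt_iff.2 fun a ha => ?_, h5.2⟩
    have := h5.1 ha
    rwa [mem_below] at this
  have halive : ∀ N' X' i', i' < N' → fld W X' i' = fld W g.2 i →
      (xf (run4 e.1.1 e.1.2 1 (run4 lv v 1 (Nat.mod c (2 ^ 330))) + T <<< 330)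
        (ptK e.1.1 e.1.2 P) N' X').testBit (W * i') = true := by
    intro N' X' i' hi' hf
    refine hx _ _ _ _ N' X' i' hX2 h11 hP1 (by rw [hD1, fam_enc (by norm_num) hsub2])
      (by rw [hD1]; exact enc_lt 12 4 _) hi' ?_ ?_
    · rw [hf]
      exact e1
    · rw [hf]
      exact e2
  obtain ⟨j, hj, hjj⟩ := hpp g hg i hi halive
  refine ⟨j, hj, ?_⟩
  rw [fld_run4R (by omega) hv _ hj, hjj, ← e1, hl21, ← enc_wp (by norm_num) (tab := tab4)
    (fun a ha => chk_tab4 a (hw10 a (List.mem_reverse.1 ha))), wp_reverse, ← hα,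
    ← enc_wp (by norm_num) (tab := tab4)
    (fun a ha => chk_tab4 a (hv a (List.mem_reverse.1 ha))), wp_reverse, ← hσ,
    ← mapF_mul, ← mapF_mul, ← mapF_mul]
  have h9 : σ⁻¹ * (α⁻¹ * (α * σ)) = 1 := by group
  have h10 : σ⁻¹ * α⁻¹ * α * σ = 1 := by group
  first
    | rw [h9, mapF_one]
    | rw [h10, mapF_one]

/-- the check of one root code -/
noncomputable def xChk (W lim : ℕ) (xf : ℕ → ℕ → ℕ → ℕ → ℕ)
    (J : List (ℕ × ℕ) → List (ℕ × ℕ) → Bool) (T1 P1 : ℕ) (pl1 : List ((ℕ × ℕ) × ℕ × List (ℕ × ℕ)))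
    (T2 P2 : ℕ) (pl2 : List ((ℕ × ℕ) × ℕ × List (ℕ × ℕ))) (u c lv1 v1 lv2 v2 : ℕ) : Bool :=
  xLst W lim xf T1 P1 pl1 u c lv1 v1 fun K1 A1 =>
    frs A1 (sw10 c) fun c' => xLst W lim xf T2 P2 pl2 (Nat.add u 5000) c' lv2 v2 fun K2 A2 =>
      J [(K1, A1)] [(K2, A2)]

/-- **one root code is dead** -/
theorem xChk_sound {W lim : ℕ} (hW : 330 < W) {ok : ℕ → Prop} {xf : ℕ → ℕ → ℕ → ℕ → ℕ}
    (hx : XFSound W ok xf) {T1 P1 : ℕ} {pl1 : List ((ℕ × ℕ) × ℕ × List (ℕ × ℕ))}
    (h1 : XSel W ok T1 P1 pl1) (l1 : T1 < 2 ^ 165) {T2 P2 : ℕ}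
    {pl2 : List ((ℕ × ℕ) × ℕ × List (ℕ × ℕ))} (h2 : XSel W ok T2 P2 pl2) (l2 : T2 < 2 ^ 165) {c : ℕ}
    (hc : c < 2 ^ 495) {J : List (ℕ × ℕ) → List (ℕ × ℕ) → Bool} (hJ : JSound W c J)
    {u lv1 v1 lv2 v2 : ℕ}
    (h : xChk W lim xf J T1 P1 pl1 T2 P2 pl2 u c lv1 v1 lv2 v2 = true) : XDead c := by
  intro B hX hl
  unfold xChk at h
  obtain ⟨K1, A1, g1, g2⟩ := xLst_sound hW h1 l1 hx hc h
  rw [frs_eq] at g1
  obtain ⟨K2, A2, g3, g4⟩ := xLst_sound hW h2 l2 hx (sw10_lt hc) g1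
  obtain ⟨i, hi, e1⟩ := g2 B hX hl
  have hX' := hX.swap
  have hl' : link (mapF (swp 10) B) 12 = fam 12 4 (sw10 c) := by
    rw [link_swap_twelve, hl, fam_sw10 hc]
  obtain ⟨j, hj, e2⟩ := g4 _ hX' hl'
  have b1 : fld W A1 i < 2 ^ 330 := by
    rw [e1]
    exact enc_lt 11 4 _
  have b2 : fld W A2 j < 2 ^ 330 := by
    rw [e2]
    exact enc_lt 11 4 _
  have hd := hJ _ _ g3 (K1, A1) (List.mem_singleton.2 rfl) i hi (K2, A2)
    (List.mem_singleton.2 rfl) j hj b1 b2 (by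
      show fld W A1 i >>> 210 = fld W A2 j >>> 210
      rw [e1, e2, lane_high])
  refine hd B hX (fits_rootA B ?_ e1.symm ?_)
  · rw [hl, enc_fam (by norm_num) hc]
  · show fld W A2 j % 2 ^ 210 = _
    rw [e2, lane_low]

end Pool.Agent.Helper74.TY
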