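import Pool.Agent.Helper7.TY.Flags
import Pool.Agent.Helper16.TY.RunFin
import Pool.Agent.Helper74.TY.XSel
import Pool.Agent.Helper74.TY.XIso

/-!
MP_8ee768_co, project TH-Y': stage X, the check of the flags (class, point of zero excess).

A table entry is a lane of a group, a group has one mask of zero points. A record `r` of the class
`j` holds a point, a type, a group, a lane and 66 bits for helper16's network, which carries the
representative with its zero points (without the point of the record) to the entry with its zero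
points (without the point 11). A flag without a record has a 5-set violating `RX`.
-/

set_option autoImplicit false
set_option maxRecDepth 100000

namespace Pool.Agent.Helper74.TY

open Finset
open Pool.Agent.Helper89.CV (OddCover ofMask)
open Pool.Agent.Helper97.CV
open Pool.Agent.Helper79.CV
open Pool.Agent.Helper33.CV
open Pool.Agent.Helper63.SIMD
open Pool.Agent.Helper91.TY
open Pool.Agent.Helper16.TY
open Pool.Agent.Helper67.TY (repA repB repA_lt repB_lt)
open Pool.Agent.Helper7.TY (enc_marker link_fam_last rC rC_lt keeps_of_fix)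
open Pool.Agent.Helper82.TY (pop popR popc force supM force_eq popR_eq_pop cnt_eq_pop below bits
  testBit_bits card_eq_pop)

/-! ## trees of groups -/

/-- a tree of groups: zero mask, number of lanes, lanes -/
inductive GT : Type
  | lf (z N X : ℕ) : GT
  | nd (a b : GT) : GT

/-- a function of the leaf at a path, lowest bit first -/
noncomputable def GT.sel (f : ℕ → ℕ → ℕ → ℕ) (t : GT) : ℕ → ℕ :=
  GT.rec (motive := fun _ => ℕ → ℕ) (fun z N X _ => f z N X)
    (fun _ _ a b j => cond (Nat.beq (Nat.land j 1) 0) (a (Nat.shiftRight j 1))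
      (b (Nat.shiftRight j 1))) t

/-- all leaves -/
noncomputable def GT.toL (t : GT) : List (ℕ × ℕ × ℕ) → List (ℕ × ℕ × ℕ) :=
  GT.rec (motive := fun _ => List (ℕ × ℕ × ℕ) → List (ℕ × ℕ × ℕ)) (fun z N X l => (z, N, X) :: l)
    (fun _ _ a b l => a (b l)) t

/-- all leaves have a property -/
def GT.All (P : ℕ × ℕ × ℕ → Prop) : GT → Prop
  | .lf z N X => P (z, N, X)
  | .nd a b => a.All P ∧ b.All P

theorem GT.mem_toL (t : GT) {l : List (ℕ × ℕ × ℕ)} {g : ℕ × ℕ × ℕ} :
    g ∈ t.toL l ↔ g ∈ t.toL [] ∨ g ∈ l := by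
  induction t generalizing l with
  | lf z N X =>
    show g ∈ (z, N, X) :: l ↔ g ∈ [(z, N, X)] ∨ g ∈ l
    rw [List.mem_cons, List.mem_singleton]
  | nd a b iha ihb =>
    show g ∈ a.toL (b.toL l) ↔ g ∈ a.toL (b.toL []) ∨ g ∈ l
    rw [iha, ihb, iha (l := b.toL []), or_assoc]

theorem GT.exists_leaf (t : GT) (j : ℕ) :
    ∃ g ∈ t.toL [], ∀ f : ℕ → ℕ → ℕ → ℕ, t.sel f j = f g.1 g.2.1 g.2.2 := by
  induction t generalizing j with
  | lf z N X => exact ⟨(z, N, X), List.mem_singleton.2 rfl, fun _ => rfl⟩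
  | nd a b iha ihb =>
    have e : ∀ f, (GT.nd a b).sel f j = cond (Nat.beq (Nat.land j 1) 0)
      (a.sel f (Nat.shiftRight j 1)) (b.sel f (Nat.shiftRight j 1)) := fun _ => rfl
    have e2 : ∀ g, g ∈ (GT.nd a b).toL [] ↔ g ∈ a.toL [] ∨ g ∈ b.toL [] := by
      intro g
      show g ∈ a.toL (b.toL []) ↔ _
      rw [GT.mem_toL]
    cases hb : Nat.beq (Nat.land j 1) 0
    · obtain ⟨g, hg, h⟩ := ihb (Nat.shiftRight j 1)
      exact ⟨g, (e2 g).2 (Or.inr hg), fun f => by rw [e, hb]; exact h f⟩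
    · obtain ⟨g, hg, h⟩ := iha (Nat.shiftRight j 1)
      exact ⟨g, (e2 g).2 (Or.inl hg), fun f => by rw [e, hb]; exact h f⟩

theorem GT.of_all {P : ℕ × ℕ × ℕ → Prop} {t : GT} (h : t.All P) : ∀ g ∈ t.toL [], P g := by
  induction t with
  | lf z N X =>
    intro g hg
    rw [List.mem_singleton.1 hg]
    exact h
  | nd a b iha ihb =>
    intro g hg
    have h1 : g ∈ a.toL (b.toL []) := hg
    rw [GT.mem_toL] at h1
    rcases h1 with h1 | h1
    · exact iha h.1 g h1
    · exact ihb h.2 g h1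

/-! ## the lanes of a group -/

/-- a good group -/
def GOK (g : ℕ × ℕ × ℕ) : Prop :=
  g.1 < 2048 ∧ g.2.2 < 2 ^ (576 * g.2.1) ∧ ∀ i < g.2.1, okC (fld 576 g.2.2 i)

/-- the check of a group -/
noncomputable def okG (z N X : ℕ) : Bool :=
  Nat.blt z 2048 && (Nat.blt X (Nat.pow 2 (Nat.mul 576 N)) && force (rep 576 N) fun R =>
    force (Nat.land X (Nat.mul (2 ^ 330 - 1) R)) fun X0 => cntF R X0 (fun Y => Nat.beq Y X) cqs 0 0)

theorem fld_land_low {N i X : ℕ} (hi : i < N) :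
    fld 576 (X &&& (2 ^ 330 - 1) * rep 576 N) i = fld 576 X i % 2 ^ 330 := by
  refine Nat.eq_of_testBit_eq fun t => ?_
  rw [Nat.testBit_mod_two_pow]
  by_cases ht : t < 576
  · have h1 : ((2 ^ 330 - 1) * rep 576 N).testBit (576 * i + t) = decide (t < 330) := by
      have h2 := testBit_mul_rep (W := 576) (N := N) (M := 2 ^ 330 - 1)
        (by norm_num) (lt_of_lt_of_le (Nat.sub_lt (Nat.two_pow_pos 330) Nat.one_pos)
          (Nat.pow_le_pow_right (by norm_num) (by norm_num))) (576 * i + t)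
      have h3 : (576 * i + t) % 576 = t := by omega
      rw [h2, h3, Nat.testBit_two_pow_sub_one, decide_eq_true (by omega), Bool.true_and]
    rw [testBit_fld, testBit_fld, decide_eq_true ht, Bool.true_and, Bool.true_and,
      Nat.testBit_and, h1, Bool.and_comm]
  · rw [testBit_fld, testBit_fld, decide_eq_false ht, Bool.false_and, Bool.false_and,
      Bool.and_false]

theorem okG_sound {z N X : ℕ} (h : okG z N X = true) : GOK (z, N, X) := by
  unfold okG at h
  rw [Bool.and_eq_true, Bool.and_eq_true, Nat.blt_eq, Nat.blt_eq, force_eq, force_eq] at h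
  obtain ⟨h1, h2, h3⟩ := h
  obtain ⟨Y, h4, h5⟩ := cntF_top (W := 576) (by norm_num) h3
  have h6 : Y = X := Nat.eq_of_beq_eq_true h4
  rw [h6] at h5
  refine ⟨h1, h2, fun i hi => ?_⟩
  have h7 := h5 i hi
  have h8 : fld 576 (Nat.land X (Nat.mul (2 ^ 330 - 1) (rep 576 N))) i = fld 576 X i % 2 ^ 330 :=
    fld_land_low hi
  rw [h8] at h7
  show okC (fld 576 X i)
  rw [h7]
  exact (okC_of_lor (Nat.mod_lt _ (Nat.two_pow_pos _))).2

/-- an empty group -/
theorem gok0 : GOK (0, 0, 0) := ⟨by norm_num, Nat.two_pow_pos _, fun i hi => absurd hi (Nat.not_lt_zero i)⟩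

/-- a leaf -/
theorem lfok {z N X : ℕ} (h : okG z N X = true) : (GT.lf z N X).All GOK := okG_sound h

/-- an empty leaf -/
theorem lfok0 : (GT.lf 0 0 0).All GOK := gok0

/-- a node -/
theorem ndok {a b : GT} (ha : a.All GOK) (hb : b.All GOK) : (GT.nd a b).All GOK := ⟨ha, hb⟩

/-! ## records -/

/-- the lane -/
def xI (r : ℕ) : ℕ := Nat.land (Nat.shiftRight r 66) 0x7ff
/-- the group -/
def xG (r : ℕ) : ℕ := Nat.land (Nat.shiftRight r 77) 0x7ff
/-- the type -/
def xT (r : ℕ) : ℕ := Nat.land (Nat.shiftRight r 88) 1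
/-- the point -/
def xP (r : ℕ) : ℕ := Nat.land (Nat.shiftRight r 89) 0xf

/-- the type -/
def tyX (t : ℕ) : ℕ := cond (Nat.beq t 0) repA repB

/-- the tree of the type -/
def trX (tA tB : GT) (t : ℕ) : GT := cond (Nat.beq t 0) tA tB

/-- start lane -/
noncomputable def startX (x : ℕ × ℕ) : ℕ :=
  force x.1 fun j => Nat.xor (Tab.tv j) (Nat.shiftLeft 1 (Nat.add 495 (xP x.2)))

/-- end lane -/
noncomputable def endX (tA tB : GT) (x : ℕ × ℕ) : ℕ :=
  force (xG x.2) fun g => force (xT x.2) fun t =>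
    Nat.add (Nat.land (Nat.shiftRight ((trX tA tB t).sel (fun _ _ X => X) g) (Nat.mul 576 (xI x.2)))
      (2 ^ 330 - 1))
      (Nat.add (Nat.shiftLeft (tyX t) 330)
        (Nat.shiftLeft ((trX tA tB t).sel (fun z _ _ => z) g) 495))

/-- ranges -/
noncomputable def okX (tA tB : GT) (x : ℕ × ℕ) : Bool :=
  force x.1 fun j => force (xG x.2) fun g => force (xT x.2) fun t =>
    Nat.blt (xP x.2) 12 && (Nat.testBit (Tab.tv j) (Nat.add 495 (xP x.2)) &&
      Nat.blt (xI x.2) ((trX tA tB t).sel (fun _ N _ => N) g))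

/-- the check of `N` records -/
noncomputable def recX (tA tB : GT) (N : ℕ) (xs : List (ℕ × ℕ)) : Bool :=
  Nat.beq xs.length N && (xs.all (okX tA tB) &&
    Nat.beq (runN (rep 512 N) net (packL 512 (xs.map fun x => rC x.2))
      (packL 512 (xs.map startX))) (packL 512 (xs.map (endX tA tB))))

/-- a table entry -/
def EntX (tA tB : GT) (E : Finset (Finset (Fin 13))) : Prop :=
  ∃ t < 2, ∃ g ∈ (trX tA tB t).toL [], ∃ i < g.2.1, link E 11 = fam 11 3 (tyX t) ∧
    enc 11 4 E = fld 576 g.2.2 i % 2 ^ 330 ∧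
    ∀ q : Fin 13, q ≠ 12 → q ≠ 11 → (link E q).card = 19 → g.1.testBit q.val = true

theorem tv_eq (j : ℕ) : Tab.rp j < 2 ^ 495 ∧
    Tab.tv j = code (fam 12 4 (Tab.rp j)) (zs (fam 12 4 (Tab.rp j))) := by
  obtain ⟨D, h1, -, h3⟩ := Tab.tv_good j
  have h4 : Tab.rp j = enc 12 4 D := by
    unfold Tab.rp
    rw [h3, code_mod]
  have h5 : fam 12 4 (Tab.rp j) = D := by
    rw [h4, fam_enc (by norm_num) (fun s hs => ?_)]
    have h6 := h1.1 s hs
    refine ⟨mk_lt_iff.2 fun a ha => ?_, h6.2⟩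
    have h7 := h6.1 ha
    rwa [Pool.Agent.Helper79.CV.mem_below] at h7
  exact ⟨by rw [h4]; exact enc_lt 12 4 D, by rw [h5]; exact h3⟩

theorem enc12_erase {S : Finset (Finset (Fin 13))} {p : Fin 13} (hp : p.val < 12)
    (hS : {p} ∈ S) {i : ℕ} : (enc 12 1 (S.erase {p})).testBit i =
      ((enc 12 1 S).testBit i ^^ decide (p.val = i)) := by
  by_cases hi : i < 12
  · rw [testBit_enc _ (by rw [length_L]; exact hi), testBit_enc _ (by rw [length_L]; exact hi),
      getElem_L_one i hi]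
    have e := Pool.Agent.Helper7.TY.ofMask_two_pow ⟨i, by omega⟩
    have e' : ofMask (2 ^ i) = {(⟨i, by omega⟩ : Fin 13)} := e
    rw [e']
    by_cases hq : p.val = i
    · have h1 : (⟨i, by omega⟩ : Fin 13) = p := Fin.ext hq.symm
      rw [h1, decide_eq_true hq, decide_eq_true hS, decide_eq_false (notMem_erase _ _)]
      rfl
    · have h1 : ({(⟨i, by omega⟩ : Fin 13)} : Finset (Fin 13)) ≠ {p} := by
        intro h2
        rw [singleton_inj] at h2
        exact hq (congrArg Fin.val h2).symm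
      rw [decide_eq_false hq, Bool.xor_false, decide_eq_decide, mem_erase]
      exact ⟨fun h => h.2, fun h => ⟨h1, h⟩⟩
  · have hc : (L 12 1).length ≤ i := by
      rw [length_L]
      show 12 ≤ i
      omega
    rw [testBit_enc_ge _ hc, testBit_enc_ge _ hc, decide_eq_false (by omega)]
    rfl

theorem code_xor {D S : Finset (Finset (Fin 13))} {p : Fin 13} (hp : p.val < 12)
    (hS : {p} ∈ S) : code D S ^^^ (1 <<< (495 + p.val)) = code D (S.erase {p}) := by
  refine Nat.eq_of_testBit_eq fun j => ?_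
  rw [Nat.testBit_xor, Nat.shiftLeft_eq, one_mul, Nat.testBit_two_pow, testBit_code, testBit_code]
  by_cases hj : j < 495
  · rw [if_pos hj, if_pos hj, decide_eq_false (by omega), Bool.xor_false]
  · rw [if_neg hj, if_neg hj, enc12_erase hp hS]
    congr 2
    exact propext (by omega)

theorem mapF_erase' (σ : Equiv.Perm (Fin 13)) (S : Finset (Finset (Fin 13)))
    (s : Finset (Fin 13)) : mapF σ (S.erase s) = (mapF σ S).erase (mapS σ s) := by
  ext t
  rw [mem_mapF', mem_erase, mem_erase, mem_mapF']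
  have h1 : mapS σ.symm t ≠ s ↔ t ≠ mapS σ s := by
    constructor
    · intro h h2
      exact h (by rw [h2, mapS_symm_mapS])
    · intro h h2
      exact h (by rw [← h2, mapS_mapS_symm])
  rw [h1]

theorem card_tyX (t : ℕ) : (fam 11 3 (tyX t)).card = 19 := by
  have h : ∀ T, T < 2 ^ 165 → popR T = 19 → (fam 11 3 T).card = 19 := by
    intro T hT h1
    rw [card_eq_pop (n := 11) (k := 3) (by norm_num) (fun s hs => sub_of_mem_fam (by norm_num) hs),
      enc_fam (by norm_num) (by exact hT), ← popR_eq_pop, h1]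
  unfold tyX
  cases Nat.beq t 0
  · exact h repB repB_lt (by decide +kernel)
  · exact h repA repA_lt (by decide +kernel)

theorem tyX_lt (t : ℕ) : tyX t < 2 ^ 165 := by
  unfold tyX
  cases Nat.beq t 0
  · exact repB_lt
  · exact repA_lt

theorem recX_sound {tA tB : GT} (hA : tA.All GOK) (hB : tB.All GOK) {N : ℕ} {xs : List (ℕ × ℕ)}
    (h : recX tA tB N xs = true) : ∀ x ∈ xs, ∃ p : Fin 13, p.val = xP x.2 ∧
      ∃ ψ : Equiv.Perm (Fin 13), ψ 12 = 12 ∧ ψ p = 11 ∧
        EntX tA tB (mapF ψ (fam 12 4 (Tab.rp x.1))) := by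
  unfold recX at h
  rw [Bool.and_eq_true, Bool.and_eq_true, Nat.beq_eq, Nat.beq_eq, List.all_eq_true] at h
  obtain ⟨h1, h2, h3⟩ := h
  have hok : ∀ y ∈ xs, xP y.2 < 12 ∧ (Tab.tv y.1).testBit (495 + xP y.2) = true ∧
      xI y.2 < ((trX tA tB (xT y.2)).sel (fun _ N _ => N) (xG y.2)) := by
    intro y hy
    have h4 := h2 y hy
    unfold okX at h4
    rw [force_eq, force_eq, force_eq, Bool.and_eq_true, Bool.and_eq_true, Nat.blt_eq,
      Nat.blt_eq] at h4
    exact h4
  have hT : ∀ t, (trX tA tB t).All GOK := by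
    intro t
    unfold trX
    cases Nat.beq t 0
    · exact hB
    · exact hA
  have hval : ∀ y : ℕ × ℕ, ∃ g ∈ (trX tA tB (xT y.2)).toL [],
      (∀ f : ℕ → ℕ → ℕ → ℕ, (trX tA tB (xT y.2)).sel f (xG y.2) = f g.1 g.2.1 g.2.2) ∧
      endX tA tB y = fld 576 g.2.2 (xI y.2) % 2 ^ 330 + (tyX (xT y.2) * 2 ^ 330 + g.1 * 2 ^ 495) ∧
      g.1 < 2048 := by
    intro y
    obtain ⟨g, hg, hf⟩ := (trX tA tB (xT y.2)).exists_leaf (xG y.2)
    refine ⟨g, hg, hf, ?_, (GT.of_all (hT _) g hg).1⟩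
    have e : endX tA tB y = (((trX tA tB (xT y.2)).sel (fun _ _ X => X) (xG y.2)) >>>
        (576 * xI y.2) &&& (2 ^ 330 - 1)) + (tyX (xT y.2) <<< 330 +
          ((trX tA tB (xT y.2)).sel (fun z _ _ => z) (xG y.2)) <<< 495) := by
      unfold endX
      rw [force_eq, force_eq]
      rfl
    rw [e, hf, hf, Nat.and_two_pow_sub_one_eq_mod, Nat.shiftLeft_eq, Nat.shiftLeft_eq]
    congr 1
    unfold fld
    rw [Nat.shiftRight_eq_div_pow, Nat.mod_mod_of_dvd _ (pow_dvd_pow 2 (by norm_num))]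
  have hend : ∀ y ∈ xs.map (endX tA tB), y < 2 ^ 512 := by
    intro a ha
    obtain ⟨y, -, rfl⟩ := List.mem_map.1 ha
    obtain ⟨g, -, -, e, hz⟩ := hval y
    rw [e]
    have c1 : fld 576 g.2.2 (xI y.2) % 2 ^ 330 < 2 ^ 330 := Nat.mod_lt _ (Nat.two_pow_pos _)
    have c2 := tyX_lt (xT y.2)
    have c3 : tyX (xT y.2) * 2 ^ 330 + 2 ^ 330 ≤ 2 ^ 495 := by
      calc tyX (xT y.2) * 2 ^ 330 + 2 ^ 330 = (tyX (xT y.2) + 1) * 2 ^ 330 := by ring
        _ ≤ 2 ^ 165 * 2 ^ 330 := Nat.mul_le_mul_right _ c2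
        _ = 2 ^ 495 := (pow_add 2 165 330).symm
    have c4 : g.1 * 2 ^ 495 ≤ 2047 * 2 ^ 495 := Nat.mul_le_mul_right _ (by omega)
    have c5 : (2 : ℕ) ^ 495 + 2047 * 2 ^ 495 < 2 ^ 512 := by decide +kernel
    omega
  have hstart : ∀ y ∈ xs, ∃ p : Fin 13, p.val = xP y.2 ∧
      startX y = code (fam 12 4 (Tab.rp y.1)) ((zs (fam 12 4 (Tab.rp y.1))).erase {p}) ∧
      {p} ∈ zs (fam 12 4 (Tab.rp y.1)) := by
    intro y hy
    obtain ⟨c1, c2, -⟩ := hok y hy
    obtain ⟨d1, d2⟩ := tv_eq y.1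
    refine ⟨⟨xP y.2, by omega⟩, rfl, ?_⟩
    have c3 : ({(⟨xP y.2, by omega⟩ : Fin 13)} : Finset (Fin 13)) ∈ zs (fam 12 4 (Tab.rp y.1)) := by
      rw [d2, testBit_code_zs _ c1, decide_eq_true_eq] at c2
      exact singleton_mem_zs.2 ⟨c1, c2⟩
    refine ⟨?_, c3⟩
    rw [← code_xor (p := ⟨xP y.2, by omega⟩) c1 c3, ← d2]
    unfold startX
    rw [force_eq]
    rfl
  have hst : ∀ a ∈ xs.map startX, a < 2 ^ 512 := by
    intro a ha
    obtain ⟨y, hy, rfl⟩ := List.mem_map.1 ha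
    obtain ⟨p, -, e, -⟩ := hstart y hy
    rw [e]
    exact lt_of_lt_of_le (code_lt _ _) (Nat.pow_le_pow_right (by norm_num) (by norm_num))
  intro x hx
  obtain ⟨k, hk, hkx⟩ := List.mem_iff_getElem.1 hx
  obtain ⟨p, hp, e1, hpz⟩ := hstart x hx
  obtain ⟨g, hg, hf, e2, hz⟩ := hval x
  obtain ⟨c1, -, c3⟩ := hok x hx
  have hX : fld 512 (packL 512 (xs.map startX)) k =
      code (fam 12 4 (Tab.rp x.1)) ((zs (fam 12 4 (Tab.rp x.1))).erase {p}) := by
    rw [fld_packL hst (by rw [List.length_map]; exact hk), List.getElem_map, hkx, e1]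
  obtain ⟨ψ, hψ, h5⟩ := net_sound (P := packL 512 (xs.map fun x => rC x.2)) (N := N) (i := k)
    (by rw [← h1]; exact hk) hX
  rw [h3, fld_packL hend (by rw [List.length_map]; exact hk), List.getElem_map, hkx, e2,
    mapF_erase', mapS_singleton, zs_mapF hψ] at h5
  set E := mapF ψ (fam 12 4 (Tab.rp x.1)) with hE
  set e := fld 576 g.2.2 (xI x.2) % 2 ^ 330 with he
  set T := tyX (xT x.2) with hTt
  have he' : e < 2 ^ 330 := Nat.mod_lt _ (Nat.two_pow_pos _)
  have hTlt : T < 2 ^ 165 := tyX_lt _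
  have hTe : T * 2 ^ 330 + e < 2 ^ 495 := by
    calc T * 2 ^ 330 + e < T * 2 ^ 330 + 2 ^ 330 := by omega
      _ = (T + 1) * 2 ^ 330 := by ring
      _ ≤ 2 ^ 165 * 2 ^ 330 := Nat.mul_le_mul_right _ hTlt
      _ = 2 ^ 495 := (pow_add 2 165 330).symm
  have hcode : 2 ^ 495 * enc 12 1 ((zs E).erase {ψ p}) + enc 12 4 E =
      2 ^ 495 * g.1 + (T * 2 ^ 330 + e) := by
    have h6 : code E ((zs E).erase {ψ p}) = e + (T * 2 ^ 330 + g.1 * 2 ^ 495) := h5.symm
    unfold code at h6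
    rw [h6]
    ring
  have hlt4 : enc 12 4 E < 2 ^ 495 := enc_lt 12 4 E
  have f1 : enc 12 4 E = T * 2 ^ 330 + e := by
    have := congrArg (fun v => v % 2 ^ 495) hcode
    simpa only [Nat.mul_add_mod, Nat.mod_eq_of_lt hlt4, Nat.mod_eq_of_lt hTe] using this
  have f2 : enc 12 1 ((zs E).erase {ψ p}) = g.1 := by
    have := congrArg (fun v => v / 2 ^ 495) hcode
    simpa only [Nat.mul_add_div (Nat.two_pow_pos 495), Nat.div_eq_of_lt hlt4,
      Nat.div_eq_of_lt hTe, Nat.add_zero] using this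
  have hsub : ∀ s ∈ E, Sub 12 4 s := by
    intro s hs
    rw [hE, mem_mapF'] at hs
    have h9 := (keeps_of_fix hψ).sub (sub_of_mem_fam (by norm_num) hs)
    rwa [mapS_mapS_symm] at h9
  have f3 : E = fam 12 4 (T * 2 ^ 330 + e) := by
    rw [← f1, fam_enc (by norm_num) hsub]
  obtain ⟨f4, -⟩ := link_fam_last hTlt he'
  rw [← f3] at f4
  have hbit : ∀ q : Fin 13, q.val < 12 → (g.1.testBit q.val = true ↔
      ({q} ≠ ({ψ p} : Finset (Fin 13)) ∧ (link E q).card = 19)) := by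
    intro q hq
    rw [← f2, testBit_enc _ (by rw [length_L]; exact hq), getElem_L_one q.val hq,
      Pool.Agent.Helper7.TY.ofMask_two_pow q, decide_eq_true_eq, mem_erase, singleton_mem_zs]
    exact ⟨fun h => ⟨h.1, h.2.2⟩, fun h => ⟨h.1, hq, h.2⟩⟩
  have h11 : (link E 11).card = 19 := by
    rw [f4]
    exact card_tyX _
  have hψp : ψ p = 11 := by
    by_contra hne
    have h6 := (hbit 11 (by decide)).2 ⟨fun h7 => hne (singleton_inj.1 h7).symm, h11⟩
    have h7 : g.1.testBit (11 : Fin 13).val = false :=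
      Nat.testBit_lt_two_pow (lt_of_lt_of_le hz (by decide))
    rw [h7] at h6
    exact Bool.false_ne_true h6
  refine ⟨p, hp, ψ, hψ, hψp, xT x.2, ?_, g, hg, xI x.2, ?_, f4, ?_, ?_⟩
  · have h6 : xT x.2 ≤ 1 := Nat.and_le_right
    omega
  · have h6 := hf fun _ N _ => N
    rw [h6] at c3
    exact c3
  · have h6 := enc_mod 11 3 E
    have h7 : enc 12 4 E % 2 ^ 330 = enc 11 4 E := h6
    rw [← h7, f1, Nat.mul_comm, Nat.mul_add_mod, Nat.mod_eq_of_lt he']
  · intro q hq12 hq11 hc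
    have hq : q.val < 12 := by
      have h6 : q.val ≠ 12 := fun h6 => hq12 (Fin.ext h6)
      omega
    refine (hbit q hq).2 ⟨fun h7 => hq11 ?_, hc⟩
    rw [singleton_inj.1 h7, hψp]

/-! ## statements -/

/-- every flag of a class with 60 members (with `RX`) is carried to a table entry -/
def FlagOK (tA tB : GT) (D : Finset (Finset (Fin 13))) : Prop :=
  D.card = 60 → ∀ p : Fin 13, p ≠ 12 → (link D p).card = 19 → RX D p →
    ∃ ψ : Equiv.Perm (Fin 13), ψ 12 = 12 ∧ ψ p = 11 ∧ EntX tA tB (mapF ψ D)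

/-- `S` is the list of the chunks of the groups whose zero mask contains `P1` -/
noncomputable def selEq (P1 : ℕ) (gl : List (ℕ × ℕ × ℕ)) : List (ℕ × ℕ) → Bool :=
  List.rec (motive := fun _ => List (ℕ × ℕ) → Bool)
    (fun S => List.rec (motive := fun _ => Bool) true (fun _ _ _ => false) S)
    (fun g _ ih S => cond (Nat.beq (Nat.land g.1 P1) P1)
      (List.rec (motive := fun _ => Bool) false
        (fun q S' _ => Nat.beq q.1 g.2.1 && (Nat.beq q.2 g.2.2 && ih S')) S)
      (ih S)) gl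

/-- the lists belonging to the lights `P` -/
noncomputable def plChk (gl : List (ℕ × ℕ × ℕ)) (P : ℕ) (ws : List (ℕ × ℕ)) :
    List ((ℕ × ℕ) × ℕ × List (ℕ × ℕ)) → Bool :=
  List.rec (motive := fun _ => List ((ℕ × ℕ) × ℕ × List (ℕ × ℕ)) → Bool)
    (fun pl => List.rec (motive := fun _ => Bool) true (fun _ _ _ => false) pl)
    (fun w _ ih pl => List.rec (motive := fun _ => Bool) false
      (fun e pl' _ => Nat.beq w.1 e.1.1 && (Nat.beq w.2 e.1.2 &&
        (Nat.beq (ptK w.1 w.2 P) e.2.1 && (selEq e.2.1 gl e.2.2 && ih pl')))) pl) ws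

/-- the automorphisms of the type -/
def wsX (t : ℕ) : List (ℕ × ℕ) := cond (Nat.beq t 0) wsA wsB

end Pool.Agent.Helper74.TY
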