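import Pool.Agent.Helper91.TY.Run

/-!
MP_8ee768_co, project TH-Y': words of adjacent transpositions, two additions to helper91's `Run`:
the action of a word on the mask of a set of points (`ptK`) and the inverse word (`run4R`).
-/

set_option autoImplicit false

namespace Pool.Agent.Helper74.TY

open Finset
open Pool.Agent.Helper63.SIMD
open Pool.Agent.Helper97.CV
open Pool.Agent.Helper79.CV
open Pool.Agent.Helper33.CV
open Pool.Agent.Helper91.TY

theorem swp_val {a : ℕ} (ha : a < 12) (b : Fin 13) :
    (swp a b).val = if b.val = a then a + 1 else if b.val = a + 1 then a else b.val := by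
  unfold swp
  rw [dif_pos (by omega)]
  by_cases h1 : b.val = a
  · have h2 : b = ⟨a, by omega⟩ := Fin.ext h1
    rw [if_pos h1, h2, Equiv.swap_apply_left]
  · rw [if_neg h1]
    by_cases h2 : b.val = a + 1
    · have h3 : b = ⟨a + 1, by omega⟩ := Fin.ext h2
      rw [if_pos h2, h3, Equiv.swap_apply_right]
    · rw [if_neg h2, Equiv.swap_apply_of_ne_of_ne (fun e => h1 (congrArg Fin.val e))
        (fun e => h2 (congrArg Fin.val e))]

/-- the exchange of the bits `a`, `a + 1` of a mask of points -/
def ptA (a m : ℕ) : ℕ :=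
  dswap2 1 m (Nat.land (Nat.xor (Nat.shiftRight m 1) m) (Nat.shiftLeft 1 a))

theorem ptA_eq (a m : ℕ) : ptA a m = dswap 1 (2 ^ a) m := by
  have h : Nat.shiftLeft 1 a = 2 ^ a := Nat.one_shiftLeft a
  unfold ptA
  rw [h]
  rfl

theorem mk_swp {a : ℕ} (ha : a < 12) (s : Finset (Fin 13)) :
    mk (mapS (swp a) s) = ptA a (mk s) := by
  rw [ptA_eq]
  have hd : 2 ^ a &&& (2 ^ a <<< 1) = 0 := by
    refine Nat.eq_of_testBit_eq fun j => ?_
    rw [Nat.testBit_and, Nat.shiftLeft_eq, ← pow_add, Nat.testBit_two_pow, Nat.testBit_two_pow,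
      Nat.zero_testBit]
    by_cases h : a = j
    · simp [h]
    · simp [h]
  refine Nat.eq_of_testBit_eq fun j => ?_
  rw [testBit_dswap_src hd]
  have hsrc : src 1 (2 ^ a) j = if j = a then a + 1 else if j = a + 1 then a else j := by
    unfold src
    rw [Nat.testBit_two_pow, Nat.testBit_two_pow]
    by_cases h1 : a = j
    · rw [decide_eq_true h1, cond_true, if_pos h1.symm]
      omega
    · rw [decide_eq_false h1, cond_false, if_neg (fun e => h1 e.symm)]
      by_cases h2 : j = a + 1
      · have h3 : a = j - 1 := by omega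
        have h4 : Nat.ble 1 j = true := by rw [Nat.ble_eq]; omega
        rw [decide_eq_true h3, h4, Bool.and_true, cond_true, if_pos h2]
        omega
      · rw [if_neg h2]
        by_cases h5 : a = j - 1
        · have h6 : j = 0 := by omega
          subst h6
          rfl
        · rw [decide_eq_false h5, Bool.and_false, cond_false]
  rw [hsrc]
  by_cases hj : j < 13
  · have h1 := testBit_mk (mapS (swp a) s) ⟨j, hj⟩
    have h2 : ((⟨j, hj⟩ : Fin 13) ∈ mapS (swp a) s) = (swp a ⟨j, hj⟩ ∈ s) := by
      rw [mem_mapS', swp_symm]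
    have h3 := testBit_mk s (swp a ⟨j, hj⟩)
    rw [swp_val ha] at h3
    simp only at h1 h3
    rw [h1, h3]
    simp only [h2]
  · rw [testBit_mk_ge _ (by omega)]
    have h1 : (if j = a then a + 1 else if j = a + 1 then a else j) = j := by
      rw [if_neg (by omega), if_neg (by omega)]
    rw [h1, testBit_mk_ge _ (by omega)]

/-- a word on a mask of points -/
def ptK (len w m : ℕ) : ℕ := @Nat.rec (fun _ => ℕ) m (fun i ih => ptA (dig w i) ih) len

theorem wp_snoc (w : List ℕ) (a : ℕ) : wp (w ++ [a]) = swp a * wp w := by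
  rw [wp_append]
  have h : wp [a] = swp a := one_mul _
  rw [h]

theorem ptK_eq {len w : ℕ} (hw : ∀ a ∈ digs w len, a < 12) (s : Finset (Fin 13)) :
    ptK len w (mk s) = mk (mapS (wp (digs w len)) s) := by
  induction len with
  | zero =>
    show mk s = mk (mapS 1 s)
    rw [mapS_one]
  | succ len ih =>
    have h1 : dig w len < 12 := hw _ (by
      show dig w len ∈ digs w len ++ [dig w len]
      exact List.mem_append_right _ (List.mem_singleton.2 rfl))
    have h2 : digs w (len + 1) = digs w len ++ [dig w len] := rfl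
    rw [h2, wp_snoc, mapS_mul, mk_swp h1,
      ← ih (fun a ha => hw a (List.mem_append_left _ ha))]
    rfl

theorem wp_reverse (w : List ℕ) : wp w.reverse = (wp w)⁻¹ := by
  induction w with
  | nil => exact inv_one.symm
  | cons a w ih =>
    rw [List.reverse_cons, wp_snoc, ih]
    show _ = (wp w * swp a)⁻¹
    rw [mul_inv_rev]
    congr 1
    exact (swp_symm a).symm

/-- the inverse word on all lanes -/
noncomputable def run4R (len w R X : ℕ) : ℕ :=
  @Nat.rec (fun _ => ℕ → ℕ) (fun X => X) (fun i ih X => ih (k4 R (dig w i) X)) len X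

theorem fld_run4R {W N : ℕ} (hW : 330 ≤ W) {len w : ℕ} (hw : ∀ a ∈ digs w len, a < 10) (X : ℕ)
    {i : ℕ} (hi : i < N) :
    fld W (run4R len w (rep W N) X) i = runW tab4 (digs w len).reverse (fld W X i) := by
  induction len generalizing X with
  | zero => rfl
  | succ len ih =>
    have h1 : dig w len < 10 := hw _ (by
      show dig w len ∈ digs w len ++ [dig w len]
      exact List.mem_append_right _ (List.mem_singleton.2 rfl))
    show fld W (run4R len w (rep W N) (k4 (rep W N) (dig w len) X)) i =
      runW tab4 (digs w len ++ [dig w len]).reverse (fld W X i)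
    rw [ih (fun a ha => hw a (List.mem_append_left _ ha)), k4_eq _ h1,
      fld_appP (okEx_mono (by rw [choose_4]; exact hW) (okEx_of_chk (chk_tab4 _ h1))) hi,
      List.reverse_append]
    rfl

theorem fld_run4R_enc {W N : ℕ} (hW : 330 ≤ W) {len w : ℕ} (hw : ∀ a ∈ digs w len, a < 10) (X : ℕ)
    {i : ℕ} (hi : i < N) {D : Finset (Finset (Fin 13))} (hD : fld W X i = enc 11 4 D) :
    fld W (run4R len w (rep W N) X) i = enc 11 4 (mapF (wp (digs w len))⁻¹ D) := by
  rw [fld_run4R hW hw X hi, hD, ← wp_reverse, enc_wp (by norm_num) (tab := tab4)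
    (fun a ha => chk_tab4 a (hw a (List.mem_reverse.1 ha)))]

/-- all digits of a word are small -/
def okW (b len w : ℕ) : Bool :=
  @Nat.rec (fun _ => Bool) true (fun i ih => cond (Nat.blt (dig w i) b) ih false) len

theorem okW_iff {b len w : ℕ} (h : okW b len w = true) : ∀ a ∈ digs w len, a < b := by
  induction len with
  | zero =>
    intro a ha
    exact absurd ha List.not_mem_nil
  | succ len ih =>
    have h' : cond (Nat.blt (dig w len) b) (okW b len w) false = true := h
    intro a ha
    have h2 : a ∈ digs w len ++ [dig w len] := ha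
    by_cases h3 : Nat.blt (dig w len) b = true
    · rw [h3, cond_true] at h'
      rcases List.mem_append.1 h2 with h4 | h4
      · exact ih h' a h4
      · rw [List.mem_singleton.1 h4]
        rwa [Nat.blt_eq] at h3
    · rw [Bool.not_eq_true] at h3
      rw [h3, cond_false] at h'
      exact Bool.noConfusion h'

end Pool.Agent.Helper74.TY
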