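import Pool.Agent.Helper74.TY.XRoot
import Pool.Agent.Helper74.TY.XWord
import Pool.Agent.Helper74.TY.XExt
import Pool.Agent.Helper82.TY.Bd
import Pool.Agent.Helper67.TY.Root

/-!
MP_8ee768_co, project TH-Y': stage X, the list of the candidates for the link of the point 11.

The root (code `c`, lights `{8, 9, 10}`) is moved into the frame of the table of the type `T` by the
word `v` and by every automorphism of `T` (list `ws` of words); the pair test `xf` runs on the groups
of the table whose zero mask contains the three lights; the alive lanes are moved back.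
-/

set_option autoImplicit false

namespace Pool.Agent.Helper74.TY

open Finset
open Pool.Agent.Helper63.SIMD
open Pool.Agent.Helper89.CV (OddCover ofMask)
open Pool.Agent.Helper97.CV
open Pool.Agent.Helper4.CV
open Pool.Agent.Helper79.CV
open Pool.Agent.Helper33.CV
open Pool.Agent.Helper91.TY
open Pool.Agent.Helper82.TY (below)

/-- soundness of a pair test `xf D P N X` in the frame `x = 12`, `y = 11` (lights `P`, root code
`D`, packed lanes `X` of width `W`): the lane of the actual link of 11 is alive -/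
def XFSound (W : ℕ) (ok : ℕ → Prop) (xf : ℕ → ℕ → ℕ → ℕ → ℕ) : Prop :=
  ∀ (B : Finset (Finset (Fin 13))) (Y : Finset (Fin 13)) (D P N X i : ℕ), XVec B 12 Y →
    (11 : Fin 13) ∈ Y → P = mk (Y.erase 11) → link B 12 = fam 12 4 D → D < 2 ^ 495 → i < N →
    enc 11 4 (link B 11) = fld W X i % 2 ^ 330 → ok (fld W X i) →
    (xf D P N X).testBit (W * i) = true

/-- completeness of a table with 60 blocks for the type `T`: words `ws` of automorphisms, groups
`(z, N, X)`; the zero points of an entry are in the mask `z` -/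
def XTab (W : ℕ) (ok : ℕ → Prop) (T : ℕ) (ws : List (ℕ × ℕ)) (gr : List (ℕ × ℕ × ℕ)) : Prop :=
  ∀ D : Finset (Finset (Fin 13)), OddFam 3 (below 12) D → link D 11 = fam 11 3 T → D.card = 60 →
    ∃ a ∈ ws, mapF (wp (digs a.2 a.1)) (fam 11 3 T) = fam 11 3 T ∧ ∃ g ∈ gr, ∃ i < g.2.1,
      enc 11 4 (mapF (wp (digs a.2 a.1)) D) = fld W g.2.2 i % 2 ^ 330 ∧ ok (fld W g.2.2 i) ∧
      ∀ p : Fin 13, p.val < 11 → (link (mapF (wp (digs a.2 a.1)) D) p).card = 19 →
        g.1.testBit p.val = true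

/-- the groups -/
def grpF (W : ℕ) (xf : ℕ → ℕ → ℕ → ℕ → ℕ) (D P : ℕ) (κ : ℕ → ℕ → Bool) :
    List (ℕ × ℕ × ℕ) → ℕ → ℕ → Bool
  | [], k, a => κ k a
  | g :: gs, k, a => cond (Nat.beq (Nat.land g.1 P) P)
      (frc (xf D P g.2.1 g.2.2) fun Z =>
        ext W (2 ^ 330 - 1) (2 ^ W - 1) g.2.2 (grpF W xf D P κ gs) (Nat.succ g.2.1) Z k a)
      (grpF W xf D P κ gs k a)

theorem grpF_sound {W : ℕ} (hW : 330 < W) {xf : ℕ → ℕ → ℕ → ℕ → ℕ} {D P : ℕ}
    {κ : ℕ → ℕ → Bool} : ∀ {gs : List (ℕ × ℕ × ℕ)} {k a : ℕ}, a < 2 ^ (W * k) →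
      grpF W xf D P κ gs k a = true →
      ∃ k' a', a' < 2 ^ (W * k') ∧ κ k' a' = true ∧ k ≤ k' ∧ (∀ i < k, fld W a' i = fld W a i) ∧
        ∀ g ∈ gs, g.1 &&& P = P → ∀ i, (xf D P g.2.1 g.2.2).testBit (W * i) = true →
          ∃ j < k', fld W a' j = fld W g.2.2 i % 2 ^ 330 := by
  intro gs
  induction gs with
  | nil =>
    intro k a ha h
    exact ⟨k, a, ha, h, le_rfl, fun _ _ => rfl, fun g hg => absurd hg List.not_mem_nil⟩
  | cons g gs ih =>
    intro k a ha h
    have h' : cond (Nat.beq (Nat.land g.1 P) P)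
      (frc (xf D P g.2.1 g.2.2) fun Z =>
        ext W (2 ^ 330 - 1) (2 ^ W - 1) g.2.2 (grpF W xf D P κ gs) (Nat.succ g.2.1) Z k a)
      (grpF W xf D P κ gs k a) = true := h
    by_cases hz : g.1 &&& P = P
    · have h1 : Nat.beq (Nat.land g.1 P) P = true := by
        rw [Nat.beq_eq]
        exact hz
      rw [h1, cond_true, frc_eq] at h'
      obtain ⟨k1, a1, b1, b2, b3, b4, b5⟩ := ext_sound hW ha h'
      obtain ⟨k2, a2, c1, c2, c3, c4, c5⟩ := ih b1 b2
      refine ⟨k2, a2, c1, c2, by omega, fun i hi => ?_, ?_⟩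
      · rw [c4 i (by omega), b4 i hi]
      · intro g' hg' hz' i hi
        rcases List.mem_cons.1 hg' with rfl | hg'
        · obtain ⟨j, hj, hj'⟩ := b5 i hi
          exact ⟨j, by omega, by rw [c4 j hj, hj']⟩
        · exact c5 g' hg' hz' i hi
    · have h1 : Nat.beq (Nat.land g.1 P) P = false := by
        rw [← Bool.not_eq_true, Nat.beq_eq]
        exact hz
      rw [h1, cond_false] at h'
      obtain ⟨k2, a2, c1, c2, c3, c4, c5⟩ := ih ha h'
      refine ⟨k2, a2, c1, c2, c3, c4, fun g' hg' hz' => ?_⟩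
      rcases List.mem_cons.1 hg' with rfl | hg'
      · exact absurd hz' hz
      · exact c5 g' hg' hz'

/-- the automorphisms -/
noncomputable def autF (W : ℕ) (xf : ℕ → ℕ → ℕ → ℕ → ℕ) (gr : List (ℕ × ℕ × ℕ)) (T lv v E P : ℕ)
    (κ : List (ℕ × ℕ) → Bool) : List (ℕ × ℕ) → List (ℕ × ℕ) → Bool
  | [], out => κ out
  | w :: ws, out =>
    cond (okW 10 w.1 w.2)
      (frc (run4 w.1 w.2 1 E) fun E1 => frc (Nat.add E1 (Nat.shiftLeft T 330)) fun D1 =>
        frc (ptK w.1 w.2 P) fun P1 =>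
          grpF W xf D1 P1 (fun k a => frc (rep W k) fun R =>
            frc (run4R w.1 w.2 R a) fun a1 => frc (run4R lv v R a1) fun a2 =>
              autF W xf gr T lv v E P κ ws ((k, a2) :: out)) gr 0 0) false

/-- the list of the candidates for the link of 11 -/
noncomputable def xList (W : ℕ) (xf : ℕ → ℕ → ℕ → ℕ → ℕ) (gr : List (ℕ × ℕ × ℕ)) (T : ℕ)
    (ws : List (ℕ × ℕ)) (c lv v : ℕ) (κ : List (ℕ × ℕ) → Bool) : Bool :=
  cond (okW 10 lv v)
    (cond (Nat.beq (run3 lv v 1 (Nat.shiftRight c 330)) T)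
      (frc (run4 lv v 1 (Nat.mod c (2 ^ 330))) fun E => frc (ptK lv v 1792) fun P =>
        autF W xf gr T lv v E P κ ws []) false) false

theorem autF_sound {W : ℕ} (hW : 330 < W) {xf : ℕ → ℕ → ℕ → ℕ → ℕ} {gr : List (ℕ × ℕ × ℕ)}
    {T lv v E P : ℕ} (hv : ∀ a ∈ digs v lv, a < 10) {κ : List (ℕ × ℕ) → Bool} :
    ∀ {ws out : List (ℕ × ℕ)}, autF W xf gr T lv v E P κ ws out = true →
      ∃ out', κ out' = true ∧ (∀ p ∈ out, p ∈ out') ∧ ∀ w ∈ ws, (∀ a ∈ digs w.2 w.1, a < 10) ∧
        ∃ p ∈ out', ∀ g ∈ gr, g.1 &&& ptK w.1 w.2 P = ptK w.1 w.2 P → ∀ i,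
          (xf (run4 w.1 w.2 1 E + T <<< 330) (ptK w.1 w.2 P) g.2.1 g.2.2).testBit (W * i) = true →
            ∃ j < p.1, fld W p.2 j = runW tab4 (digs v lv).reverse
              (runW tab4 (digs w.2 w.1).reverse (fld W g.2.2 i % 2 ^ 330)) := by
  intro ws
  induction ws with
  | nil =>
    intro out h
    exact ⟨out, h, fun _ h => h, fun w hw => absurd hw List.not_mem_nil⟩
  | cons w ws ih =>
    intro out h
    have h' : cond (okW 10 w.1 w.2)
      (frc (run4 w.1 w.2 1 E) fun E1 => frc (Nat.add E1 (Nat.shiftLeft T 330)) fun D1 =>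
        frc (ptK w.1 w.2 P) fun P1 =>
          grpF W xf D1 P1 (fun k a => frc (rep W k) fun R =>
            frc (run4R w.1 w.2 R a) fun a1 => frc (run4R lv v R a1) fun a2 =>
              autF W xf gr T lv v E P κ ws ((k, a2) :: out)) gr 0 0) false = true := h
    by_cases hk : okW 10 w.1 w.2 = true
    swap
    · rw [Bool.not_eq_true] at hk
      rw [hk, cond_false] at h'
      exact Bool.noConfusion h'
    have hw := okW_iff hk
    rw [hk, cond_true, frc_eq, frc_eq, frc_eq] at h'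
    obtain ⟨k', a', b1, b2, -, -, b5⟩ := grpF_sound hW (k := 0) (a := 0)
      (by rw [Nat.mul_zero, pow_zero]; exact Nat.one_pos) h'
    rw [frc_eq, frc_eq, frc_eq] at b2
    obtain ⟨out', c1, c2, c3⟩ := ih b2
    refine ⟨out', c1, fun p hp => c2 p (List.mem_cons_of_mem _ hp), fun w' hw' => ?_⟩
    rcases List.mem_cons.1 hw' with rfl | hw'
    · refine ⟨hw, _, c2 _ List.mem_cons_self, fun g hg hz i hi => ?_⟩
      obtain ⟨j, hj, hj'⟩ := b5 g hg hz i hi
      refine ⟨j, hj, ?_⟩
      rw [fld_run4R (by omega) hv _ hj, fld_run4R (by omega) hw _ hj, hj']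
    · exact c3 w' hw'

theorem rep_one {W : ℕ} (hW : 0 < W) : rep W 1 = 1 := by
  unfold rep
  rw [mul_one]
  have h : 2 ^ 1 ≤ 2 ^ W := Nat.pow_le_pow_right (by norm_num) hW
  exact Nat.div_self (by omega)

theorem fld_zero_of_lt {W a : ℕ} (h : a < 2 ^ W) : fld W a 0 = a := by
  unfold fld
  rw [Nat.mul_zero, pow_zero, Nat.div_one, Nat.mod_eq_of_lt h]

/-- one code: words for quads -/
theorem run4_one {W : ℕ} (hW : 330 < W) {len w : ℕ} (hw : ∀ a ∈ digs w len, a < 10)
    (D : Finset (Finset (Fin 13))) :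
    run4 len w 1 (enc 11 4 D) % 2 ^ W = enc 11 4 (mapF (wp (digs w len)) D) := by
  have h := fld_run4_enc (W := W) (N := 1) (by omega) hw (enc 11 4 D) (i := 0) Nat.one_pos
    (D := D) (fld_zero_of_lt (lt_of_lt_of_le (enc_lt 11 4 D) (by
      rw [choose_4]; exact Nat.pow_le_pow_right (by norm_num) (by omega))))
  rw [rep_one (by omega)] at h
  unfold fld at h
  rwa [Nat.mul_zero, pow_zero, Nat.div_one] at h

theorem run4_eq {len w : ℕ} (hw : ∀ a ∈ digs w len, a < 10) (D : Finset (Finset (Fin 13))) :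
    run4 len w 1 (enc 11 4 D) = enc 11 4 (mapF (wp (digs w len)) D) := by
  have h1 := run4_one (W := 331 + run4 len w 1 (enc 11 4 D)) (by omega) hw D
  rwa [Nat.mod_eq_of_lt (lt_of_lt_of_le Nat.lt_two_pow_self
    (Nat.pow_le_pow_right (by norm_num) (by omega)))] at h1

theorem run3_eq {len w : ℕ} (hw : ∀ a ∈ digs w len, a < 10) (D : Finset (Finset (Fin 13))) :
    run3 len w 1 (enc 11 3 D) = enc 11 3 (mapF (wp (digs w len)) D) := by
  have hlt : run3 len w 1 (enc 11 3 D) < 2 ^ (331 + run3 len w 1 (enc 11 3 D)) :=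
    lt_of_lt_of_le Nat.lt_two_pow_self (Nat.pow_le_pow_right (by norm_num) (by omega))
  generalize hW : 331 + run3 len w 1 (enc 11 3 D) = W at hlt
  have h := fld_run3_enc (W := W) (N := 1) (by omega) hw (enc 11 3 D) (i := 0) Nat.one_pos
    (D := D) (fld_zero_of_lt (lt_of_lt_of_le (enc_lt 11 3 D) (by
      rw [choose_3]; exact Nat.pow_le_pow_right (by norm_num) (by omega))))
  rw [rep_one (by omega)] at h
  rwa [fld_zero_of_lt hlt] at h

/-! ## soundness of the list -/

/-- the exchange of 11 and 12 does not change codes on `{0, .., 10}` -/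
theorem enc_swap (k : ℕ) (F : Finset (Finset (Fin 13))) :
    enc 11 k (mapF (Equiv.swap 11 12) F) = enc 11 k F := by
  refine Pool.Agent.Helper82.TY.enc_congr (by norm_num) fun s hs => ?_
  rw [mem_mapF']
  have h : mapS (Equiv.swap (11 : Fin 13) 12).symm s = s := by
    refine mapS_eq_self fun a ha => ?_
    have h2 := mk_lt_iff.1 hs.1 a ha
    rw [Equiv.symm_swap]
    refine Equiv.swap_apply_of_ne_of_ne ?_ ?_
    · rintro rfl
      exact absurd h2 (by decide)
    · rintro rfl
      exact absurd h2 (by decide)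
  rw [h]

/-- the link of 11 in the frame of the tables -/
theorem swap_frame {B : Finset (Finset (Fin 13))} (hB : OddCover B) {T : ℕ}
    (hll : link (link B 12) 11 = fam 11 3 T) (hM : MM B 11 = 6) :
    OddFam 3 (below 12) (mapF (Equiv.swap 11 12) (link B 11)) ∧
      link (mapF (Equiv.swap 11 12) (link B 11)) 11 = fam 11 3 T ∧
      (mapF (Equiv.swap 11 12) (link B 11)).card = 60 := by
  set τ : Equiv.Perm (Fin 13) := Equiv.swap 11 12 with hτ
  have hfix : ∀ a : Fin 13, a ≠ 11 → a ≠ 12 → τ a = a := fun a h1 h2 =>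
    Equiv.swap_apply_of_ne_of_ne h1 h2
  have hτ11 : τ 11 = 12 := Equiv.swap_apply_left _ _
  have hτ12 : τ 12 = 11 := Equiv.swap_apply_right _ _
  refine ⟨?_, ?_, ?_⟩
  · have h1 := (oddFam_link hB 11).map τ
    have h2 : mapS τ (univ.erase 11) = below 12 := by
      ext a
      rw [mem_mapS', mem_erase, mem_below]
      have hs : τ.symm = τ := Equiv.symm_swap _ _
      rw [hs]
      constructor
      · rintro ⟨h3, -⟩
        by_contra h4
        have h5 : a = 12 := by
          apply Fin.ext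
          have : (12 : Fin 13).val = 12 := rfl
          omega
        exact h3 (by rw [h5, hτ12])
      · intro h3
        refine ⟨fun h4 => ?_, mem_univ _⟩
        have h5 : a = 12 := by
          have h6 : τ (τ a) = a := by
            rw [hτ]
            exact congrFun (congrArg DFunLike.coe (Equiv.swap_mul_self (11 : Fin 13) 12)) a
          rw [← h6, h4, hτ11]
        rw [h5] at h3
        exact absurd h3 (by decide)
    rw [h2] at h1
    exact h1
  · have h1 : link (mapF τ (link B 11)) (τ 12) = mapF τ (link (link B 11) 12) :=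
      link_mapF τ _ _
    rw [hτ12, link_comm B 11 12, hll] at h1
    rw [h1]
    refine mapF_eq_self fun s hs a ha => ?_
    have h2 := mk_lt_iff.1 (sub_of_mem_fam (by norm_num) hs).1 a ha
    refine hfix a ?_ ?_
    · rintro rfl
      exact absurd h2 (by decide)
    · rintro rfl
      exact absurd h2 (by decide)
  · have h1 := two_mul_card_link hB 11
    rw [card_mapF]
    omega

theorem mapS_erase (σ : Equiv.Perm (Fin 13)) (s : Finset (Fin 13)) (a : Fin 13) :
    mapS σ (s.erase a) = (mapS σ s).erase (σ a) := by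
  unfold mapS
  rw [map_erase]
  rfl

theorem mk_Y8 : mk (Y8.erase 11) = 1792 := by
  have h : Y8.erase 11 = ofMask 1792 := by decide
  rw [h, mk_ofMask (by norm_num)]

theorem swap_comm_of_fix {α : Equiv.Perm (Fin 13)} (h11 : α 11 = 11) (h12 : α 12 = 12) :
    α * Equiv.swap 11 12 = Equiv.swap 11 12 * α := by
  have h := Equiv.mul_swap_eq_swap_mul α (11 : Fin 13) 12
  rwa [h11, h12] at h

/-- **soundness of the list**: the link of 11 of every cover with root code `c` is in it -/
theorem xList_sound {W : ℕ} (hW : 330 < W) {ok : ℕ → Prop} {xf : ℕ → ℕ → ℕ → ℕ → ℕ} {T : ℕ}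
    {ws : List (ℕ × ℕ)} {gr : List (ℕ × ℕ × ℕ)} (hT : XTab W ok T ws gr) (hTlt : T < 2 ^ 165)
    (hx : XFSound W ok xf) {c lv v : ℕ} (hc : c < 2 ^ 495) {κ : List (ℕ × ℕ) → Bool}
    (h : xList W xf gr T ws c lv v κ = true) :
    ∃ out, κ out = true ∧ ∀ B : Finset (Finset (Fin 13)), XVec B 12 Y8 → link B 12 = fam 12 4 c →
      ∃ p ∈ out, ∃ j < p.1, fld W p.2 j = enc 11 4 (link B 11) := by
  unfold xList at h
  by_cases hk : okW 10 lv v = true
  swap
  · rw [Bool.not_eq_true] at hk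
    rw [hk, cond_false] at h
    exact Bool.noConfusion h
  have hv := okW_iff hk
  rw [hk, cond_true] at h
  by_cases hb : Nat.beq (run3 lv v 1 (Nat.shiftRight c 330)) T = true
  swap
  · rw [Bool.not_eq_true] at hb
    rw [hb, cond_false] at h
    exact Bool.noConfusion h
  rw [hb, cond_true, frc_eq, frc_eq] at h
  have hrT : run3 lv v 1 (c >>> 330) = T := Nat.eq_of_beq_eq_true hb
  obtain ⟨out, h1, -, h3⟩ := autF_sound hW hv h
  refine ⟨out, h1, fun B hX hl => ?_⟩
  obtain ⟨σ, hσ⟩ : ∃ σ, σ = wp (digs v lv) := ⟨_, rfl⟩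
  have hv' : ∀ a ∈ digs v lv, a + 1 < 11 := fun a ha => by have := hv a ha; omega
  have hσ11 : σ 11 = 11 := by rw [hσ]; exact wp_fix hv' le_rfl
  have hσ12 : σ 12 = 12 := by rw [hσ]; exact wp_fix hv' (by decide)
  have hB := hX.odd
  have hencc : enc 12 4 (link B 12) = c := by
    rw [hl, enc_fam (by norm_num)]
    exact hc
  have hE : Nat.mod c (2 ^ 330) = enc 11 4 (link B 12) := by
    rw [← hencc]
    exact enc_mod 11 3 (link B 12)
  have hS : c >>> 330 = enc 11 3 (link (link B 12) 11) := by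
    rw [← hencc]
    exact enc_shift 11 3 (link B 12)
  have hX1 := hX.map σ
  rw [hσ12] at hX1
  have hB1 := hX1.odd
  have hl1 : link (mapF σ B) 12 = mapF σ (link B 12) := by
    conv_lhs => rw [← hσ12]
    exact link_mapF σ _ _
  have hl11 : link (mapF σ B) 11 = mapF σ (link B 11) := by
    conv_lhs => rw [← hσ11]
    exact link_mapF σ _ _
  have hll : link (link (mapF σ B) 12) 11 = fam 11 3 T := by
    rw [← Pool.Agent.Helper67.TY.enc_pair hB1 hTlt, hl1]
    have h5 : link (mapF σ (link B 12)) 11 = mapF σ (link (link B 12) 11) := by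
      conv_lhs => rw [← hσ11]
      exact link_mapF σ _ _
    rw [h5, ← hrT, hS, run3_eq hv, hσ]
  have hM1 : MM (mapF σ B) 11 = 6 := by
    refine hX1.six 11 ?_
    rw [← hσ11, mem_mapS]
    decide
  obtain ⟨d1, d2, d3⟩ := swap_frame hB1 hll hM1
  obtain ⟨w, hw, hwT, g, hg, i, hi, e1, e2, e3⟩ := hT _ d1 d2 d3
  obtain ⟨hw10, p, hp, hpp⟩ := h3 w hw
  obtain ⟨α, hα⟩ : ∃ α, α = wp (digs w.2 w.1) := ⟨_, rfl⟩
  rw [← hα] at hwT e1 e3
  have hw' : ∀ a ∈ digs w.2 w.1, a + 1 < 11 := fun a ha => by have := hw10 a ha; omega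
  have hα11 : α 11 = 11 := by rw [hα]; exact wp_fix hw' le_rfl
  have hα12 : α 12 = 12 := by rw [hα]; exact wp_fix hw' (by decide)
  have hX2 := hX1.map α
  rw [hα12] at hX2
  have hB2 := hX2.odd
  have hl2 : link (mapF α (mapF σ B)) 12 = mapF α (mapF σ (link B 12)) := by
    rw [← hl1]
    conv_lhs => rw [← hα12]
    exact link_mapF α _ _
  have hl21 : link (mapF α (mapF σ B)) 11 = mapF α (mapF σ (link B 11)) := by
    rw [← hl11]
    conv_lhs => rw [← hα11]
    exact link_mapF α _ _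
  have hll2 : link (link (mapF α (mapF σ B)) 12) 11 = fam 11 3 T := by
    rw [← hwT, ← hll]
    have h5 : link (mapF α (mapF σ B)) 12 = mapF α (link (mapF σ B) 12) := by
      conv_lhs => rw [← hα12]
      exact link_mapF α _ _
    rw [h5]
    conv_lhs => rw [← hα11]
    exact link_mapF α _ _
  -- the image of the table entry
  have hDα : mapF α (mapF (Equiv.swap 11 12) (link (mapF σ B) 11)) =
      mapF (Equiv.swap 11 12) (link (mapF α (mapF σ B)) 11) := by
    rw [hl21, ← hl11, ← mapF_mul, ← mapF_mul, swap_comm_of_fix hα11 hα12]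
  rw [hDα] at e1 e3
  rw [enc_swap] at e1
  -- the lights
  have h11 : (11 : Fin 13) ∈ mapS α (mapS σ Y8) := by
    rw [← hα11, mem_mapS, ← hσ11, mem_mapS]
    decide
  have hP1 : ptK w.1 w.2 (ptK lv v 1792) = mk ((mapS α (mapS σ Y8)).erase 11) := by
    rw [← mk_Y8, ptK_eq (fun a ha => by have := hv a ha; omega),
      ptK_eq (fun a ha => by have := hw10 a ha; omega), ← hσ, ← hα, mapS_erase, mapS_erase,
      hσ11, hα11]
  have hPlt : ∀ a ∈ (mapS α (mapS σ Y8)).erase 11, a.val < 11 := by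
    intro a ha
    rw [mem_erase] at ha
    have h5 : a ≠ 12 := by
      rintro rfl
      exact hX2.notMem ha.2
    by_contra h6
    have h7 : a.val = 11 ∨ a.val = 12 := by omega
    rcases h7 with h7 | h7
    · exact ha.1 (Fin.ext h7)
    · exact h5 (Fin.ext h7)
  have hz : g.1 &&& ptK w.1 w.2 (ptK lv v 1792) = ptK w.1 w.2 (ptK lv v 1792) := by
    rw [hP1]
    refine Nat.eq_of_testBit_eq fun j => ?_
    rw [Nat.testBit_and]
    by_cases hj : j < 13
    · have h5 := testBit_mk ((mapS α (mapS σ Y8)).erase 11) ⟨j, hj⟩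
      simp only at h5
      rw [h5]
      by_cases h6 : (⟨j, hj⟩ : Fin 13) ∈ (mapS α (mapS σ Y8)).erase 11
      · rw [decide_eq_true h6, Bool.and_true]
        refine e3 ⟨j, hj⟩ (hPlt _ h6) ?_
        have h7 : Equiv.swap (11 : Fin 13) 12 ⟨j, hj⟩ = ⟨j, hj⟩ := by
          have h8 := hPlt _ h6
          simp only at h8
          refine Equiv.swap_apply_of_ne_of_ne ?_ ?_
          · intro e
            have := congrArg Fin.val e
            simp only at this
            have h9 : ((11 : Fin 13) : ℕ) = 11 := rfl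
            omega
          · intro e
            have := congrArg Fin.val e
            simp only at this
            have h9 : ((12 : Fin 13) : ℕ) = 12 := rfl
            omega
        conv_lhs => rw [← h7]
        rw [link_mapF, card_mapF, Pool.Agent.Helper67.TY.card_link_link hB2
          (ne_of_mem_erase h6).symm, hX2.mm_six h11 (mem_of_mem_erase h6) (ne_of_mem_erase h6).symm]
      · rw [decide_eq_false h6, Bool.and_false]
    · rw [testBit_mk_ge _ (by omega), Bool.and_false]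
  -- the root code
  have hD1 : run4 w.1 w.2 1 (run4 lv v 1 (Nat.mod c (2 ^ 330))) + T <<< 330 =
      enc 12 4 (link (mapF α (mapF σ B)) 12) := by
    have h5 : enc 12 4 (link (mapF α (mapF σ B)) 12) =
        enc 11 4 (link (mapF α (mapF σ B)) 12) +
          2 ^ 330 * enc 11 3 (link (link (mapF α (mapF σ B)) 12) 11) :=
      enc_split 11 3 _
    rw [h5, hll2, enc_fam (by norm_num) (by exact hTlt), hE, run4_eq hv, run4_eq hw10, hl2, hσ, hα,
      Nat.shiftLeft_eq, Nat.mul_comm]
  have hsub2 : ∀ s ∈ link (mapF α (mapF σ B)) 12, Sub 12 4 s := by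
    intro s hs
    have h5 := (Pool.Agent.Helper67.TY.oddFam_twelve hB2).1 s hs
    refine ⟨mk_lt_iff.2 fun a ha => ?_, h5.2⟩
    have := h5.1 ha
    rwa [mem_below] at this
  have halive := hx _ _ (run4 w.1 w.2 1 (run4 lv v 1 (Nat.mod c (2 ^ 330))) + T <<< 330)
    (ptK w.1 w.2 (ptK lv v 1792)) g.2.1 g.2.2 i hX2 h11 hP1
    (by rw [hD1, fam_enc (by norm_num) hsub2]) (by rw [hD1]; exact enc_lt 12 4 _) hi e1 e2
  obtain ⟨j, hj, hjj⟩ := hpp g hg hz i halive
  refine ⟨p, hp, j, hj, ?_⟩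
  rw [hjj, ← e1, hl21, ← enc_wp (by norm_num) (tab := tab4)
    (fun a ha => chk_tab4 a (hw10 a (List.mem_reverse.1 ha))), wp_reverse, ← hα,
    ← enc_wp (by norm_num) (tab := tab4)
    (fun a ha => chk_tab4 a (hv a (List.mem_reverse.1 ha))), wp_reverse, ← hσ,
    ← mapF_mul, ← mapF_mul, ← mapF_mul]
  have h9 : σ⁻¹ * (α⁻¹ * (α * σ)) = 1 := by group
  have h10 : σ⁻¹ * (α⁻¹ * α * σ) = 1 := by group
  first
    | rw [h9, mapF_one]
    | (rw [mul_assoc, h9, mapF_one])
    | (simp [mapF_one])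

end Pool.Agent.Helper74.TY
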