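import Pool.Agent.Helper74.TY.XCnt

/-!
MP_8ee768_co, project TH-Y': extraction of the alive lanes of a long packed list, in pieces.
-/

set_option autoImplicit false

namespace Pool.Agent.Helper74.TY

open Pool.Agent.Helper63.SIMD

/-- the extraction inside a piece (salt `u`) -/
def extS (W c1 m1 X u : ℕ) (κ : ℕ → ℕ → Bool) (n : ℕ) : ℕ → ℕ → ℕ → Bool :=
  @Nat.rec (fun _ => ℕ → ℕ → ℕ → Bool) (fun _ _ _ => false)
    (fun n ih Z k a => cond (Nat.beq Z 0) (κ k a)
      (frs (Nat.add u n) (Nat.land Z (Nat.sub Z 1)) fun Z' =>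
        frs (Nat.add n u) (Nat.lor a (Nat.shiftLeft (laneAt c1 m1 X (Nat.xor Z Z')) (Nat.mul W k)))
          fun a' => ih Z' (Nat.succ k) a')) n

theorem extS_succ (W c1 m1 X u : ℕ) (κ : ℕ → ℕ → Bool) (n Z k a : ℕ) :
    extS W c1 m1 X u κ (n + 1) Z k a = cond (Nat.beq Z 0) (κ k a)
      (extS W c1 m1 X u κ n (Z &&& (Z - 1)) (k + 1)
        (a ||| (laneAt c1 m1 X (Z ^^^ (Z &&& (Z - 1)))) <<< (W * k))) := by
  show cond (Nat.beq Z 0) (κ k a) (frs _ _ fun Z' => frs _ _ fun a' => _) = _
  rw [frs_eq, frs_eq]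
  rfl

theorem extS_sound {W c : ℕ} (hc : c < W) {X u : ℕ} {κ : ℕ → ℕ → Bool} :
    ∀ {n Z k a : ℕ}, a < 2 ^ (W * k) → extS W (2 ^ c - 1) (2 ^ W - 1) X u κ n Z k a = true →
      ∃ k' a', a' < 2 ^ (W * k') ∧ κ k' a' = true ∧ k ≤ k' ∧
        (∀ i < k, fld W a' i = fld W a i) ∧
        ∀ i, Z.testBit (W * i) = true → ∃ j < k', fld W a' j = fld W X i % 2 ^ c := by
  intro n
  induction n with
  | zero =>
    intro Z k a _ h
    have h' : false = true := h
    exact Bool.noConfusion h'
  | succ n ih =>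
    intro Z k a ha h
    rw [extS_succ] at h
    by_cases hZ : Z = 0
    · subst hZ
      refine ⟨k, a, ha, h, le_rfl, fun _ _ => rfl, fun i hi => ?_⟩
      rw [Nat.zero_testBit] at hi
      exact Bool.noConfusion hi
    · have hb : Nat.beq Z 0 = false := by
        rw [← Bool.not_eq_true]
        intro h1
        exact hZ (Nat.eq_of_beq_eq_true h1)
      rw [hb, cond_false] at h
      obtain ⟨t, h1, h2, h3⟩ := lowbit hZ
      rw [h2] at h
      have hm : 0 < 2 ^ W - 1 := by
        have h4 : 2 ^ 1 ≤ 2 ^ W := Nat.pow_le_pow_right (by norm_num) (by omega)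
        omega
      have hl : laneAt (2 ^ c - 1) (2 ^ W - 1) X (2 ^ t) < 2 ^ W :=
        lt_of_lt_of_le (laneAt_lt hm) (Nat.sub_le _ _)
      obtain ⟨h4, h5, h6⟩ := fld_append (W := W) ha hl
      obtain ⟨k', a', g1, g2, g3, g4, g5⟩ := ih h4 h
      refine ⟨k', a', g1, g2, by omega, fun i hi => ?_, fun i hi => ?_⟩
      · rw [g4 i (by omega), h6 i hi]
      · by_cases hit : W * i = t
        · refine ⟨k, by omega, ?_⟩
          rw [g4 k (by omega), h5, ← hit, laneAt_eq hc]
        · exact g5 i (h3 _ hi hit)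

/-- appending a packed list to a packed list -/
theorem fld_append' {W K k A a : ℕ} (hA : A < 2 ^ (W * K)) (ha : a < 2 ^ (W * k)) :
    (A ||| a <<< (W * K)) < 2 ^ (W * (K + k)) ∧
      (∀ i < K, fld W (A ||| a <<< (W * K)) i = fld W A i) ∧
      ∀ i, fld W (A ||| a <<< (W * K)) (K + i) = fld W a i := by
  have e : A ||| a <<< (W * K) = 2 ^ (W * K) * a + A := by
    rw [Nat.lor_comm, Nat.shiftLeft_eq, Nat.mul_comm a, ← Nat.two_pow_add_eq_or_of_lt hA]
  rw [e]
  refine ⟨?_, ?_, ?_⟩
  · rw [Nat.mul_add, pow_add]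
    calc 2 ^ (W * K) * a + A < 2 ^ (W * K) * a + 2 ^ (W * K) := by omega
      _ = 2 ^ (W * K) * (a + 1) := by ring
      _ ≤ 2 ^ (W * K) * 2 ^ (W * k) := Nat.mul_le_mul_left _ ha
  · intro i hi
    refine Nat.eq_of_testBit_eq fun j => ?_
    unfold fld
    rw [Nat.testBit_mod_two_pow, Nat.testBit_mod_two_pow, Nat.testBit_div_two_pow,
      Nat.testBit_div_two_pow]
    by_cases hj : j < W
    · have h1 : j + W * i < W * K := by
        have h2 : W * (i + 1) ≤ W * K := Nat.mul_le_mul_left _ hi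
        rw [Nat.mul_add, mul_one] at h2
        omega
      rw [Nat.testBit_two_pow_mul_add _ hA, if_pos h1]
    · simp [hj]
  · intro i
    refine Nat.eq_of_testBit_eq fun j => ?_
    unfold fld
    rw [Nat.testBit_mod_two_pow, Nat.testBit_mod_two_pow, Nat.testBit_div_two_pow,
      Nat.testBit_div_two_pow, Nat.testBit_two_pow_mul_add _ hA, if_neg (by
        rw [Nat.mul_add]
        omega)]
    congr 2
    rw [Nat.mul_add]
    omega

/-- the extraction, pieces of `S` bits -/
def extP (W c1 m1 S mS u : ℕ) (κ : ℕ → ℕ → Bool) (n : ℕ) : ℕ → ℕ → ℕ → ℕ → Bool :=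
  @Nat.rec (fun _ => ℕ → ℕ → ℕ → ℕ → Bool) (fun _ _ _ _ => false)
    (fun n ih Z X K A => cond (Nat.beq Z 0) (κ K A)
      (frs (Nat.add u n) (Nat.land Z mS) fun Zp =>
        frs (Nat.add n u) (Nat.shiftRight Z S) fun Z' =>
          frs (Nat.mul n u) (Nat.shiftRight X S) fun X' =>
            cond (Nat.beq Zp 0) (ih Z' X' K A)
              (frs (Nat.sub u n) (Nat.land X mS) fun Xp =>
                extS W c1 m1 Xp (Nat.mul u n) (fun k a =>
                  frs (Nat.mul u n) (Nat.lor A (Nat.shiftLeft a (Nat.mul W K))) fun A' =>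
                    frs (Nat.mul n u) (Nat.add K k) fun K' => ih Z' X' K' A') 65 Zp 0 0))) n

theorem extP_succ (W c1 m1 S mS u : ℕ) (κ : ℕ → ℕ → Bool) (n Z X K A : ℕ) :
    extP W c1 m1 S mS u κ (n + 1) Z X K A = cond (Nat.beq Z 0) (κ K A)
      (cond (Nat.beq (Z &&& mS) 0) (extP W c1 m1 S mS u κ n (Z >>> S) (X >>> S) K A)
        (extS W c1 m1 (X &&& mS) (u * n) (fun k a =>
          extP W c1 m1 S mS u κ n (Z >>> S) (X >>> S) (K + k) (A ||| a <<< (W * K)))
          65 (Z &&& mS) 0 0)) := by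
  have hk : (fun k a => frs (Nat.mul u n) (Nat.lor A (Nat.shiftLeft a (Nat.mul W K))) fun A' =>
      frs (Nat.mul n u) (Nat.add K k) fun K' =>
        extP W c1 m1 S mS u κ n (Z >>> S) (X >>> S) K' A') =
      fun k a => extP W c1 m1 S mS u κ n (Z >>> S) (X >>> S) (K + k) (A ||| a <<< (W * K)) := by
    funext k a
    rw [frs_eq, frs_eq]
    rfl
  rw [← hk]
  show cond (Nat.beq Z 0) (κ K A) (frs _ _ fun Zp => frs _ _ fun Z' => frs _ _ fun X' =>
    cond (Nat.beq Zp 0) _ (frs _ _ fun Xp => extS W c1 m1 Xp _ _ 65 Zp 0 0)) = _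
  rw [frs_eq, frs_eq, frs_eq, frs_eq]
  rfl

/-- **soundness of the extraction in pieces** of `s` lanes -/
theorem extP_sound {W c s : ℕ} (hc : c < W) {u : ℕ} {κ : ℕ → ℕ → Bool} :
    ∀ {n Z X K A : ℕ}, A < 2 ^ (W * K) →
      extP W (2 ^ c - 1) (2 ^ W - 1) (W * s) (2 ^ (W * s) - 1) u κ n Z X K A = true →
      ∃ K' A', A' < 2 ^ (W * K') ∧ κ K' A' = true ∧ K ≤ K' ∧
        (∀ i < K, fld W A' i = fld W A i) ∧
        ∀ i, Z.testBit (W * i) = true → ∃ j < K', fld W A' j = fld W X i % 2 ^ c := by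
  intro n
  induction n with
  | zero =>
    intro Z X K A _ h
    have h' : false = true := h
    exact Bool.noConfusion h'
  | succ n ih =>
    intro Z X K A hA h
    rw [extP_succ] at h
    by_cases hZ : Z = 0
    · subst hZ
      refine ⟨K, A, hA, h, le_rfl, fun _ _ => rfl, fun i hi => ?_⟩
      rw [Nat.zero_testBit] at hi
      exact Bool.noConfusion hi
    have hb : Nat.beq Z 0 = false := by
      rw [← Bool.not_eq_true]
      intro h1
      exact hZ (Nat.eq_of_beq_eq_true h1)
    rw [hb, cond_false] at h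
    -- the upper part
    have hup : ∀ i, s ≤ i → ((Z >>> (W * s)).testBit (W * (i - s)) = Z.testBit (W * i)) ∧
        fld W (X >>> (W * s)) (i - s) = fld W X i := by
      intro i hi
      have h1 : W * s + W * (i - s) = W * i := by
        rw [← Nat.mul_add]
        congr 1
        omega
      refine ⟨by rw [Nat.testBit_shiftRight, h1], ?_⟩
      unfold fld
      rw [Nat.shiftRight_eq_div_pow, Nat.div_div_eq_div_mul, ← pow_add, h1]
    by_cases h0 : Z &&& (2 ^ (W * s) - 1) = 0
    · have h1 : Nat.beq (Z &&& (2 ^ (W * s) - 1)) 0 = true := by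
        rw [h0]
        rfl
      rw [h1, cond_true] at h
      obtain ⟨K', A', g1, g2, g3, g4, g5⟩ := ih hA h
      refine ⟨K', A', g1, g2, g3, g4, fun i hi => ?_⟩
      by_cases his : s ≤ i
      · obtain ⟨u1, u2⟩ := hup i his
        rw [← u1] at hi
        obtain ⟨j, hj, hj'⟩ := g5 _ hi
        exact ⟨j, hj, by rw [hj', u2]⟩
      · exfalso
        have h2 := congrArg (fun v => Nat.testBit v (W * i)) h0
        simp only [Nat.testBit_and, Nat.zero_testBit, Nat.testBit_two_pow_sub_one] at h2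
        have h3 : W * i < W * s := Nat.mul_lt_mul_of_pos_left (by omega) (by omega)
        rw [hi, decide_eq_true h3, Bool.true_and] at h2
        exact Bool.noConfusion h2
    · have h1 : Nat.beq (Z &&& (2 ^ (W * s) - 1)) 0 = false := by
        rw [← Bool.not_eq_true]
        intro h2
        exact h0 (Nat.eq_of_beq_eq_true h2)
      rw [h1, cond_false] at h
      obtain ⟨k, a, f1, f2, -, -, f5⟩ := extS_sound hc (k := 0) (a := 0)
        (by rw [Nat.mul_zero, pow_zero]; exact Nat.one_pos) h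
      obtain ⟨a1, a2, a3⟩ := fld_append' (W := W) hA f1
      obtain ⟨K', A', g1, g2, g3, g4, g5⟩ := ih a1 f2
      refine ⟨K', A', g1, g2, by omega, fun i hi => ?_, fun i hi => ?_⟩
      · rw [g4 i (by omega), a2 i hi]
      · by_cases his : s ≤ i
        · obtain ⟨u1, u2⟩ := hup i his
          rw [← u1] at hi
          obtain ⟨j, hj, hj'⟩ := g5 _ hi
          exact ⟨j, hj, by rw [hj', u2]⟩
        · have h3 : W * i < W * s := Nat.mul_lt_mul_of_pos_left (by omega) (by omega)
          have h4 : (Z &&& (2 ^ (W * s) - 1)).testBit (W * i) = true := by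
            rw [Nat.testBit_and, Nat.testBit_two_pow_sub_one, hi, decide_eq_true h3]
            rfl
          obtain ⟨j, hj, hj'⟩ := f5 i h4
          refine ⟨K + j, by omega, ?_⟩
          rw [g4 _ (by omega), a3, hj']
          have h5 : fld W (X &&& (2 ^ (W * s) - 1)) i = fld W X i := by
            refine Nat.eq_of_testBit_eq fun b => ?_
            unfold fld
            rw [Nat.testBit_mod_two_pow, Nat.testBit_mod_two_pow, Nat.testBit_div_two_pow,
              Nat.testBit_div_two_pow, Nat.testBit_and, Nat.testBit_two_pow_sub_one]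
            by_cases hb : b < W
            · have h6 : b + W * i < W * s := by
                have h7 : W * (i + 1) ≤ W * s := Nat.mul_le_mul_left _ (by omega)
                rw [Nat.mul_add, mul_one] at h7
                omega
              rw [decide_eq_true h6, Bool.and_true]
            · simp [hb]
          rw [h5]

end Pool.Agent.Helper74.TY
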